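import Pool.Agent.UCR.Defs

/-!
# UCR BlueCount: lower tail of a weighted sum of independent indicators

PROOF. Let `x_T = wt T / wmax ∈ [0, 1]` and `S(f)` = the sum of `wt T` over `T` with `f T = 0`. For
every `f` in the set `1 ≤ exp (b / wmax) * exp (- S(f) / wmax)`, so the cardinality is at most
`exp (b / wmax) * ∑_f ∏_T (if f T = 0 then exp (- x_T) else 1)`
`= exp (b / wmax) * ∏_T (Q - 1 + exp (- x_T))` (`Finset.prod_univ_sum` /
`Fintype.piFinset_univ`). Since `1 - exp (- x) ≥ x / 2` on `[0, 1]`,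
`Q - 1 + exp (- x) ≤ Q (1 - x / (2 Q)) ≤ Q exp (- x / (2 Q))`. The product is at most
`Q ^ card Lab * exp (- (∑ wt T) / (2 Q wmax)) ≤ Q ^ card Lab * exp (- K / (2 Q wmax))`, and
`b / wmax ≤ K / (4 Q wmax)`.
-/

set_option autoImplicit false

namespace Pool.Agent.UCR

private theorem exp_neg_le {x : ℝ} (h0 : 0 ≤ x) (h1 : x ≤ 1) : Real.exp (-x) ≤ 1 - x / 2 := by
  have h2 : x + 1 ≤ Real.exp x := Real.add_one_le_exp x
  have h3 : 0 < Real.exp x := Real.exp_pos x
  rw [Real.exp_neg, inv_le_iff_one_le_mul₀ h3]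
  have h4 : (1 - x / 2) * (x + 1) ≤ (1 - x / 2) * Real.exp x :=
    mul_le_mul_of_nonneg_left h2 (by linarith)
  nlinarith

private theorem sum_fin {Q : ℕ} (hQ : 0 < Q) (a : ℝ) :
    ∑ q : Fin Q, (if (q : ℕ) = 0 then a else 1) = Q - 1 + a := by
  have h1 : ∀ q : Fin Q, (if (q : ℕ) = 0 then a else 1) =
      1 + if q = ⟨0, hQ⟩ then a - 1 else 0 := by
    intro q
    by_cases h : (q : ℕ) = 0
    · have h2 : q = ⟨0, hQ⟩ := Fin.ext h
      rw [if_pos h, if_pos h2]
      ring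
    · have h2 : q ≠ ⟨0, hQ⟩ := fun h2 => h (congrArg Fin.val h2)
      rw [if_neg h, if_neg h2]
      ring
  rw [Finset.sum_congr rfl fun q _ => h1 q, Finset.sum_add_distrib, Finset.sum_ite_eq',
    if_pos (Finset.mem_univ _), Finset.sum_const, Finset.card_univ, Fintype.card_fin,
    nsmul_eq_mul]
  ring

open Classical in
theorem blue_count {Lab : Type} [Fintype Lab] (Q : ℕ) (hQ : 0 < Q) (wt : Lab → ℕ) (wmax : ℝ)
    (hw0 : 0 < wmax) (hw : ∀ T, (wt T : ℝ) ≤ wmax) (K b : ℝ)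
    (hK : K ≤ ∑ T, (wt T : ℝ)) (hb : 4 * Q * b ≤ K) :
    ((Finset.univ.filter (fun f : Lab → Fin Q =>
      (∑ T ∈ Finset.univ.filter (fun T => (f T : ℕ) = 0), (wt T : ℝ)) ≤ b)).card : ℝ)
      ≤ (Q : ℝ) ^ Fintype.card Lab * Real.exp (-(K / (4 * Q * wmax))) := by
  have hQ' : (0 : ℝ) < Q := by exact_mod_cast hQ
  set S : (Lab → Fin Q) → ℝ := fun f =>
    ∑ T ∈ Finset.univ.filter (fun T => (f T : ℕ) = 0), (wt T : ℝ) with hS
  have key : ∀ f : Lab → Fin Q, Real.exp (-(S f / wmax)) =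
      ∏ T, (if (f T : ℕ) = 0 then Real.exp (-((wt T : ℝ) / wmax)) else 1) := by
    intro f
    rw [← Finset.prod_filter, ← Real.exp_sum, Finset.sum_neg_distrib, ← Finset.sum_div]
  have h1 : ((Finset.univ.filter (fun f : Lab → Fin Q => S f ≤ b)).card : ℝ) ≤
      ∑ f : Lab → Fin Q, Real.exp (b / wmax) * Real.exp (-(S f / wmax)) := by
    rw [Finset.card_eq_sum_ones, Nat.cast_sum]
    refine le_trans (Finset.sum_le_sum fun f hf => ?_)
      (Finset.sum_le_sum_of_subset_of_nonneg (Finset.filter_subset _ _) fun f _ _ => ?_)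
    · rw [Nat.cast_one, ← Real.exp_add]
      apply Real.one_le_exp
      have h2 : S f ≤ b := (Finset.mem_filter.1 hf).2
      have h3 : S f / wmax ≤ b / wmax := div_le_div_of_nonneg_right h2 hw0.le
      linarith
    · positivity
  have h2 : ∑ f : Lab → Fin Q, Real.exp (-(S f / wmax)) =
      ∏ T : Lab, ((Q : ℝ) - 1 + Real.exp (-((wt T : ℝ) / wmax))) := by
    rw [Finset.sum_congr rfl fun f _ => key f, ← Fintype.piFinset_univ,
      ← Finset.prod_univ_sum (fun _ : Lab => (Finset.univ : Finset (Fin Q)))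
        (fun T q => if (q : ℕ) = 0 then Real.exp (-((wt T : ℝ) / wmax)) else 1)]
    exact Finset.prod_congr rfl fun T _ => sum_fin hQ _
  have h3 : ∏ T : Lab, ((Q : ℝ) - 1 + Real.exp (-((wt T : ℝ) / wmax))) ≤
      ∏ T : Lab, ((Q : ℝ) * Real.exp (-((wt T : ℝ) / (2 * Q * wmax)))) := by
    refine Finset.prod_le_prod (fun T _ => ?_) fun T _ => ?_
    · have h4 : (1 : ℝ) ≤ Q := by exact_mod_cast hQ
      have h5 := Real.exp_pos (-((wt T : ℝ) / wmax))
      linarith
    · have hx0 : 0 ≤ (wt T : ℝ) / wmax := by positivity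
      have hx1 : (wt T : ℝ) / wmax ≤ 1 := (div_le_one hw0).2 (hw T)
      have h4 := exp_neg_le hx0 hx1
      have h5 := Real.add_one_le_exp (-((wt T : ℝ) / (2 * Q * wmax)))
      have h6 : (Q : ℝ) * (-((wt T : ℝ) / (2 * Q * wmax)) + 1) =
          Q - (wt T : ℝ) / wmax / 2 := by
        field_simp
        ring
      have h7 := mul_le_mul_of_nonneg_left h5 hQ'.le
      rw [h6] at h7
      linarith
  have h4 : ∏ T : Lab, ((Q : ℝ) * Real.exp (-((wt T : ℝ) / (2 * Q * wmax)))) =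
      (Q : ℝ) ^ Fintype.card Lab * Real.exp (-((∑ T, (wt T : ℝ)) / (2 * Q * wmax))) := by
    rw [Finset.prod_mul_distrib, Finset.prod_const, Finset.card_univ, ← Real.exp_sum,
      Finset.sum_neg_distrib, ← Finset.sum_div]
  have h5 : b / wmax + -((∑ T, (wt T : ℝ)) / (2 * Q * wmax)) ≤ -(K / (4 * Q * wmax)) := by
    have h6 : K / (2 * Q * wmax) ≤ (∑ T, (wt T : ℝ)) / (2 * Q * wmax) :=
      div_le_div_of_nonneg_right hK (by positivity)
    have h7 : b / wmax ≤ K / (4 * Q * wmax) := by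
      rw [div_le_div_iff₀ hw0 (by positivity)]
      have := mul_le_mul_of_nonneg_right hb hw0.le
      linarith
    have h8 : K / (2 * Q * wmax) = 2 * (K / (4 * Q * wmax)) := by
      field_simp
      ring
    linarith
  calc ((Finset.univ.filter (fun f : Lab → Fin Q => S f ≤ b)).card : ℝ)
      ≤ ∑ f : Lab → Fin Q, Real.exp (b / wmax) * Real.exp (-(S f / wmax)) := h1
    _ = Real.exp (b / wmax) * ∏ T : Lab, ((Q : ℝ) - 1 + Real.exp (-((wt T : ℝ) / wmax))) := by
      rw [← Finset.mul_sum, h2]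
    _ ≤ Real.exp (b / wmax) * ((Q : ℝ) ^ Fintype.card Lab *
        Real.exp (-((∑ T, (wt T : ℝ)) / (2 * Q * wmax)))) := by
      rw [← h4]
      exact mul_le_mul_of_nonneg_left h3 (Real.exp_pos _).le
    _ = (Q : ℝ) ^ Fintype.card Lab *
        Real.exp (b / wmax + -((∑ T, (wt T : ℝ)) / (2 * Q * wmax))) := by
      rw [Real.exp_add]
      ring
    _ ≤ (Q : ℝ) ^ Fintype.card Lab * Real.exp (-(K / (4 * Q * wmax))) :=
      mul_le_mul_of_nonneg_left (Real.exp_le_exp.2 h5) (by positivity)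

end Pool.Agent.UCR
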