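import Pool.Agent.UCR.BlueCount

/-!
# UCR BlueUnion: union bound over the data

PROOF. Let `M = 2 ^ k`, `K = M / (2 (k + 1) ^ 2)`, `D = log (r (M + 1) ^ 2) + log (4 (k + 1) ^ 2)`.
Fix `u, v ≤ k` and `d1, d2` with `M * wt T ≤ 16 * 2 ^ (u + v) + 4 M` for all `T` and
`K ≤ ∑ wt`. By `blue_count` with `wmax = 16 * 2 ^ (u + v) / M + 4` the number of `f` is at most
`Q ^ (r ^ 2) * exp (- K / (4 Q wmax))`. The number of `(d1, d2)` is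
`(r (M + 1) ^ 2) ^ (x1 + x2)`, `x1 = M / 2 ^ u`, `x2 = M / 2 ^ v` (floors; at least 1 as
`u, v ≤ k`). Put `x = M / 2 ^ u + M / 2 ^ v` (reals), `x ≥ 1`. Then
`4 Q wmax x = 4 Q (16 (2 ^ v + 2 ^ u) + 4 M (1 / 2 ^ u + 1 / 2 ^ v))`
`≤ 4 Q (32 μ + 16 M / ℓ)` (`2 ^ u ≤ μ`, `1 / 2 ^ u < 2 / ℓ`), so by `hnum`
`K ≥ 4 Q wmax x D`, hence `exp (- K / (4 Q wmax)) ≤ exp (- x D)` and
`(r (M + 1) ^ 2) ^ (x1 + x2) * exp (- x D) ≤ exp (- x log (4 (k + 1) ^ 2)) ≤ 1 / (4 (k + 1) ^ 2)`.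
Sum over the at most `(k + 1) ^ 2` pairs `(u, v)` with `u, v ≤ k`. (If `r = 0` the set is
empty or the bound is trivial; `0 < ℓ`.)
-/

set_option autoImplicit false

namespace Pool.Agent.UCR

open Classical in
theorem blue_union (k r Q μ ℓ : ℕ) (b : ℝ) (σ : Equiv.Perm (Fin (2 ^ k))) (hr : 0 < r)
    (hQ : 0 < Q) (hℓ : 0 < ℓ)
    (hb : 4 * (Q : ℝ) * b ≤ 2 ^ k / (2 * (k + 1) ^ 2))
    (hnum : 4 * (Q : ℝ) * (32 * μ + 16 * 2 ^ k / ℓ) *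
      (Real.log (r * (2 ^ k + 1) ^ 2) + Real.log (4 * (k + 1) ^ 2)) ≤ 2 ^ k / (2 * (k + 1) ^ 2)) :
    4 * ((Finset.univ.filter (fun f : Fin r × Fin r → Fin Q =>
      ∃ u ≤ k, ∃ v ≤ k, ℓ < 2 ^ (u + 1) ∧ 2 ^ u ≤ μ ∧ ℓ < 2 ^ (v + 1) ∧ 2 ^ v ≤ μ ∧
      ∃ (d1 : Fin (2 ^ k / 2 ^ u) → Fin r × Fin (2 ^ k + 1) × Fin (2 ^ k + 1))
        (d2 : Fin (2 ^ k / 2 ^ v) → Fin r × Fin (2 ^ k + 1) × Fin (2 ^ k + 1)),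
        (∀ T, 2 ^ k * wt d1 d2 σ T ≤ 16 * 2 ^ (u + v) + 4 * 2 ^ k) ∧
        2 ^ k ≤ 2 * (k + 1) ^ 2 * ∑ T, wt d1 d2 σ T ∧
        (∑ T ∈ Finset.univ.filter (fun T => (f T : ℕ) = 0), (wt d1 d2 σ T : ℝ)) ≤ b)).card : ℝ)
      ≤ (Q : ℝ) ^ (r ^ 2) := by
  sorry

end Pool.Agent.UCR
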