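import Pool.Agent.UCR.Defs

/-!
# UCR Data: windows of comparable size

`A1 p` is the coarse window of piece `p` of phase 1, `A2 q` the window of piece `q` of phase 2
(monotone); the unit `p` has the pieces `p` and `σ p`.

PROOF. Fibres of monotone maps are intervals: `{p : A1 p = i} = [l_i, h_i)` (as naturals). Call `p`
good if the fibre of `A1 p` has size between `ℓ` and `μ` and the fibre of `A2 (σ p)` too. Bad are at
most `C0 + C0` (large fibres; `σ` is a bijection) `+ r ℓ + r ℓ` (small fibres), at most `M / 2`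
altogether. Classify the good `p` by `(u, v)`, `2 ^ u ≤ |fibre 1| < 2 ^ (u + 1)`,
`2 ^ v ≤ |fibre 2| < 2 ^ (v + 1)` (`Nat.log 2`), `u, v ≤ k`. Some `(u, v)` gets at least
`M / (2 (k + 1) ^ 2)` points (pigeonhole, `Finset.exists_le_card_fiber_of_mul_le_card_of_maps_to`
or a sum); it is not empty. Let `J1` be the set of windows `i` with fibre size in
`[2 ^ u, 2 ^ (u + 1))`: the fibres are disjoint, so `1 ≤ |J1| ≤ M / 2 ^ u`, and there is a
function `d1` on `Fin (M / 2 ^ u)` with range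
`{(i, l_i, h_i) : i ∈ J1}` (enumerate `J1` and repeat one element). Same for `d2`. Then a point
counted for `(i, j)` has `A1 p = i`, `A2 (σ p) = j`; every `p` of class `(u, v)` is counted; and for
`(i, j)` the number of counted points is at most the number of `p ∈ [l_i, h_i)` with
`σ p ∈ [l'_j, h'_j)`; `Mixing` gives
`M * wt ≤ 4 * 2 ^ (u + 1) * 2 ^ (v + 1) + 4 M = 16 * 2 ^ (u + v) + 4 M` (and `wt = 0` if `i ∉ J1`
or `j ∉ J2`).
-/

set_option autoImplicit false

namespace Pool.Agent.UCR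

private lemma interval {M r : ℕ} (A : Fin M → Fin r) (hA : Monotone A) (i : Fin r)
    (hne : (Finset.univ.filter (fun p => A p = i)).Nonempty) :
    ∃ l h : Fin (M + 1), (∀ p : Fin M, A p = i ↔ (l : ℕ) ≤ (p : ℕ) ∧ (p : ℕ) < (h : ℕ)) ∧
      (h : ℕ) - (l : ℕ) = (Finset.univ.filter (fun p => A p = i)).card := by
  obtain ⟨a, haS, hamin⟩ := Finset.exists_min_image
    (Finset.univ.filter (fun p => A p = i)) (fun p => (p : ℕ)) hne
  obtain ⟨b, hbS, hbmax⟩ := Finset.exists_max_image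
    (Finset.univ.filter (fun p => A p = i)) (fun p => (p : ℕ)) hne
  have ha : A a = i := (Finset.mem_filter.1 haS).2
  have hb : A b = i := (Finset.mem_filter.1 hbS).2
  have key : ∀ p : Fin M, A p = i ↔ (a : ℕ) ≤ (p : ℕ) ∧ (p : ℕ) < (b : ℕ) + 1 := by
    intro p
    constructor
    · intro hp
      have hm : p ∈ Finset.univ.filter (fun p => A p = i) :=
        Finset.mem_filter.2 ⟨Finset.mem_univ _, hp⟩
      exact ⟨hamin p hm, Nat.lt_succ_of_le (hbmax p hm)⟩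
    · rintro ⟨h1, h2⟩
      have h3 : A a ≤ A p := hA (by exact Fin.le_def.2 h1)
      have h4 : A p ≤ A b := hA (by exact Fin.le_def.2 (Nat.lt_succ_iff.1 h2))
      rw [ha] at h3
      rw [hb] at h4
      exact le_antisymm h4 h3
  refine ⟨⟨a, by omega⟩, ⟨(b : ℕ) + 1, by omega⟩, key, ?_⟩
  have hS : Finset.univ.filter (fun p => A p = i) = Finset.Icc a b := by
    ext p
    rw [Finset.mem_filter, Finset.mem_Icc, Fin.le_def, Fin.le_def, key p]
    simp
  rw [hS, Fin.card_Icc]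

private lemma enum {M r : ℕ} (A : Fin M → Fin r) (hA : Monotone A) (u : ℕ) (p₀ : Fin M)
    (h1 : 2 ^ u ≤ (Finset.univ.filter (fun p => A p = A p₀)).card)
    (h2 : (Finset.univ.filter (fun p => A p = A p₀)).card < 2 ^ (u + 1)) :
    ∃ d : Fin (M / 2 ^ u) → Fin r × Fin (M + 1) × Fin (M + 1),
      (∀ s, 2 ^ u ≤ (Finset.univ.filter (fun p => A p = (d s).1)).card ∧
        (Finset.univ.filter (fun p => A p = (d s).1)).card < 2 ^ (u + 1) ∧
        (∀ p : Fin M, A p = (d s).1 ↔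
          ((d s).2.1 : ℕ) ≤ (p : ℕ) ∧ (p : ℕ) < ((d s).2.2 : ℕ)) ∧
        ((d s).2.2 : ℕ) - ((d s).2.1 : ℕ) = (Finset.univ.filter (fun p => A p = (d s).1)).card) ∧
      ∀ i, 2 ^ u ≤ (Finset.univ.filter (fun p => A p = i)).card →
        (Finset.univ.filter (fun p => A p = i)).card < 2 ^ (u + 1) → ∃ s, (d s).1 = i := by
  classical
  set J : Finset (Fin r) := Finset.univ.filter (fun i =>
    2 ^ u ≤ (Finset.univ.filter (fun p => A p = i)).card ∧
      (Finset.univ.filter (fun p => A p = i)).card < 2 ^ (u + 1)) with hJ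
  have hJm : ∀ i, i ∈ J ↔ 2 ^ u ≤ (Finset.univ.filter (fun p => A p = i)).card ∧
      (Finset.univ.filter (fun p => A p = i)).card < 2 ^ (u + 1) := by
    intro i
    rw [hJ, Finset.mem_filter]
    simp
  have hcard : J.card ≤ M / 2 ^ u := by
    rw [Nat.le_div_iff_mul_le (by positivity)]
    have e1 : J.card * 2 ^ u ≤ ∑ i ∈ J, (Finset.univ.filter (fun p => A p = i)).card := by
      rw [← smul_eq_mul]
      exact Finset.card_nsmul_le_sum _ _ _ (fun i hi => ((hJm i).1 hi).1)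
    have e2 : ∑ i ∈ J, (Finset.univ.filter (fun p => A p = i)).card ≤
        ∑ i : Fin r, (Finset.univ.filter (fun p => A p = i)).card :=
      Finset.sum_le_sum_of_subset (Finset.subset_univ _)
    have e3 : (Finset.univ : Finset (Fin M)).card =
        ∑ i : Fin r, (Finset.univ.filter (fun p => A p = i)).card :=
      Finset.card_eq_sum_card_fiberwise (fun x _ => Finset.mem_coe.2 (Finset.mem_univ (A x)))
    rw [Finset.card_univ, Fintype.card_fin] at e3
    omega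
  have hpos : ∀ i ∈ J, (Finset.univ.filter (fun p => A p = i)).Nonempty := by
    intro i hi
    rw [← Finset.card_pos]
    have := ((hJm i).1 hi).1
    have h3 : 0 < 2 ^ u := by positivity
    omega
  choose! l h hlh using fun i (hi : i ∈ J) => interval A hA i (hpos i hi)
  have hp0 : A p₀ ∈ J := (hJm _).2 ⟨h1, h2⟩
  let g : Fin (M / 2 ^ u) → J := fun s =>
    if hs : (s : ℕ) < J.card then J.equivFin.symm ⟨s, hs⟩ else ⟨A p₀, hp0⟩
  have hg : Function.Surjective g := by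
    intro j
    refine ⟨⟨(J.equivFin j : ℕ), lt_of_lt_of_le (J.equivFin j).2 hcard⟩, ?_⟩
    simp [g]
  refine ⟨fun s => ((g s : Fin r), l (g s), h (g s)), ?_, ?_⟩
  · intro s
    have hm := (hJm _).1 (g s).2
    have hq := hlh (g s) (g s).2
    exact ⟨hm.1, hm.2, hq.1, hq.2⟩
  · intro i hi1 hi2
    obtain ⟨s, hs⟩ := hg ⟨i, (hJm i).2 ⟨hi1, hi2⟩⟩
    exact ⟨s, by simp [hs]⟩

private lemma small {M r : ℕ} (A : Fin M → Fin r) (ℓ : ℕ) :
    (Finset.univ.filter (fun p =>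
      (Finset.univ.filter (fun p' => A p' = A p)).card < ℓ)).card ≤ r * ℓ := by
  classical
  set S := Finset.univ.filter (fun p : Fin M =>
      (Finset.univ.filter (fun p' => A p' = A p)).card < ℓ) with hS
  have e3 : S.card = ∑ i : Fin r, (S.filter (fun p => A p = i)).card :=
    Finset.card_eq_sum_card_fiberwise (fun x _ => Finset.mem_coe.2 (Finset.mem_univ (A x)))
  rw [e3]
  have e4 : ∀ i ∈ (Finset.univ : Finset (Fin r)), (S.filter (fun p => A p = i)).card ≤ ℓ := by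
    intro i _
    rcases (S.filter (fun p => A p = i)).eq_empty_or_nonempty with h0 | ⟨q, hq⟩
    · rw [h0]
      simp
    · rw [Finset.mem_filter, hS, Finset.mem_filter] at hq
      obtain ⟨⟨_, h1⟩, h2⟩ := hq
      rw [h2] at h1
      refine le_trans (Finset.card_le_card ?_) h1.le
      intro x hx
      rw [Finset.mem_filter] at hx ⊢
      exact ⟨Finset.mem_univ _, hx.2⟩
  refine le_trans (Finset.sum_le_card_nsmul _ _ _ e4) ?_
  simp

open Classical in
theorem exists_data (k : ℕ) (σ : Equiv.Perm (Fin (2 ^ k))) (hσ : Mixing k σ) (r μ ℓ C0 : ℕ)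
    (A1 A2 : Fin (2 ^ k) → Fin r) (hA1 : Monotone A1) (hA2 : Monotone A2)
    (hC1 : (Finset.univ.filter (fun p =>
      μ < (Finset.univ.filter (fun p' => A1 p' = A1 p)).card)).card ≤ C0)
    (hC2 : (Finset.univ.filter (fun p =>
      μ < (Finset.univ.filter (fun p' => A2 p' = A2 p)).card)).card ≤ C0)
    (h1 : 8 * C0 ≤ 2 ^ k) (h2 : 8 * (r * ℓ) ≤ 2 ^ k) :
    ∃ u ≤ k, ∃ v ≤ k, ℓ < 2 ^ (u + 1) ∧ 2 ^ u ≤ μ ∧ ℓ < 2 ^ (v + 1) ∧ 2 ^ v ≤ μ ∧
      ∃ (d1 : Fin (2 ^ k / 2 ^ u) → Fin r × Fin (2 ^ k + 1) × Fin (2 ^ k + 1))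
        (d2 : Fin (2 ^ k / 2 ^ v) → Fin r × Fin (2 ^ k + 1) × Fin (2 ^ k + 1)),
        (∀ p i j, Cnt d1 d2 σ p i j → A1 p = i ∧ A2 (σ p) = j) ∧
        (∀ T, 2 ^ k * wt d1 d2 σ T ≤ 16 * 2 ^ (u + v) + 4 * 2 ^ k) ∧
        2 ^ k ≤ 2 * (k + 1) ^ 2 *
          (Finset.univ.filter (fun p => ∃ i j, Cnt d1 d2 σ p i j)).card := by
  classical
  have hM : 0 < 2 ^ k := by positivity
  set f1 : Fin (2 ^ k) → ℕ := fun p => (Finset.univ.filter (fun p' => A1 p' = A1 p)).card with hf1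
  set f2 : Fin (2 ^ k) → ℕ := fun p => (Finset.univ.filter (fun p' => A2 p' = A2 p)).card with hf2
  have hperm : ∀ (P : Fin (2 ^ k) → Prop) [DecidablePred P],
      (Finset.univ.filter (fun p => P (σ p))).card = (Finset.univ.filter P).card := by
    intro P _
    refine Finset.card_bij (fun p _ => σ p) ?_ ?_ ?_
    · intro p hp
      rw [Finset.mem_filter] at hp ⊢
      exact ⟨Finset.mem_univ _, hp.2⟩
    · intro p _ q _ hpq
      exact σ.injective hpq
    · intro q hq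
      rw [Finset.mem_filter] at hq
      refine ⟨σ.symm q, ?_, by simp⟩
      rw [Finset.mem_filter]
      exact ⟨Finset.mem_univ _, by simpa using hq.2⟩
  set G : Finset (Fin (2 ^ k)) := Finset.univ.filter (fun p =>
    ℓ ≤ f1 p ∧ f1 p ≤ μ ∧ ℓ ≤ f2 (σ p) ∧ f2 (σ p) ≤ μ) with hG
  have b1 := small A1 ℓ
  have b2 : (Finset.univ.filter (fun p => f2 (σ p) < ℓ)).card ≤ r * ℓ := by
    rw [hperm (fun q => f2 q < ℓ)]
    exact small A2 ℓ
  have b3 : (Finset.univ.filter (fun p => μ < f1 p)).card ≤ C0 := by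
    convert hC1
  have b4 : (Finset.univ.filter (fun p => μ < f2 (σ p))).card ≤ C0 := by
    rw [hperm (fun q => μ < f2 q)]
    convert hC2
  have b1' : (Finset.univ.filter (fun p => f1 p < ℓ)).card ≤ r * ℓ := by
    convert b1
  have hcov : (Finset.univ : Finset (Fin (2 ^ k))) ⊆ G ∪ (Finset.univ.filter (fun p => f1 p < ℓ) ∪
      Finset.univ.filter (fun p => f2 (σ p) < ℓ) ∪ (Finset.univ.filter (fun p => μ < f1 p) ∪
      Finset.univ.filter (fun p => μ < f2 (σ p)))) := by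
    intro p _
    simp only [hG, Finset.mem_union, Finset.mem_filter, Finset.mem_univ, true_and]
    omega
  have hGc : 2 ^ k ≤ 2 * G.card := by
    have c1 := Finset.card_le_card hcov
    rw [Finset.card_univ, Fintype.card_fin] at c1
    have c2 := Finset.card_union_le G (Finset.univ.filter (fun p => f1 p < ℓ) ∪
      Finset.univ.filter (fun p => f2 (σ p) < ℓ) ∪ (Finset.univ.filter (fun p => μ < f1 p) ∪
      Finset.univ.filter (fun p => μ < f2 (σ p))))
    have c3 := Finset.card_union_le (Finset.univ.filter (fun p => f1 p < ℓ) ∪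
      Finset.univ.filter (fun p => f2 (σ p) < ℓ)) (Finset.univ.filter (fun p => μ < f1 p) ∪
      Finset.univ.filter (fun p => μ < f2 (σ p)))
    have c4 := Finset.card_union_le (Finset.univ.filter (fun p => f1 p < ℓ))
      (Finset.univ.filter (fun p => f2 (σ p) < ℓ))
    have c5 := Finset.card_union_le (Finset.univ.filter (fun p => μ < f1 p))
      (Finset.univ.filter (fun p => μ < f2 (σ p)))
    omega
  have hle : ∀ (B : Fin (2 ^ k) → Fin r) (p : Fin (2 ^ k)),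
      (Finset.univ.filter (fun p' => B p' = B p)).card ≤ 2 ^ k := by
    intro B p
    refine le_trans (Finset.card_le_univ _) ?_
    rw [Fintype.card_fin]
  have hmaps : ∀ p ∈ G, (Nat.log 2 (f1 p), Nat.log 2 (f2 (σ p))) ∈
      Finset.range (k + 1) ×ˢ Finset.range (k + 1) := by
    intro p _
    have k1 : Nat.log 2 (f1 p) ≤ Nat.log 2 (2 ^ k) := Nat.log_mono_right (hle A1 p)
    have k2 : Nat.log 2 (f2 (σ p)) ≤ Nat.log 2 (2 ^ k) := Nat.log_mono_right (hle A2 (σ p))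
    rw [Nat.log_pow (by norm_num)] at k1 k2
    rw [Finset.mem_product, Finset.mem_range, Finset.mem_range]
    exact ⟨Nat.lt_succ_of_le k1, Nat.lt_succ_of_le k2⟩
  obtain ⟨⟨u, v⟩, huv, hN⟩ : ∃ y ∈ Finset.range (k + 1) ×ˢ Finset.range (k + 1),
      G.card ≤ (k + 1) ^ 2 * (G.filter (fun p =>
        (Nat.log 2 (f1 p), Nat.log 2 (f2 (σ p))) = y)).card := by
    by_contra hcon
    push Not at hcon
    have e3 : G.card = ∑ y ∈ Finset.range (k + 1) ×ˢ Finset.range (k + 1),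
        (G.filter (fun p => (Nat.log 2 (f1 p), Nat.log 2 (f2 (σ p))) = y)).card :=
      Finset.card_eq_sum_card_fiberwise (fun x hx => Finset.mem_coe.2 (hmaps x hx))
    have e4 : (k + 1) ^ 2 * G.card = ∑ y ∈ Finset.range (k + 1) ×ˢ Finset.range (k + 1),
        (k + 1) ^ 2 * (G.filter (fun p =>
          (Nat.log 2 (f1 p), Nat.log 2 (f2 (σ p))) = y)).card := by
      rw [← Finset.mul_sum, ← e3]
    have e5 : ∑ y ∈ Finset.range (k + 1) ×ˢ Finset.range (k + 1),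
        (k + 1) ^ 2 * (G.filter (fun p =>
          (Nat.log 2 (f1 p), Nat.log 2 (f2 (σ p))) = y)).card <
        ∑ y ∈ Finset.range (k + 1) ×ˢ Finset.range (k + 1), G.card := by
      refine Finset.sum_lt_sum_of_nonempty ⟨(0, 0), by simp⟩ (fun y hy => hcon y hy)
    rw [← e4, Finset.sum_const, Finset.card_product, Finset.card_range, smul_eq_mul, sq] at e5
    exact lt_irrefl _ e5
  set H := G.filter (fun p => (Nat.log 2 (f1 p), Nat.log 2 (f2 (σ p))) = (u, v)) with hH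
  have hHpos : 0 < H.card := by
    rcases Nat.eq_zero_or_pos H.card with h0 | h0
    · rw [h0] at hN
      omega
    · exact h0
  obtain ⟨p₀, hp₀⟩ := Finset.card_pos.1 hHpos
  have hHm : ∀ p ∈ H, (ℓ ≤ f1 p ∧ f1 p ≤ μ ∧ ℓ ≤ f2 (σ p) ∧ f2 (σ p) ≤ μ) ∧
      (2 ^ u ≤ f1 p ∧ f1 p < 2 ^ (u + 1)) ∧ (2 ^ v ≤ f2 (σ p) ∧ f2 (σ p) < 2 ^ (v + 1)) := by
    intro p hp
    rw [hH, Finset.mem_filter, hG, Finset.mem_filter, Prod.mk.injEq] at hp
    obtain ⟨⟨_, h3⟩, h4, h5⟩ := hp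
    have hne1 : f1 p ≠ 0 := by
      have : 0 < f1 p := Finset.card_pos.2 ⟨p, by simp⟩
      omega
    have hne2 : f2 (σ p) ≠ 0 := by
      have : 0 < f2 (σ p) := Finset.card_pos.2 ⟨σ p, by simp⟩
      omega
    refine ⟨h3, ⟨?_, ?_⟩, ⟨?_, ?_⟩⟩
    · rw [← h4]
      exact Nat.pow_log_le_self 2 hne1
    · rw [← h4]
      exact Nat.lt_pow_succ_log_self (by norm_num) _
    · rw [← h5]
      exact Nat.pow_log_le_self 2 hne2
    · rw [← h5]
      exact Nat.lt_pow_succ_log_self (by norm_num) _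
  obtain ⟨⟨g1, g2, g3, g4⟩, ⟨g5, g6⟩, ⟨g7, g8⟩⟩ := hHm p₀ hp₀
  rw [Finset.mem_product, Finset.mem_range, Finset.mem_range] at huv
  obtain ⟨d1, hd1, hd1'⟩ := enum A1 hA1 u p₀ g5 g6
  obtain ⟨d2, hd2, hd2'⟩ := enum A2 hA2 v (σ p₀) g7 g8
  have hc1 : ∀ p i j, Cnt d1 d2 σ p i j → A1 p = i ∧ A2 (σ p) = j := by
    rintro p i j ⟨⟨s, hs1, hs2, hs3⟩, ⟨t, ht1, ht2, ht3⟩⟩
    constructor
    · rw [← hs1]
      exact ((hd1 s).2.2.1 p).2 ⟨hs2, hs3⟩
    · rw [← ht1]
      exact ((hd2 t).2.2.1 (σ p)).2 ⟨ht2, ht3⟩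
  refine ⟨u, by omega, v, by omega, by omega, by omega, by omega, by omega, d1, d2, hc1, ?_, ?_⟩
  · rintro ⟨i, j⟩
    rw [wt]
    rcases (Finset.univ.filter (fun p => Cnt d1 d2 σ p i j)).eq_empty_or_nonempty with h0 | hne
    · have : (Finset.univ.filter (fun p : Fin (2 ^ k) =>
          Cnt d1 d2 σ p (i, j).1 (i, j).2)).card = 0 := by
        rw [Finset.card_eq_zero]
        convert h0
      rw [this]
      omega
    · obtain ⟨q, hq⟩ := hne
      rw [Finset.mem_filter] at hq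
      obtain ⟨_, ⟨s, hs1, hs2, hs3⟩, ⟨t, ht1, ht2, ht3⟩⟩ := hq
      have hmix := hσ (d1 s).2.1 (d1 s).2.2 (d2 t).2.1 (d2 t).2.2
      have hsub : (Finset.univ.filter (fun p : Fin (2 ^ k) =>
          Cnt d1 d2 σ p (i, j).1 (i, j).2)).card ≤
          (Finset.univ.filter (fun p : Fin (2 ^ k) =>
            ((d1 s).2.1 : ℕ) ≤ (p : ℕ) ∧ (p : ℕ) < ((d1 s).2.2 : ℕ) ∧
            ((d2 t).2.1 : ℕ) ≤ (σ p : ℕ) ∧ (σ p : ℕ) < ((d2 t).2.2 : ℕ))).card := by
        refine Finset.card_le_card ?_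
        intro p hp
        rw [Finset.mem_filter] at hp ⊢
        obtain ⟨e1, e2⟩ := hc1 p i j hp.2
        have e3 := ((hd1 s).2.2.1 p).1 (by rw [hs1, e1])
        have e4 := ((hd2 t).2.2.1 (σ p)).1 (by rw [ht1, e2])
        exact ⟨Finset.mem_univ _, e3.1, e3.2, e4.1, e4.2⟩
      have e5 := (hd1 s).2.2.2
      have e6 := (hd1 s).2.1
      have e7 := (hd2 t).2.2.2
      have e8 := (hd2 t).2.1
      rw [← e5] at e6
      rw [← e7] at e8
      have e9 : 4 * (((d1 s).2.2 : ℕ) - ((d1 s).2.1 : ℕ)) *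
          (((d2 t).2.2 : ℕ) - ((d2 t).2.1 : ℕ)) ≤ 16 * 2 ^ (u + v) := by
        calc 4 * (((d1 s).2.2 : ℕ) - ((d1 s).2.1 : ℕ)) *
            (((d2 t).2.2 : ℕ) - ((d2 t).2.1 : ℕ)) ≤ 4 * 2 ^ (u + 1) * 2 ^ (v + 1) :=
              Nat.mul_le_mul (Nat.mul_le_mul_left _ e6.le) e8.le
          _ = 16 * 2 ^ (u + v) := by ring
      calc _ ≤ 2 ^ k * (Finset.univ.filter (fun p : Fin (2 ^ k) =>
            ((d1 s).2.1 : ℕ) ≤ (p : ℕ) ∧ (p : ℕ) < ((d1 s).2.2 : ℕ) ∧
            ((d2 t).2.1 : ℕ) ≤ (σ p : ℕ) ∧ (σ p : ℕ) < ((d2 t).2.2 : ℕ))).card :=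
              Nat.mul_le_mul_left _ hsub
        _ ≤ _ := hmix
        _ ≤ _ := by omega
  · have hHsub : H.card ≤ (Finset.univ.filter (fun p => ∃ i j, Cnt d1 d2 σ p i j)).card := by
      refine Finset.card_le_card ?_
      intro p hp
      obtain ⟨_, ⟨q1, q2⟩, ⟨q3, q4⟩⟩ := hHm p hp
      obtain ⟨s, hs⟩ := hd1' (A1 p) q1 q2
      obtain ⟨t, ht⟩ := hd2' (A2 (σ p)) q3 q4
      rw [Finset.mem_filter]
      refine ⟨Finset.mem_univ _, A1 p, A2 (σ p), ⟨s, hs, ?_⟩, ⟨t, ht, ?_⟩⟩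
      · exact ((hd1 s).2.2.1 p).1 hs.symm
      · exact ((hd2 t).2.2.1 (σ p)).1 ht.symm
    calc 2 ^ k ≤ 2 * G.card := hGc
      _ ≤ 2 * ((k + 1) ^ 2 * H.card) := Nat.mul_le_mul_left _ hN
      _ ≤ 2 * ((k + 1) ^ 2 *
          (Finset.univ.filter (fun p => ∃ i j, Cnt d1 d2 σ p i j)).card) :=
            Nat.mul_le_mul_left _ (Nat.mul_le_mul_left _ hHsub)
      _ = _ := by ring

end Pool.Agent.UCR
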