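import Pool.Agent.UCR.Stmt

/-!
# UCR Rank: ranks of the edges of the host

PROOF. All elementary. `rank` is the position in the order: it is strictly monotone with respect
to `f` on edges (`f e < f e'` and `e` an edge: `{y : f y < f e}` is properly contained in
`{y : f y < f e'}`, which contains `e`), `f` is injective. `dist`: for `f e ≤ f e'` the set in
`dist` is the difference of the two sets of `rank`. Fine windows: the ranks of the edges with
`rk e / L = g` are distinct and in `[g L, g L + L)`. Coarse windows: if `rk e / L = g`, then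
`rk e / Lc` is `g L / Lc` or `g L / Lc + 1`, as `L ≤ Lc`.
-/

set_option autoImplicit false

namespace Pool.Agent.UCR

private theorem mem_edges {N : ℕ} {G : SimpleGraph (Fin N)} {e : Sym2 (Fin N)} :
    e ∈ edges G ↔ e ∈ G.edgeSet := by
  unfold edges; simp

private theorem rank_le {N : ℕ} (G : SimpleGraph (Fin N)) (f : Sym2 (Fin N) → ℕ)
    (e e' : Sym2 (Fin N)) (h : f e ≤ f e') : rank G f e ≤ rank G f e' := by
  unfold rank
  exact Set.ncard_le_ncard (fun y hy => ⟨hy.1, lt_of_lt_of_le hy.2 h⟩) (Set.toFinite _)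

private theorem rank_lt {N : ℕ} (G : SimpleGraph (Fin N)) (f : Sym2 (Fin N) → ℕ)
    (e e' : Sym2 (Fin N)) (he : e ∈ edges G) (h : f e < f e') : rank G f e < rank G f e' := by
  unfold rank
  have h1 : {y ∈ G.edgeSet | f y < f e} ⊆ {y ∈ G.edgeSet | f y < f e'} :=
    fun y hy => ⟨hy.1, lt_trans hy.2 h⟩
  refine Set.ncard_lt_ncard ?_ (Set.toFinite _)
  rw [Set.ssubset_iff_of_subset h1]
  exact ⟨e, ⟨mem_edges.1 he, h⟩, fun hy => lt_irrefl _ hy.2⟩

theorem rank_injOn {N : ℕ} (G : SimpleGraph (Fin N)) (f : Sym2 (Fin N) → ℕ)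
    (hf : Function.Injective f) : Set.InjOn (rank G f) (edges G : Set (Sym2 (Fin N))) := by
  intro e he e' he' h
  have he1 : e ∈ edges G := he
  have he2 : e' ∈ edges G := he'
  rcases lt_trichotomy (f e) (f e') with h1 | h1 | h1
  · have := rank_lt G f e e' he1 h1
    omega
  · exact hf h1
  · have := rank_lt G f e' e he2 h1
    omega

theorem rank_lt_card {N : ℕ} (G : SimpleGraph (Fin N)) (f : Sym2 (Fin N) → ℕ)
    (e : Sym2 (Fin N)) (he : e ∈ edges G) : rank G f e < (edges G).card := by
  have h1 : (edges G).card = G.edgeSet.ncard := by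
    unfold edges
    rw [Set.ncard_eq_toFinset_card _ G.edgeSet.toFinite]
  rw [h1]
  unfold rank
  have h2 : {y ∈ G.edgeSet | f y < f e} ⊆ G.edgeSet := fun y hy => hy.1
  refine Set.ncard_lt_ncard ?_ (Set.toFinite _)
  rw [Set.ssubset_iff_of_subset h2]
  exact ⟨e, mem_edges.1 he, fun hy => lt_irrefl _ hy.2⟩

theorem rank_lt_rank {N : ℕ} (G : SimpleGraph (Fin N)) (f : Sym2 (Fin N) → ℕ)
    (hf : Function.Injective f) (e e' : Sym2 (Fin N)) (he : e ∈ edges G) (he' : e' ∈ edges G) :
    rank G f e < rank G f e' ↔ f e < f e' := by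
  constructor
  · intro h
    by_contra h1
    have := rank_le G f e' e (not_lt.1 h1)
    omega
  · exact rank_lt G f e e' he

private theorem dist_of_le {N : ℕ} (G : SimpleGraph (Fin N)) (f : Sym2 (Fin N) → ℕ)
    (e e' : Sym2 (Fin N)) (h : f e ≤ f e') :
    dist G f e e' = rank G f e' - rank G f e := by
  unfold dist rank
  have h1 : {x ∈ G.edgeSet | (f e ≤ f x ∧ f x < f e') ∨ (f e' ≤ f x ∧ f x < f e)} =
      {y ∈ G.edgeSet | f y < f e'} \ {y ∈ G.edgeSet | f y < f e} := by
    ext x
    simp only [Set.mem_ofPred_eq, Set.mem_sdiff]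
    constructor
    · rintro ⟨hx, h2 | h2⟩
      · exact ⟨⟨hx, h2.2⟩, fun h3 => by omega⟩
      · omega
    · rintro ⟨⟨hx, h2⟩, h3⟩
      refine ⟨hx, Or.inl ⟨?_, h2⟩⟩
      by_contra h4
      exact h3 ⟨hx, by omega⟩
  rw [h1]
  exact Set.ncard_sdiff (fun y hy => ⟨hy.1, lt_of_lt_of_le hy.2 h⟩) (Set.toFinite _)

theorem dist_eq {N : ℕ} (G : SimpleGraph (Fin N)) (f : Sym2 (Fin N) → ℕ)
    (hf : Function.Injective f) (e e' : Sym2 (Fin N)) (he : e ∈ edges G) (he' : e' ∈ edges G) :
    dist G f e e' = (rank G f e' - rank G f e) + (rank G f e - rank G f e') := by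
  rcases le_total (f e) (f e') with h | h
  · have h1 := dist_of_le G f e e' h
    have h2 := rank_le G f e e' h
    omega
  · have h1 := dist_of_le G f e' e h
    have h2 := rank_le G f e' e h
    have h3 : dist G f e e' = dist G f e' e := by
      unfold dist
      congr 1
      ext x
      simp only [Set.mem_ofPred_eq]
      tauto
    omega

theorem fine_card {V : Type} [DecidableEq V] (E : Finset (Sym2 V)) (rk : Sym2 V → ℕ)
    (hinj : Set.InjOn rk (E : Set (Sym2 V))) (L : ℕ) (hL : 0 < L) (g : ℕ) :
    (E.filter (fun e => rk e / L = g)).card ≤ L := by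
  have h1 : ((E.filter (fun e => rk e / L = g)).image rk).card =
      (E.filter (fun e => rk e / L = g)).card := by
    refine Finset.card_image_of_injOn (hinj.mono ?_)
    intro e he
    exact (Finset.mem_filter.1 (Finset.mem_coe.1 he)).1
  rw [← h1]
  calc ((E.filter (fun e => rk e / L = g)).image rk).card ≤
      (Finset.Ico (g * L) (g * L + L)).card := by
        refine Finset.card_le_card ?_
        intro r hr
        obtain ⟨e, he, rfl⟩ := Finset.mem_image.1 hr
        have h2 := (Finset.mem_filter.1 he).2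
        rw [Finset.mem_Ico]
        have h3 := Nat.div_add_mod (rk e) L
        have h4 := Nat.mod_lt (rk e) hL
        rw [h2] at h3
        have h5 : L * g = g * L := mul_comm _ _
        omega
    _ = L := by rw [Nat.card_Ico]; omega

theorem coarse_card {V : Type} [DecidableEq V] (E : Finset (Sym2 V)) (rk : Sym2 V → ℕ)
    (L Lc : ℕ) (hL : 0 < L) (hLc : L ≤ Lc) (g : ℕ) :
    ((E.filter (fun e => rk e / L = g)).image (fun e => rk e / Lc)).card ≤ 2 := by
  have hc : 0 < Lc := lt_of_lt_of_le hL hLc
  calc ((E.filter (fun e => rk e / L = g)).image (fun e => rk e / Lc)).card ≤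
      (Finset.Icc (g * L / Lc) (g * L / Lc + 1)).card := by
        refine Finset.card_le_card ?_
        intro r hr
        obtain ⟨e, he, rfl⟩ := Finset.mem_image.1 hr
        have h2 := (Finset.mem_filter.1 he).2
        rw [Finset.mem_Icc]
        have h3 := Nat.div_add_mod (rk e) L
        have h4 := Nat.mod_lt (rk e) hL
        rw [h2] at h3
        have h5 : L * g = g * L := mul_comm _ _
        constructor
        · exact Nat.div_le_div_right (by omega)
        · calc rk e / Lc ≤ (g * L + Lc) / Lc := Nat.div_le_div_right (by omega)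
            _ = g * L / Lc + 1 := Nat.add_div_right _ hc
    _ = 2 := by rw [Nat.card_Icc]; omega

end Pool.Agent.UCR
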