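import Pool.Agent.UCR.RedCount

/-!
# UCR RedUnion: no red clique with edges in different windows

PROOF. Let `f` be in the set and `y` as there. `t ≥ 2`, so every `y a` is in the set `V'` of the
vertices of the pairs in `E`, `|V'| ≤ 2 |E| ≤ 2 m`; so there are at most `(2 m) ^ t` maps `y`
(maps `Fin t → V'`). For a fixed `y` apply `red_count` with `I = {q : Fin t × Fin t // q.1 < q.2}`,
`card I = 2 h`, `Lab = Fin r × Fin r`, `S q = {T : s(y q.1, y q.2) ∈ R (T.1, T.2)}` (at most `s`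
elements by `hR1`), and each `T` is in `S q` for at most two `q` by `hR2`, as the windows
`W s(y q.1, y q.2)` are pairwise distinct. So
`4 * #set * Q ^ h ≤ 4 (2 m) ^ t 2 ^ (2 h) s ^ h Q ^ (r ^ 2) ≤ Q ^ h Q ^ (r ^ 2)`; cancel
`Q ^ h > 0`.
-/

set_option autoImplicit false

namespace Pool.Agent.UCR

private lemma card_pairs (t h : ℕ) (hh : 4 * h = t * (t - 1)) :
    Fintype.card {q : Fin t × Fin t // q.1 < q.2} = 2 * h := by
  classical
  rw [Fintype.card_subtype]
  set A := Finset.univ.filter (fun q : Fin t × Fin t => q.1 < q.2) with hA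
  set B := Finset.univ.filter (fun q : Fin t × Fin t => q.2 < q.1) with hB
  set D := Finset.univ.filter (fun q : Fin t × Fin t => q.1 = q.2) with hD
  have hAB : A.card = B.card := by
    refine Finset.card_bij (fun q _ => (q.2, q.1)) ?_ ?_ ?_
    · intro q hq
      exact Finset.mem_filter.2 ⟨Finset.mem_univ _, (Finset.mem_filter.1 hq).2⟩
    · intro q _ q' _ h
      have := Prod.ext_iff.1 h
      exact Prod.ext this.2 this.1
    · intro q hq
      exact ⟨(q.2, q.1), Finset.mem_filter.2 ⟨Finset.mem_univ _, (Finset.mem_filter.1 hq).2⟩, rfl⟩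
  have hDc : D.card = t := by
    have : D = Finset.univ.image (fun a : Fin t => (a, a)) := by
      ext ⟨a, b⟩
      simp [hD]
    rw [this, Finset.card_image_of_injective _ (fun a b h => (Prod.ext_iff.1 h).1)]
    simp
  have hdis1 : Disjoint A B := by
    rw [Finset.disjoint_left]
    intro q hq hq'
    exact absurd ((Finset.mem_filter.1 hq).2) (not_lt.2 (le_of_lt (Finset.mem_filter.1 hq').2))
  have hdis2 : Disjoint (A ∪ B) D := by
    rw [Finset.disjoint_left]
    intro q hq hq'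
    have e := (Finset.mem_filter.1 hq').2
    rcases Finset.mem_union.1 hq with h1 | h1
    · exact absurd ((Finset.mem_filter.1 h1).2) (by rw [e]; exact lt_irrefl _)
    · exact absurd ((Finset.mem_filter.1 h1).2) (by rw [e]; exact lt_irrefl _)
  have hun : (A ∪ B) ∪ D = Finset.univ := by
    ext q
    refine ⟨fun _ => Finset.mem_univ _, fun _ => ?_⟩
    rcases lt_trichotomy q.1 q.2 with h1 | h1 | h1
    · exact Finset.mem_union_left _ (Finset.mem_union_left _
        (Finset.mem_filter.2 ⟨Finset.mem_univ _, h1⟩))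
    · exact Finset.mem_union_right _ (Finset.mem_filter.2 ⟨Finset.mem_univ _, h1⟩)
    · exact Finset.mem_union_left _ (Finset.mem_union_right _
        (Finset.mem_filter.2 ⟨Finset.mem_univ _, h1⟩))
  have htot : A.card + B.card + D.card = t * t := by
    rw [← Finset.card_union_of_disjoint hdis1, ← Finset.card_union_of_disjoint hdis2, hun]
    simp
  rcases t with _ | t
  · simp at hh
    subst hh
    omega
  · simp only [Nat.add_sub_cancel] at hh
    have : (t + 1) * (t + 1) = (t + 1) * t + (t + 1) := by ring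
    omega

open Classical in
private lemma fixed_y {V : Type} [DecidableEq V] (W : Sym2 V → ℕ)
    (r Q s h t : ℕ) (hh : 4 * h = t * (t - 1))
    (R : ℕ × ℕ → Finset (Sym2 V))
    (hR1 : ∀ e : Sym2 V, ∃ S : Finset (ℕ × ℕ), S.card ≤ s ∧ ∀ T, e ∈ R T → T ∈ S)
    (hR2 : ∀ T, ∀ e ∈ R T, W e = T.1 ∨ W e = T.2)
    (y : Fin t → V)
    (hy : ∀ a b a' b' : Fin t, a < b → a' < b' → W s(y a, y b) = W s(y a', y b') →
          a = a' ∧ b = b') :
    (Finset.univ.filter (fun f : Fin r × Fin r → Fin Q =>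
        ∀ a b : Fin t, a < b → ∃ T : Fin r × Fin r, (f T : ℕ) = 0 ∧
          s(y a, y b) ∈ R ((T.1 : ℕ), (T.2 : ℕ)))).card * Q ^ h
      ≤ 2 ^ (2 * h) * s ^ h * Q ^ (r ^ 2) := by
  have key := red_count (Lab := Fin r × Fin r) (I := {q : Fin t × Fin t // q.1 < q.2}) Q s h
    (fun q => Finset.univ.filter (fun T : Fin r × Fin r =>
      s(y q.1.1, y q.1.2) ∈ R ((T.1 : ℕ), (T.2 : ℕ)))) ?_ ?_ ?_
  · rw [card_pairs t h hh] at key
    have hcard : Fintype.card (Fin r × Fin r) = r ^ 2 := by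
      rw [Fintype.card_prod, Fintype.card_fin]
      ring
    rw [hcard] at key
    refine le_trans (Nat.mul_le_mul_right _ (Finset.card_le_card_of_injOn (fun f => f) ?_
      (fun _ _ _ _ h => h))) key
    intro f hf
    have hf' := (Finset.mem_filter.1 (Finset.mem_coe.1 hf)).2
    simp only [Finset.coe_filter, Finset.mem_univ, true_and, Set.mem_ofPred_eq,
      Finset.mem_filter]
    rintro ⟨⟨a, b⟩, hab⟩
    obtain ⟨T, hT0, hT⟩ := hf' a b hab
    exact ⟨T, hT, hT0⟩
  · rintro ⟨⟨a, b⟩, hab⟩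
    obtain ⟨S, hS, hS'⟩ := hR1 s(y a, y b)
    refine le_trans ?_ hS
    refine Finset.card_le_card_of_injOn (fun T : Fin r × Fin r => ((T.1 : ℕ), (T.2 : ℕ))) ?_ ?_
    · intro T hT
      exact hS' _ (Finset.mem_filter.1 (Finset.mem_coe.1 hT)).2
    · intro T _ T' _ hTT
      have := Prod.ext_iff.1 hTT
      exact Prod.ext (Fin.ext this.1) (Fin.ext this.2)
  · intro T
    have h2 : ({(T.1 : ℕ), (T.2 : ℕ)} : Finset ℕ).card ≤ 2 := Finset.card_le_two
    refine le_trans (Finset.card_le_card_of_injOn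
      (fun q : {q : Fin t × Fin t // q.1 < q.2} => W s(y q.1.1, y q.1.2)) ?_ ?_) h2
    · intro q hq
      have hq' : s(y q.1.1, y q.1.2) ∈ R ((T.1 : ℕ), (T.2 : ℕ)) := by
        simpa only [Finset.coe_filter, Finset.mem_univ, true_and, Set.mem_ofPred_eq,
          Finset.mem_filter] using hq
      have := hR2 _ _ hq'
      simpa using this
    · intro q _ q' _ hqq
      have := hy q.1.1 q.1.2 q'.1.1 q'.1.2 q.2 q'.2 hqq
      exact Subtype.ext (Prod.ext this.1 this.2)
  · exact le_of_eq (card_pairs t h hh).symm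

open Classical in
theorem red_union {V : Type} [DecidableEq V] (E : Finset (Sym2 V)) (W : Sym2 V → ℕ)
    (r Q s h t m : ℕ) (ht : 2 ≤ t) (hh : 4 * h = t * (t - 1)) (hm : E.card ≤ m) (hQ : 0 < Q)
    (R : ℕ × ℕ → Finset (Sym2 V))
    (hR1 : ∀ e : Sym2 V, ∃ S : Finset (ℕ × ℕ), S.card ≤ s ∧ ∀ T, e ∈ R T → T ∈ S)
    (hR2 : ∀ T, ∀ e ∈ R T, e ∈ E ∧ (W e = T.1 ∨ W e = T.2))
    (hnum : 4 * (2 * m) ^ t * 2 ^ (2 * h) * s ^ h ≤ Q ^ h) :
    4 * (Finset.univ.filter (fun f : Fin r × Fin r → Fin Q =>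
      ∃ y : Fin t → V, (∀ a b : Fin t, a < b → s(y a, y b) ∈ E) ∧
        (∀ a b a' b' : Fin t, a < b → a' < b' → W s(y a, y b) = W s(y a', y b') →
          a = a' ∧ b = b') ∧
        ∀ a b : Fin t, a < b → ∃ T : Fin r × Fin r, (f T : ℕ) = 0 ∧
          s(y a, y b) ∈ R ((T.1 : ℕ), (T.2 : ℕ)))).card
      ≤ Q ^ (r ^ 2) := by
  set V' : Finset V := E.biUnion (fun e => e.toFinset) with hV'
  have hVc : V'.card ≤ 2 * m := by
    calc V'.card ≤ E.card * 2 := Finset.card_biUnion_le_card_mul _ _ _ (fun e _ => by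
            rw [Sym2.card_toFinset]
            split_ifs <;> omega)
      _ ≤ 2 * m := by omega
  set Y : Finset (Fin t → V) := (Fintype.piFinset (fun _ : Fin t => V')).filter
    (fun y => ∀ a b a' b' : Fin t, a < b → a' < b' → W s(y a, y b) = W s(y a', y b') →
          a = a' ∧ b = b') with hY
  have hYc : Y.card ≤ (2 * m) ^ t := by
    refine le_trans (Finset.card_filter_le _ _) ?_
    rw [Fintype.card_piFinset, Finset.prod_const, Finset.card_univ, Fintype.card_fin]
    exact Nat.pow_le_pow_left hVc t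
  set N : ℕ := (Finset.univ.filter (fun f : Fin r × Fin r → Fin Q =>
      ∃ y : Fin t → V, (∀ a b : Fin t, a < b → s(y a, y b) ∈ E) ∧
        (∀ a b a' b' : Fin t, a < b → a' < b' → W s(y a, y b) = W s(y a', y b') →
          a = a' ∧ b = b') ∧
        ∀ a b : Fin t, a < b → ∃ T : Fin r × Fin r, (f T : ℕ) = 0 ∧
          s(y a, y b) ∈ R ((T.1 : ℕ), (T.2 : ℕ)))).card with hN
  have hle : N * Q ^ h ≤ (2 * m) ^ t * (2 ^ (2 * h) * s ^ h * Q ^ (r ^ 2)) := by
    have h1 : N ≤ ∑ y ∈ Y, (Finset.univ.filter (fun f : Fin r × Fin r → Fin Q =>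
        ∀ a b : Fin t, a < b → ∃ T : Fin r × Fin r, (f T : ℕ) = 0 ∧
          s(y a, y b) ∈ R ((T.1 : ℕ), (T.2 : ℕ)))).card := by
      refine le_trans (Finset.card_le_card ?_) Finset.card_biUnion_le
      intro f hf
      obtain ⟨y, hyE, hyW, hyR⟩ := (Finset.mem_filter.1 hf).2
      refine Finset.mem_biUnion.2 ⟨y, Finset.mem_filter.2 ⟨Fintype.mem_piFinset.2 ?_, hyW⟩,
        Finset.mem_filter.2 ⟨Finset.mem_univ _, hyR⟩⟩
      intro a
      by_cases ha : (a : ℕ) = 0
      · have hab : a < (⟨1, by omega⟩ : Fin t) := by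
          rw [Fin.lt_def]
          simp [ha]
        exact Finset.mem_biUnion.2 ⟨_, hyE _ _ hab, by simp⟩
      · have hab : (⟨0, by omega⟩ : Fin t) < a := by
          rw [Fin.lt_def]
          exact Nat.pos_of_ne_zero ha
        exact Finset.mem_biUnion.2 ⟨_, hyE _ _ hab, by simp⟩
    calc N * Q ^ h ≤ (∑ y ∈ Y, (Finset.univ.filter (fun f : Fin r × Fin r → Fin Q =>
        ∀ a b : Fin t, a < b → ∃ T : Fin r × Fin r, (f T : ℕ) = 0 ∧
          s(y a, y b) ∈ R ((T.1 : ℕ), (T.2 : ℕ)))).card) * Q ^ h := Nat.mul_le_mul_right _ h1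
      _ = ∑ y ∈ Y, (Finset.univ.filter (fun f : Fin r × Fin r → Fin Q =>
        ∀ a b : Fin t, a < b → ∃ T : Fin r × Fin r, (f T : ℕ) = 0 ∧
          s(y a, y b) ∈ R ((T.1 : ℕ), (T.2 : ℕ)))).card * Q ^ h := Finset.sum_mul _ _ _
      _ ≤ ∑ _y ∈ Y, 2 ^ (2 * h) * s ^ h * Q ^ (r ^ 2) := by
          refine Finset.sum_le_sum (fun y hy => ?_)
          exact fixed_y W r Q s h t hh R hR1 (fun T e he => (hR2 T e he).2) y
            (Finset.mem_filter.1 hy).2
      _ = Y.card * (2 ^ (2 * h) * s ^ h * Q ^ (r ^ 2)) := by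
          rw [Finset.sum_const, smul_eq_mul]
      _ ≤ _ := Nat.mul_le_mul_right _ hYc
  have hQh : 0 < Q ^ h := Nat.pow_pos hQ
  refine Nat.le_of_mul_le_mul_left ?_ hQh
  calc Q ^ h * (4 * N) = 4 * (N * Q ^ h) := by ring
    _ ≤ 4 * ((2 * m) ^ t * (2 ^ (2 * h) * s ^ h * Q ^ (r ^ 2))) := Nat.mul_le_mul_left _ hle
    _ = (4 * (2 * m) ^ t * 2 ^ (2 * h) * s ^ h) * Q ^ (r ^ 2) := by ring
    _ ≤ Q ^ h * Q ^ (r ^ 2) := Nat.mul_le_mul_right _ hnum

end Pool.Agent.UCR
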