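import Pool.Agent.UCR.Defs

/-!
# UCR Rev: the bit reversal permutation is mixing

PROOF. Construct by induction on `k` a permutation `σ_k` of `Fin (2 ^ k)` (or an injective map, or
a function on naturals) such that for all `u ≤ k` the map `p ↦ (p / 2 ^ u, σ p / 2 ^ (k - u))` is
injective: for `p = 2 p' + b < 2 ^ (k + 1)`, `b < 2`, put `σ_(k+1) p = b 2 ^ k + σ_k p'`. Then for
`u ≥ 1` we have `p / 2 ^ u = p' / 2 ^ (u - 1)` and
`σ_(k+1) p / 2 ^ (k + 1 - u) = b 2 ^ (u - 1) + σ_k p' / 2 ^ (k - (u - 1))` with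
`σ_k p' / 2 ^ (k - (u - 1)) < 2 ^ (u - 1)`; for `u = 0` the first coordinate is `p`.
`Mixing`: let `A = h - l`, `B = h' - l'`. If `A = 0` or `B = 0` the set is empty. If `A ≥ 2 ^ k`
then the set has at most `B` elements (`σ` is injective), fine. Otherwise let
`A ≤ 2 ^ u < 2 A`, `u ≤ k` (`Nat.clog 2 A`). The points of the interval `[l, h)` have at most 2
values of `p / 2 ^ u`, those of `[l', h')` at most `B / 2 ^ (k - u) + 2` values of
`q / 2 ^ (k - u)`. So the number is at most `2 (B / 2 ^ (k - u) + 2)`, and `2 ^ k` times it is at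
most `2 B 2 ^ u + 4 * 2 ^ k ≤ 4 A B + 4 * 2 ^ k`.
-/

set_option autoImplicit false

namespace Pool.Agent.UCR

/-- bit reversal of the lowest `k` bits -/
private def rev : ℕ → ℕ → ℕ
  | 0, _ => 0
  | k + 1, p => (p % 2) * 2 ^ k + rev k (p / 2)

private theorem rev_lt (k : ℕ) : ∀ p : ℕ, rev k p < 2 ^ k := by
  induction k with
  | zero => intro p; simp [rev]
  | succ k ih =>
    intro p
    have h1 := ih (p / 2)
    have h2 : p % 2 < 2 := Nat.mod_lt _ (by norm_num)
    have h3 : (p % 2) * 2 ^ k ≤ 1 * 2 ^ k := Nat.mul_le_mul_right _ (by omega)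
    have h4 : (2 : ℕ) ^ (k + 1) = 2 ^ k + 2 ^ k := by ring
    show (p % 2) * 2 ^ k + rev k (p / 2) < 2 ^ (k + 1)
    omega

private theorem rev_sep (k : ℕ) : ∀ u p q : ℕ, u ≤ k → p < 2 ^ k → q < 2 ^ k →
    p / 2 ^ u = q / 2 ^ u → rev k p / 2 ^ (k - u) = rev k q / 2 ^ (k - u) → p = q := by
  induction k with
  | zero => intro u p q _ hp hq _ _; simp at hp hq; omega
  | succ k ih =>
    intro u p q hu hp hq h1 h2
    rcases u with _ | u
    · simpa using h1
    · have hu' : u ≤ k := by omega
      have e1 : ∀ p : ℕ, p / 2 ^ (u + 1) = p / 2 / 2 ^ u := by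
        intro p
        rw [Nat.div_div_eq_div_mul, pow_succ, mul_comm]
      have e2 : k + 1 - (u + 1) = k - u := by omega
      have hk : (2 : ℕ) ^ k = 2 ^ u * 2 ^ (k - u) := by
        rw [← pow_add]; congr 1; omega
      have hpos : 0 < 2 ^ (k - u) := by positivity
      have e3 : ∀ p : ℕ, rev (k + 1) p / 2 ^ (k - u) =
          (p % 2) * 2 ^ u + rev k (p / 2) / 2 ^ (k - u) := by
        intro p
        show ((p % 2) * 2 ^ k + rev k (p / 2)) / 2 ^ (k - u) = _
        rw [hk, ← mul_assoc, mul_comm ((p % 2) * 2 ^ u) (2 ^ (k - u)),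
          Nat.mul_add_div hpos]
      have e4 : ∀ p : ℕ, rev k (p / 2) / 2 ^ (k - u) < 2 ^ u := by
        intro p
        rw [Nat.div_lt_iff_lt_mul hpos, ← hk]
        exact rev_lt k _
      rw [e1, e1] at h1
      rw [e2, e3, e3] at h2
      have hp4 := e4 p
      have hq4 := e4 q
      have hb : ∀ b c x y : ℕ, b < 2 → c < 2 → x < 2 ^ u → y < 2 ^ u →
          b * 2 ^ u + x = c * 2 ^ u + y → b = c ∧ x = y := by
        intro b c x y hb hc hx hy h
        have hb' : b = 0 ∨ b = 1 := by omega
        have hc' : c = 0 ∨ c = 1 := by omega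
        rcases hb' with rfl | rfl <;> rcases hc' with rfl | rfl <;>
          simp only [zero_mul, one_mul, zero_add] at h <;> constructor <;> omega
      have hh := hb _ _ _ _ (Nat.mod_lt p (by norm_num)) (Nat.mod_lt q (by norm_num)) hp4 hq4 h2
      have h5 : p / 2 = q / 2 := by
        refine ih u _ _ hu' ?_ ?_ h1 hh.2
        · rw [pow_succ] at hp; omega
        · rw [pow_succ] at hq; omega
      have h6 := hh.1
      omega

theorem exists_mixing (k : ℕ) : ∃ σ : Equiv.Perm (Fin (2 ^ k)), Mixing k σ := by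
  classical
  let f : Fin (2 ^ k) → Fin (2 ^ k) := fun p => ⟨rev k p, rev_lt k p⟩
  have hf : Function.Injective f := by
    intro p q hpq
    have h1 : rev k p = rev k q := congrArg Fin.val hpq
    apply Fin.ext
    refine rev_sep k k _ _ le_rfl p.2 q.2 ?_ ?_
    · rw [Nat.div_eq_of_lt p.2, Nat.div_eq_of_lt q.2]
    · rw [h1]
  have hbij : Function.Bijective f := Finite.injective_iff_bijective.mp hf
  refine ⟨Equiv.ofBijective f hbij, ?_⟩
  intro l h l' h'
  set S := Finset.univ.filter (fun p : Fin (2 ^ k) =>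
      l ≤ (p : ℕ) ∧ (p : ℕ) < h ∧ l' ≤ (Equiv.ofBijective f hbij p : ℕ) ∧
        (Equiv.ofBijective f hbij p : ℕ) < h') with hS
  have hmem : ∀ p ∈ S, l ≤ (p : ℕ) ∧ (p : ℕ) < h ∧ l' ≤ rev k p ∧ rev k p < h' := by
    intro p hp
    rw [hS, Finset.mem_filter] at hp
    exact hp.2
  by_cases hA : 2 ^ k ≤ h - l
  · have hcard : S.card ≤ h' - l' := by
      have := Finset.card_le_card_of_injOn (s := S) (t := Finset.Ico l' h')
        (fun p => rev k p) (fun p hp => ?_) ?_
      · simpa using this
      · have := hmem p hp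
        simp only [Finset.coe_Ico, Set.mem_Ico]
        exact this.2.2
      · intro p _ q _ hpq
        exact hf (Fin.ext hpq)
    have h1 : 2 ^ k * S.card ≤ (h - l) * (h' - l') := Nat.mul_le_mul hA hcard
    have h2 : 4 * (h - l) * (h' - l') = 4 * ((h - l) * (h' - l')) := by ring
    rw [h2]
    omega
  · push Not at hA
    rcases Nat.eq_zero_or_pos (h - l) with h0 | h0
    · have : S = ∅ := by
        apply Finset.eq_empty_of_forall_notMem
        intro p hp
        have := hmem p hp
        omega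
      rw [this]; simp
    · set A := h - l with hAd
      set B := h' - l' with hBd
      obtain ⟨u, hu1, hu2, hu3⟩ : ∃ u, u ≤ k ∧ A ≤ 2 ^ u ∧ 2 ^ u < 2 * A := by
        refine ⟨Nat.clog 2 A, ?_, ?_, ?_⟩
        · exact Nat.clog_le_of_le_pow hA.le
        · exact Nat.le_pow_clog (by norm_num) _
        · rcases Nat.lt_or_ge 1 A with h1 | h1
          · have h2 := Nat.pow_pred_clog_lt_self (b := 2) (by norm_num) h1
            have h3 : 0 < Nat.clog 2 A := Nat.clog_pos (by norm_num) h1
            obtain ⟨c, hc⟩ : ∃ c, Nat.clog 2 A = c + 1 := ⟨Nat.clog 2 A - 1, by omega⟩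
            rw [hc] at h2 ⊢
            simp only [Nat.pred_succ, Nat.pred_eq_sub_one, Nat.add_sub_cancel] at h2
            rw [pow_succ]; omega
          · have : A = 1 := by omega
            rw [this]; simp
      set w := 2 ^ (k - u) with hw
      have hwpos : 0 < w := by positivity
      have hupos : 0 < 2 ^ u := by positivity
      have hkw : 2 ^ k = 2 ^ u * w := by
        rw [hw, ← pow_add]; congr 1; omega
      have hcard : S.card ≤ 2 * (B / w + 2) := by
        have := Finset.card_le_card_of_injOn (s := S)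
          (t := Finset.Icc (l / 2 ^ u) (l / 2 ^ u + 1) ×ˢ
            Finset.Icc (l' / w) (l' / w + (B / w + 1)))
          (fun p => ((p : ℕ) / 2 ^ u, rev k p / w)) (fun p hp => ?_) ?_
        · rw [Finset.card_product, Nat.card_Icc, Nat.card_Icc] at this
          refine this.trans (le_of_eq ?_)
          have e1 : ∀ x : ℕ, x + 1 + 1 - x = 2 := by intro x; omega
          have e2 : ∀ x y : ℕ, x + (y + 1) + 1 - x = y + 2 := by intro x y; omega
          rw [e1, e2]
        · have hm := hmem p hp
          simp only [Finset.coe_product, Finset.coe_Icc, Set.mem_prod, Set.mem_Icc]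
          refine ⟨⟨Nat.div_le_div_right hm.1, ?_⟩, Nat.div_le_div_right hm.2.2.1, ?_⟩
          · have : (p : ℕ) ≤ l + 2 ^ u := by omega
            refine (Nat.div_le_div_right this).trans (le_of_eq ?_)
            rw [Nat.add_div_right _ hupos]
          · have h1 : rev k p ≤ l' + B := by omega
            refine (Nat.div_le_div_right h1).trans ?_
            rw [Nat.add_div hwpos]
            split_ifs <;> omega
        · intro p _ q _ hpq
          simp only [Prod.mk.injEq] at hpq
          exact Fin.ext (rev_sep k u _ _ hu1 p.2 q.2 hpq.1 hpq.2)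
      have h1 : w * (B / w) ≤ B := Nat.mul_div_le B w
      have h2 : 2 ^ k * S.card ≤ 2 ^ k * (2 * (B / w + 2)) := Nat.mul_le_mul_left _ hcard
      have h3 : 2 ^ k * (2 * (B / w + 2)) = 2 * 2 ^ u * (w * (B / w)) + 4 * 2 ^ k := by
        rw [hkw]; ring
      have h4 : 2 * 2 ^ u * (w * (B / w)) ≤ 2 * (2 * A) * B :=
        Nat.mul_le_mul (by omega) h1
      have h5 : 2 * (2 * A) * B = 4 * A * B := by ring
      omega

end Pool.Agent.UCR
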