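import Pool.Agent.UCR.Defs

/-!
# UCR StructA: almost all units of a regular copy are good

`W e = rk e / Lc` (coarse window), `F e = rk e / (4 Γ)` (fine window), `m = (10 + B) M` edges.
`hG`: at most `μ` gaps between consecutive edges are longer than `Γ`.

PROOF. Pieces: for `P < 2 M` the indices `5 P, .., 5 P + 4`: for `P < M` these are the
class 1 edges of the unit `P`, for `P = M + σ p` the class 2 edges of the unit `p`. If no inner gap
`R (i + 1) - R i`, `5 P ≤ i < 5 P + 4`, is longer than `Γ`, then all `R` of the piece differ by at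
most `4 Γ`, so the `F` differ by at most one. If `R (5 P) / Lc = R (5 P + 4) / Lc` then the `W` are
equal on the piece. If both pieces of the unit `p` have both properties, then `X p` is a unit:
the pair `{a, a + d}` is edge number `a` of class 1 (`d = 1`), `a - 1` (`d = 4`), edge number `a` of
class 2 (`d = 2`), `a - 2` (`d = 3`); `Sym2.eq_swap`.
The number of pieces with a long inner gap is at most `μ` (`hG`, disjoint pieces). The number of
pieces with `R (5 P) / Lc < R (5 P + 4) / Lc` is at most `r`: the map `P ↦ R (5 P) / Lc` is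
injective on these `P` (for `P < P'`: `R (5 P) / Lc < R (5 P + 4) / Lc ≤ R (5 P') / Lc`) with values
`< r` (`hr`, `R1`, `R2`, `XE`). Every piece belongs to one unit (`σ` is a bijection).
-/

set_option autoImplicit false

namespace Pool.Agent.UCR

/-- a piece: five consecutive ranks without a long gap, in one coarse window -/
private theorem piece (R : ℕ → ℕ) (b L Γ : ℕ) (hΓ : 0 < Γ)
    (hm : ∀ i, b ≤ i → i < b + 4 → R i < R (i + 1))
    (hg : ∀ i, b ≤ i → i < b + 4 → R (i + 1) - R i ≤ Γ)
    (hL : R b / L = R (b + 4) / L) (c c' : ℕ) (hc : c < 5) (hc' : c' < 5) :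
    R (b + c) / L = R (b + c') / L ∧ R (b + c) / (4 * Γ) ≤ R (b + c') / (4 * Γ) + 1 := by
  have h0 := hm b le_rfl (by omega)
  have h1 := hm (b + 1) (by omega) (by omega)
  have h2 := hm (b + 2) (by omega) (by omega)
  have h3 := hm (b + 3) (by omega) (by omega)
  have g0 := hg b le_rfl (by omega)
  have g1 := hg (b + 1) (by omega) (by omega)
  have g2 := hg (b + 2) (by omega) (by omega)
  have g3 := hg (b + 3) (by omega) (by omega)
  simp only [add_assoc, Nat.reduceAdd] at h1 h2 h3 g1 g2 g3
  have hb : ∀ c < 5, R b ≤ R (b + c) ∧ R (b + c) ≤ R (b + 4) := by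
    intro c hc
    interval_cases c <;> (try simp only [add_zero]) <;> omega
  have he : ∀ c < 5, R (b + c) / L = R b / L := by
    intro c hc
    apply le_antisymm
    · rw [hL]; exact Nat.div_le_div_right (hb c hc).2
    · exact Nat.div_le_div_right (hb c hc).1
  refine ⟨(he c hc).trans (he c' hc').symm, ?_⟩
  have h : R (b + c) ≤ R (b + c') + 4 * Γ := by
    have e1 := hb c hc
    have e2 := hb c' hc'
    omega
  calc R (b + c) / (4 * Γ) ≤ (R (b + c') + 4 * Γ) / (4 * Γ) := Nat.div_le_div_right h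
    _ = R (b + c') / (4 * Γ) + 1 := Nat.add_div_right _ (by positivity)

/-- a pair of places of a unit as an edge of class 1 or of class 2 -/
private theorem pairs5 {V : Type} (X : ZMod 5 → V) (d : ZMod 5) (hd : d ≠ 0) :
    ((d = 1 ∨ d = 4) ∧ ∀ a, ∃ c, s(X a, X (a + d)) = s(X c, X (c + 1))) ∨
    (¬ (d = 1 ∨ d = 4) ∧ ∀ a, ∃ c, s(X a, X (a + d)) = s(X c, X (c + 2))) := by
  have h : d = 1 ∨ d = 4 ∨ d = 2 ∨ d = 3 := by
    revert d
    decide
  rcases h with rfl | rfl | rfl | rfl
  · exact Or.inl ⟨Or.inl rfl, fun a => ⟨a, rfl⟩⟩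
  · refine Or.inl ⟨Or.inr rfl, fun a => ⟨a + 4, ?_⟩⟩
    rw [show a + 4 + 1 = a by revert a; decide]
    exact Sym2.eq_swap
  · exact Or.inr ⟨by decide, fun a => ⟨a, rfl⟩⟩
  · refine Or.inr ⟨by decide, fun a => ⟨a + 3, ?_⟩⟩
    rw [show a + 3 + 2 = a by revert a; decide]
    exact Sym2.eq_swap

open Classical in
theorem few_bad {V : Type} (E : Finset (Sym2 V)) (rk : Sym2 V → ℕ) (M t B : ℕ)
    (σ : Equiv.Perm (Fin M)) (ce : Fin B → Fin t × Fin t) (X : Fin M → ZMod 5 → V)
    (Y : Fin M → Fin t → V) (R : ℕ → ℕ) (hc : IsCopy E rk M t B σ ce X Y R)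
    (Lc Γ r μ : ℕ) (hΓ : 0 < Γ) (hLc : 0 < Lc) (hr : ∀ e ∈ E, rk e / Lc < r)
    (hG : ((Finset.range ((10 + B) * M)).filter
      (fun i => i + 1 < (10 + B) * M ∧ Γ < R (i + 1) - R i)).card ≤ μ) :
    (Finset.univ.filter (fun p : Fin M =>
      ¬ IsUnit5 E (fun e => rk e / Lc) (fun e => rk e / (4 * Γ)) (X p))).card ≤ r + μ := by
  set G := (Finset.range (2 * M)).filter
    (fun P => ∃ i, 5 * P ≤ i ∧ i < 5 * P + 4 ∧ Γ < R (i + 1) - R i) with hGd
  set C := (Finset.range (2 * M)).filter
    (fun P => R (5 * P) / Lc < R (5 * P + 4) / Lc) with hCd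
  have h1 : G.card ≤ μ := by
    refine le_trans ?_ hG
    have key : ∀ P ∈ G, ∃ i, 5 * P ≤ i ∧ i < 5 * P + 4 ∧ Γ < R (i + 1) - R i :=
      fun P hP => (Finset.mem_filter.mp hP).2
    choose! f hf using key
    refine Finset.card_le_card_of_injOn f (fun P hP => ?_) (fun P hP P' hP' h => ?_)
    · have e := hf P hP
      have e2 : P < 2 * M := Finset.mem_range.mp (Finset.mem_filter.mp hP).1
      have e3 : 10 * M ≤ (10 + B) * M := Nat.mul_le_mul_right M (by omega)
      simp only [Finset.coe_filter, Finset.mem_range, Set.mem_ofPred_eq]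
      exact ⟨by omega, by omega, e.2.2⟩
    · have e := hf P hP
      have e' := hf P' hP'
      rw [← h] at e'
      omega
  have h2 : C.card ≤ r := by
    rw [← Finset.card_range r]
    refine Finset.card_le_card_of_injOn (fun P => R (5 * P) / Lc) (fun P hP => ?_) ?_
    · have e2 : P < 2 * M := Finset.mem_range.mp (Finset.mem_filter.mp hP).1
      simp only [Finset.coe_range, Set.mem_Iio]
      by_cases hPM : P < M
      · have e := hc.R1 ⟨P, hPM⟩ 0
        simp only [ZMod.val_zero, add_zero] at e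
        rw [← e]
        exact hr _ (hc.XE _ _ _ (by decide))
      · have e := hc.R2 (σ.symm ⟨P - M, by omega⟩) 0
        simp only [Equiv.apply_symm_apply, ZMod.val_zero, add_zero] at e
        rw [show 5 * M + 5 * (P - M) = 5 * P by omega] at e
        rw [← e]
        exact hr _ (hc.XE _ _ _ (by decide))
    · intro P hP P' hP' h
      have e2 : P < 2 * M := Finset.mem_range.mp (Finset.mem_filter.mp hP).1
      have e2' : P' < 2 * M := Finset.mem_range.mp (Finset.mem_filter.mp hP').1
      have e3 := (Finset.mem_filter.mp hP).2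
      have e3' := (Finset.mem_filter.mp hP').2
      have e4 : 10 * M ≤ (10 + B) * M := Nat.mul_le_mul_right M (by omega)
      simp only at h
      rcases lt_trichotomy P P' with hl | hl | hl
      · have e5 := Nat.div_le_div_right (c := Lc)
          (hc.mono (5 * P + 4) (5 * P') (by omega) (by omega)).le
        omega
      · exact hl
      · have e5 := Nat.div_le_div_right (c := Lc)
          (hc.mono (5 * P' + 4) (5 * P) (by omega) (by omega)).le
        omega
  have e4 : 10 * M ≤ (10 + B) * M := Nat.mul_le_mul_right M (by omega)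
  have good : ∀ P, P < 2 * M → P ∉ C ∪ G → ∀ c c' : ℕ, c < 5 → c' < 5 →
      R (5 * P + c) / Lc = R (5 * P + c') / Lc ∧
      R (5 * P + c) / (4 * Γ) ≤ R (5 * P + c') / (4 * Γ) + 1 := by
    intro P hP hn c c' hc5 hc5'
    simp only [hCd, hGd, Finset.mem_union, Finset.mem_filter, Finset.mem_range, not_or,
      not_and, not_exists, not_lt] at hn
    refine piece R (5 * P) Lc Γ hΓ (fun i hi hi' => hc.mono i (i + 1) (by omega) (by omega))
      (fun i hi hi' => hn.2 hP i hi hi') ?_ c c' hc5 hc5'
    exact le_antisymm (Nat.div_le_div_right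
      (hc.mono (5 * P) (5 * P + 4) (by omega) (by omega)).le) (hn.1 hP)
  have key : ∀ p ∈ (Finset.univ.filter (fun p : Fin M =>
      ¬ IsUnit5 E (fun e => rk e / Lc) (fun e => rk e / (4 * Γ)) (X p))),
      ∃ P ∈ C ∪ G, P = (p : ℕ) ∨ P = M + (σ p : ℕ) := by
    intro p hp
    by_contra hcon
    push Not at hcon
    have n1 : (p : ℕ) ∉ C ∪ G := fun hmem => (hcon _ hmem).1 rfl
    have n2 : M + (σ p : ℕ) ∉ C ∪ G := fun hmem => (hcon _ hmem).2 rfl
    have l1 := p.isLt
    have l2 := (σ p).isLt
    refine (Finset.mem_filter.mp hp).2 ⟨hc.Xinj p, hc.XE p, ?_⟩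
    intro a b d hd
    rcases pairs5 (X p) d hd with ⟨-, h⟩ | ⟨-, h⟩
    · obtain ⟨c, hcc⟩ := h a
      obtain ⟨c', hcc'⟩ := h b
      simp only [hcc, hcc', hc.R1]
      exact good p (by omega) n1 c.val c'.val (ZMod.val_lt c) (ZMod.val_lt c')
    · obtain ⟨c, hcc⟩ := h a
      obtain ⟨c', hcc'⟩ := h b
      simp only [hcc, hcc', hc.R2]
      have e := good (M + (σ p : ℕ)) (by omega) n2 c.val c'.val (ZMod.val_lt c)
        (ZMod.val_lt c')
      rw [mul_add] at e
      exact e
  choose! g hg using key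
  refine le_trans (Finset.card_le_card_of_injOn g (fun p hp => (hg p hp).1) ?_)
    (le_trans (Finset.card_union_le C G) (add_le_add h2 h1))
  intro p hp p' hp' h
  have a1 := (hg p hp).2
  have a2 := (hg p' hp').2
  rw [← h] at a2
  have l1 := p.isLt
  have l2 := p'.isLt
  rcases a1 with a1 | a1 <;> rcases a2 with a2 | a2
  · exact Fin.ext (by omega)
  · omega
  · omega
  · exact σ.injective (Fin.ext (by omega))

end Pool.Agent.UCR
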