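import Pool.Agent.UCR.Defs

/-!
# UCR StructB: a spread clique, and the hypotheses of `exists_data`

`m = (10 + B) M` edges. `hC`: at most `C0` edges lie in coarse windows (`R i / Lc`) with more than
`μ` edges of the copy.

PROOF of `exists_spread`. The edges of round `h` of the clique `p` have index
`i(h, p) = 10 M + h M + p`. At most `C0 < M` edges are in a window with more than `μ` edges, so
there is `p` such that no `i(h, p)` is (map `i(h, p) ↦ p`, i.e. `i ↦ i % M`).
If `i(h, p)`, `i(h', p)`, `h < h'`, are in the same window, then so are the at least `M + 1 > μ`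
indices between them (`R` is
increasing), contradiction. So the windows of the rounds are distinct for this `p`; `ce` is
injective and reaches every pair `a < b`.

PROOF of `phases`. `A1 p = R (5 p) / Lc = rk s(X p 0, X p 1) / Lc` (`R1` with `c = 0`),
`A2 q = R (5 M + 5 q) / Lc`, for `q = σ p` equal to `rk s(X p 0, X p 2) / Lc` (`R2`, `c = 0`);
values `< r` by `hr`; monotone by `mono`. If `μ < |{p' : A1 p' = A1 p}|` then the index `5 p` is in
the set of `hC`; `p ↦ 5 p` is injective. Same for `A2` with `5 M + 5 q`.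
-/

set_option autoImplicit false

namespace Pool.Agent.UCR

/-- two indices in the same window: all indices between them are in this window -/
private theorem card_window_StructB (R : ℕ → ℕ) (N Lc : ℕ)
    (mono : ∀ i j : ℕ, i < j → j < N → R i < R j) (i j : ℕ) (hij : i < j) (hj : j < N)
    (h : R i / Lc = R j / Lc) :
    j - i < ((Finset.range N).filter (fun i' => R i' / Lc = R i / Lc)).card := by
  have hsub : Finset.Icc i j ⊆ (Finset.range N).filter (fun i' => R i' / Lc = R i / Lc) := by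
    intro l hl
    rw [Finset.mem_Icc] at hl
    rw [Finset.mem_filter, Finset.mem_range]
    refine ⟨by omega, ?_⟩
    have h1 : R i ≤ R l := by
      rcases Nat.eq_or_lt_of_le hl.1 with he | hlt
      · rw [he]
      · exact le_of_lt (mono i l hlt (by omega))
    have h2 : R l ≤ R j := by
      rcases Nat.eq_or_lt_of_le hl.2 with he | hlt
      · rw [he]
      · exact le_of_lt (mono l j hlt hj)
    have h3 := Nat.div_le_div_right (c := Lc) h1
    have h4 := Nat.div_le_div_right (c := Lc) h2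
    omega
  have hc := Finset.card_le_card hsub
  rw [Nat.card_Icc] at hc
  omega

open Classical in
theorem exists_spread {V : Type} (E : Finset (Sym2 V)) (rk : Sym2 V → ℕ) (M t B : ℕ)
    (σ : Equiv.Perm (Fin M)) (ce : Fin B → Fin t × Fin t)
    (hce : Function.Injective ce) (hce2 : ∀ a b : Fin t, a < b → ∃ h, ce h = (a, b))
    (X : Fin M → ZMod 5 → V)
    (Y : Fin M → Fin t → V) (R : ℕ → ℕ) (hc : IsCopy E rk M t B σ ce X Y R)
    (Lc μ C0 : ℕ) (hLc : 0 < Lc) (hμ : μ < M) (hC0 : C0 < M)
    (hC : ((Finset.range ((10 + B) * M)).filter (fun i => μ <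
      ((Finset.range ((10 + B) * M)).filter (fun i' => R i' / Lc = R i / Lc)).card)).card ≤ C0) :
    ∃ p : Fin M, ∀ a b a' b' : Fin t, a < b → a' < b' →
      rk s(Y p a, Y p b) / Lc = rk s(Y p a', Y p b') / Lc → a = a' ∧ b = b' := by
  have _ := hce
  have _ := hLc
  have hM : 0 < M := by omega
  set S := (Finset.range ((10 + B) * M)).filter (fun i => μ <
      ((Finset.range ((10 + B) * M)).filter (fun i' => R i' / Lc = R i / Lc)).card) with hS
  have himg : (S.image (fun i => (⟨i % M, Nat.mod_lt _ hM⟩ : Fin M))).card <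
      Fintype.card (Fin M) := by
    rw [Fintype.card_fin]
    exact lt_of_le_of_lt (le_trans Finset.card_image_le hC) hC0
  obtain ⟨p, hp⟩ : ∃ p : Fin M, p ∉ S.image (fun i => (⟨i % M, Nat.mod_lt _ hM⟩ : Fin M)) := by
    by_contra hcon
    push Not at hcon
    have hle : (Finset.univ : Finset (Fin M)).card ≤
        (S.image (fun i => (⟨i % M, Nat.mod_lt _ hM⟩ : Fin M))).card :=
      Finset.card_le_card (fun p _ => hcon p)
    rw [Finset.card_univ] at hle
    omega
  have hidx : ∀ h : Fin B, 10 * M + (h : ℕ) * M + (p : ℕ) < (10 + B) * M := by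
    intro h
    have h1 : ((h : ℕ) + 1) * M ≤ B * M := Nat.mul_le_mul_right M h.2
    have h2 := p.2
    have h3 : (10 + B) * M = 10 * M + B * M := by ring
    have h4 : ((h : ℕ) + 1) * M = (h : ℕ) * M + M := by ring
    omega
  have hgood : ∀ h : Fin B, ((Finset.range ((10 + B) * M)).filter
      (fun i' => R i' / Lc = R (10 * M + (h : ℕ) * M + (p : ℕ)) / Lc)).card ≤ μ := by
    intro h
    by_contra hcon
    push Not at hcon
    apply hp
    rw [Finset.mem_image]
    refine ⟨10 * M + (h : ℕ) * M + (p : ℕ), ?_, ?_⟩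
    · rw [hS, Finset.mem_filter, Finset.mem_range]
      exact ⟨hidx h, hcon⟩
    · apply Fin.ext
      have h5 : 10 * M + (h : ℕ) * M + (p : ℕ) = (p : ℕ) + (10 + (h : ℕ)) * M := by ring
      change (10 * M + (h : ℕ) * M + (p : ℕ)) % M = (p : ℕ)
      rw [h5, Nat.add_mul_mod_self_right]
      exact Nat.mod_eq_of_lt p.2
  have key : ∀ h h' : Fin B, (h : ℕ) < (h' : ℕ) →
      R (10 * M + (h : ℕ) * M + (p : ℕ)) / Lc = R (10 * M + (h' : ℕ) * M + (p : ℕ)) / Lc →
      False := by
    intro h h' hlt heq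
    have h4 : ((h : ℕ) + 1) * M ≤ (h' : ℕ) * M := Nat.mul_le_mul_right M hlt
    have h6 : ((h : ℕ) + 1) * M = (h : ℕ) * M + M := by ring
    have h7 := card_window_StructB R ((10 + B) * M) Lc hc.mono
      (10 * M + (h : ℕ) * M + (p : ℕ)) (10 * M + (h' : ℕ) * M + (p : ℕ))
      (by omega) (hidx h') heq
    have h8 := hgood h
    omega
  refine ⟨p, fun a b a' b' hab hab' heq => ?_⟩
  obtain ⟨h, hh⟩ := hce2 a b hab
  obtain ⟨h', hh'⟩ := hce2 a' b' hab'
  have e1 : rk s(Y p a, Y p b) = R (10 * M + (h : ℕ) * M + (p : ℕ)) := by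
    have := hc.R3 h p
    rw [hh] at this
    exact this
  have e2 : rk s(Y p a', Y p b') = R (10 * M + (h' : ℕ) * M + (p : ℕ)) := by
    have := hc.R3 h' p
    rw [hh'] at this
    exact this
  rw [e1, e2] at heq
  rcases Nat.lt_trichotomy (h : ℕ) (h' : ℕ) with hlt | he | hgt
  · exact (key h h' hlt heq).elim
  · have : h = h' := Fin.ext he
    rw [this, hh'] at hh
    exact ⟨(congrArg Prod.fst hh).symm, (congrArg Prod.snd hh).symm⟩
  · exact (key h' h hgt heq.symm).elim

open Classical in
/-- the hypotheses of `exists_data` for the two phases -/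
theorem phases {V : Type} (E : Finset (Sym2 V)) (rk : Sym2 V → ℕ) (M t B : ℕ)
    (σ : Equiv.Perm (Fin M)) (ce : Fin B → Fin t × Fin t) (X : Fin M → ZMod 5 → V)
    (Y : Fin M → Fin t → V) (R : ℕ → ℕ) (hc : IsCopy E rk M t B σ ce X Y R)
    (Lc r μ C0 : ℕ) (hLc : 0 < Lc) (hr : ∀ e ∈ E, rk e / Lc < r)
    (hC : ((Finset.range ((10 + B) * M)).filter (fun i => μ <
      ((Finset.range ((10 + B) * M)).filter (fun i' => R i' / Lc = R i / Lc)).card)).card ≤ C0) :
    ∃ A1 A2 : Fin M → Fin r, Monotone A1 ∧ Monotone A2 ∧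
      (∀ p, (A1 p : ℕ) = rk s(X p 0, X p 1) / Lc) ∧
      (∀ p, (A2 (σ p) : ℕ) = rk s(X p 0, X p 2) / Lc) ∧
      (Finset.univ.filter (fun p =>
        μ < (Finset.univ.filter (fun p' => A1 p' = A1 p)).card)).card ≤ C0 ∧
      (Finset.univ.filter (fun p =>
        μ < (Finset.univ.filter (fun p' => A2 p' = A2 p)).card)).card ≤ C0 := by
  have _ := hLc
  have hR : ∀ i j : ℕ, i ≤ j → j < (10 + B) * M → R i / Lc ≤ R j / Lc := by
    intro i j hij hj
    apply Nat.div_le_div_right
    rcases Nat.eq_or_lt_of_le hij with he | hlt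
    · rw [he]
    · exact le_of_lt (hc.mono i j hlt hj)
  have hN : (10 + B) * M = 10 * M + B * M := by ring
  have h10 : 10 * M ≤ (10 + B) * M := by omega
  have hz : ((0 : ZMod 5)).val = 0 := by simp
  have e1 : ∀ p : Fin M, rk s(X p 0, X p 1) = R (5 * (p : ℕ)) := by
    intro p
    have := hc.R1 p 0
    rw [hz, zero_add, add_zero] at this
    exact this
  have e2 : ∀ p : Fin M, rk s(X p 0, X p 2) = R (5 * M + 5 * (σ p : ℕ)) := by
    intro p
    have := hc.R2 p 0
    rw [hz, zero_add, add_zero] at this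
    exact this
  have n1 : (0 : ZMod 5) ≠ 1 := by decide
  have n2 : (0 : ZMod 5) ≠ 2 := by decide
  have b1 : ∀ p : Fin M, R (5 * (p : ℕ)) / Lc < r := by
    intro p
    rw [← e1 p]
    exact hr _ (hc.XE p 0 1 n1)
  have b2 : ∀ q : Fin M, R (5 * M + 5 * (q : ℕ)) / Lc < r := by
    intro q
    have h3 := e2 (σ.symm q)
    rw [Equiv.apply_symm_apply] at h3
    rw [← h3]
    exact hr _ (hc.XE _ 0 2 n2)
  have cnt : ∀ (A : Fin M → Fin r) (ix : ℕ → ℕ),
      (∀ i j, ix i = ix j → i = j) → (∀ p : Fin M, ix p < (10 + B) * M) →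
      (∀ p : Fin M, (A p : ℕ) = R (ix p) / Lc) →
      (Finset.univ.filter (fun p =>
        μ < (Finset.univ.filter (fun p' => A p' = A p)).card)).card ≤ C0 := by
    intro A ix hinj hlt hA
    refine le_trans ?_ hC
    refine Finset.card_le_card_of_injOn (fun p : Fin M => ix p) ?_ ?_
    · intro p hp
      rw [Finset.mem_coe, Finset.mem_filter] at hp
      rw [Finset.mem_coe, Finset.mem_filter, Finset.mem_range]
      refine ⟨hlt p, lt_of_lt_of_le hp.2 ?_⟩
      refine Finset.card_le_card_of_injOn (fun p' : Fin M => ix p') ?_ ?_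
      · intro p' hp'
        rw [Finset.mem_coe, Finset.mem_filter] at hp'
        rw [Finset.mem_coe, Finset.mem_filter, Finset.mem_range]
        refine ⟨hlt p', ?_⟩
        rw [← hA p', ← hA p, hp'.2]
      · intro x _ y _ hxy
        exact Fin.ext (hinj _ _ hxy)
    · intro x _ y _ hxy
      exact Fin.ext (hinj _ _ hxy)
  refine ⟨fun p => ⟨R (5 * (p : ℕ)) / Lc, b1 p⟩, fun q => ⟨R (5 * M + 5 * (q : ℕ)) / Lc, b2 q⟩,
    ?_, ?_, ?_, ?_, ?_, ?_⟩
  · intro p q hpq
    have h1 : (p : ℕ) ≤ (q : ℕ) := hpq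
    have h2 := q.2
    change R (5 * (p : ℕ)) / Lc ≤ R (5 * (q : ℕ)) / Lc
    exact hR _ _ (by omega) (by omega)
  · intro p q hpq
    have h1 : (p : ℕ) ≤ (q : ℕ) := hpq
    have h2 := q.2
    change R (5 * M + 5 * (p : ℕ)) / Lc ≤ R (5 * M + 5 * (q : ℕ)) / Lc
    exact hR _ _ (by omega) (by omega)
  · intro p
    rw [e1 p]
  · intro p
    rw [e2 p]
  · refine cnt _ (fun i => 5 * i) ?_ ?_ ?_
    · intro i j hij
      have : 5 * i = 5 * j := hij
      omega
    · intro p
      have h2 := p.2
      change 5 * (p : ℕ) < _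
      omega
    · intro p
      rfl
  · refine cnt _ (fun i => 5 * M + 5 * i) ?_ ?_ ?_
    · intro i j hij
      have : 5 * M + 5 * i = 5 * M + 5 * j := hij
      omega
    · intro p
      have h2 := p.2
      change 5 * M + 5 * (p : ℕ) < _
      omega
    · intro p
      rfl

end Pool.Agent.UCR
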