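import Pool.Agent.UCR.Cover
import Pool.Agent.UCR.Rev
import Pool.Agent.UCR.Data
import Pool.Agent.UCR.BlueUnion
import Pool.Agent.UCR.RedUnion
import Pool.Agent.UCR.StructA
import Pool.Agent.UCR.StructB
import Pool.Agent.UCR.Rank

/-!
# UCR Comb: the colouring, for a fixed host and fixed parameters
-/

set_option autoImplicit false

namespace Pool.Agent.UCR

open Classical in
/-- counting: a blue copy puts `f` in the set of `blue_union` -/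
theorem sum_wt_le {k r x1 x2 : ℕ} (σ : Equiv.Perm (Fin (2 ^ k)))
    (d1 : Fin x1 → Fin r × Fin (2 ^ k + 1) × Fin (2 ^ k + 1))
    (d2 : Fin x2 → Fin r × Fin (2 ^ k + 1) × Fin (2 ^ k + 1))
    (A1 A2 : Fin (2 ^ k) → Fin r) (hA : ∀ p i j, Cnt d1 d2 σ p i j → A1 p = i ∧ A2 (σ p) = j)
    (D : Finset (Fin r × Fin r)) (Bad : Finset (Fin (2 ^ k)))
    (hBad : ∀ p, ∀ T ∈ D, Cnt d1 d2 σ p T.1 T.2 → p ∈ Bad) :
    ∑ T ∈ D, wt d1 d2 σ T ≤ Bad.card := by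
  unfold wt
  rw [← Finset.card_biUnion]
  · apply Finset.card_le_card
    intro p hp
    rw [Finset.mem_biUnion] at hp
    obtain ⟨T, hT, hp⟩ := hp
    exact hBad p T hT (Finset.mem_filter.mp hp).2
  · intro T _ T' _ hne
    rw [Function.onFun, Finset.disjoint_left]
    intro p hp hp'
    obtain ⟨h1, h2⟩ := hA p _ _ (Finset.mem_filter.mp hp).2
    obtain ⟨h3, h4⟩ := hA p _ _ (Finset.mem_filter.mp hp').2
    exact hne (Prod.ext (h1.symm.trans h3) (h2.symm.trans h4))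

open Classical in
theorem card_le_sum_wt {k r x1 x2 : ℕ} (σ : Equiv.Perm (Fin (2 ^ k)))
    (d1 : Fin x1 → Fin r × Fin (2 ^ k + 1) × Fin (2 ^ k + 1))
    (d2 : Fin x2 → Fin r × Fin (2 ^ k + 1) × Fin (2 ^ k + 1)) :
    (Finset.univ.filter (fun p => ∃ i j, Cnt d1 d2 σ p i j)).card ≤ ∑ T, wt d1 d2 σ T := by
  unfold wt
  refine le_trans (Finset.card_le_card ?_) Finset.card_biUnion_le
  intro p hp
  obtain ⟨i, j, h⟩ := (Finset.mem_filter.mp hp).2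
  rw [Finset.mem_biUnion]
  exact ⟨(i, j), Finset.mem_univ _, Finset.mem_filter.mpr ⟨Finset.mem_univ _, h⟩⟩

theorem ex_of_filter {α : Type} [Fintype α] (P : α → Prop) (inst : DecidablePred P) (n : ℕ)
    (h : 4 * (@Finset.filter α P inst Finset.univ).card ≤ n) :
    ∃ B : Finset α, (∀ f, f ∈ B ↔ P f) ∧ 4 * B.card ≤ n :=
  ⟨_, fun f => by rw [Finset.mem_filter]; exact and_iff_right (Finset.mem_univ _), h⟩

theorem ex_of_filter' {α : Type} [Fintype α] (P : α → Prop) (inst : DecidablePred P) (q n : ℕ)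
    (h : 4 * ((@Finset.filter α P inst Finset.univ).card : ℝ) ≤ (q : ℝ) ^ n) :
    ∃ B : Finset α, (∀ f, f ∈ B ↔ P f) ∧ 4 * B.card ≤ q ^ n :=
  ex_of_filter P inst _ (by exact_mod_cast h)

open Classical in
theorem main_comb {V : Type} [Fintype V] [DecidableEq V] (E : Finset (Sym2 V))
    (rk : Sym2 V → ℕ) (hinj : Set.InjOn rk (E : Set (Sym2 V))) (m : ℕ) (hm : E.card ≤ m)
    (hrk : ∀ e ∈ E, rk e < m) (k t B h Γ Lc lam Q μ ℓ C0 r : ℕ)
    (σ : Equiv.Perm (Fin (2 ^ k))) (hσ : Mixing k σ)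
    (ce : Fin B → Fin t × Fin t) (hce : Function.Injective ce)
    (hce2 : ∀ a b : Fin t, a < b → ∃ h, ce h = (a, b))
    (ht : 5 ≤ t) (hh : 4 * h = t * (t - 1)) (hr : r = m / Lc + 1)
    (hΓ : 0 < Γ) (hLc : 0 < Lc) (hΓL : 4 * Γ ≤ Lc) (hlam : 108 * (4 * Γ) < lam ^ 3)
    (hQ : 0 < Q) (hℓ : 0 < ℓ) (hμ : μ < 2 ^ k) (hC : 8 * C0 ≤ 2 ^ k) (hC' : C0 < 2 ^ k)
    (hrl : 8 * (r * ℓ) ≤ 2 ^ k)
    (hred : 4 * (2 * m) ^ t * 2 ^ (2 * h) * (40 * lam) ^ h ≤ Q ^ h)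
    (hb : 4 * (Q : ℝ) * ((r : ℝ) + μ) ≤ 2 ^ k / (2 * (k + 1) ^ 2))
    (hnum : 4 * (Q : ℝ) * (32 * μ + 16 * 2 ^ k / ℓ) *
      (Real.log (r * (2 ^ k + 1) ^ 2) + Real.log (4 * (k + 1) ^ 2)) ≤ 2 ^ k / (2 * (k + 1) ^ 2)) :
    ∃ col : Sym2 V → Bool, ∀ (X : Fin (2 ^ k) → ZMod 5 → V) (Y : Fin (2 ^ k) → Fin t → V)
      (R : ℕ → ℕ), IsCopy E rk (2 ^ k) t B σ ce X Y R →
      (∃ b : Bool, (∀ p (a a' : ZMod 5), a ≠ a' → col s(X p a, X p a') = b) ∧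
        ∀ p (a a' : Fin t), a ≠ a' → col s(Y p a, Y p a') = b) →
      ((Finset.range ((10 + B) * 2 ^ k)).filter (fun i => μ <
        ((Finset.range ((10 + B) * 2 ^ k)).filter (fun i' => R i' / Lc = R i / Lc)).card)).card
          ≤ C0 →
      ((Finset.range ((10 + B) * 2 ^ k)).filter
        (fun i => i + 1 < (10 + B) * 2 ^ k ∧ Γ < R (i + 1) - R i)).card ≤ μ → False := by
  have hr0 : 0 < r := by rw [hr]; exact Nat.succ_pos _
  have hrW : ∀ e ∈ E, rk e / Lc < r := fun e he => by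
    rw [hr]
    exact Nat.lt_succ_of_le (Nat.div_le_div_right (hrk e he).le)
  set W : Sym2 V → ℕ := fun e => rk e / Lc with hWdef
  set F : Sym2 V → ℕ := fun e => rk e / (4 * Γ) with hFdef
  obtain ⟨Rd, hR1, hR2, hR3⟩ := cover E W F (4 * Γ) lam
    (fun g => fine_card E rk hinj (4 * Γ) (by omega) g)
    (fun g => coarse_card E rk (4 * Γ) Lc (by omega) hΓL g) hlam
    (Finset.univ.filter (fun X => IsUnit5 E W F X)) (fun X hX => (Finset.mem_filter.mp hX).2)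
  have hblue := blue_union k r Q μ ℓ ((r : ℝ) + μ) σ hr0 hQ hℓ hb hnum
  have hredu := red_union E W r Q (40 * lam) h t m (by omega) hh hm hQ Rd hR2 hR3 hred
  obtain ⟨B1, hB1, hB1c⟩ : ∃ B1 : Finset (Fin r × Fin r → Fin Q), (∀ f, f ∈ B1 ↔
      ∃ u ≤ k, ∃ v ≤ k, ℓ < 2 ^ (u + 1) ∧ 2 ^ u ≤ μ ∧ ℓ < 2 ^ (v + 1) ∧ 2 ^ v ≤ μ ∧
      ∃ (d1 : Fin (2 ^ k / 2 ^ u) → Fin r × Fin (2 ^ k + 1) × Fin (2 ^ k + 1))
        (d2 : Fin (2 ^ k / 2 ^ v) → Fin r × Fin (2 ^ k + 1) × Fin (2 ^ k + 1)),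
        (∀ T, 2 ^ k * wt d1 d2 σ T ≤ 16 * 2 ^ (u + v) + 4 * 2 ^ k) ∧
        2 ^ k ≤ 2 * (k + 1) ^ 2 * ∑ T, wt d1 d2 σ T ∧
        (∑ T ∈ Finset.univ.filter (fun T => (f T : ℕ) = 0), (wt d1 d2 σ T : ℝ))
          ≤ (r : ℝ) + μ) ∧ 4 * B1.card ≤ Q ^ (r ^ 2) :=
    ex_of_filter' _ _ _ _ hblue
  obtain ⟨B2, hB2, hB2c⟩ : ∃ B2 : Finset (Fin r × Fin r → Fin Q), (∀ f, f ∈ B2 ↔
      ∃ y : Fin t → V, (∀ a b : Fin t, a < b → s(y a, y b) ∈ E) ∧
        (∀ a b a' b' : Fin t, a < b → a' < b' → W s(y a, y b) = W s(y a', y b') →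
          a = a' ∧ b = b') ∧
        ∀ a b : Fin t, a < b → ∃ T : Fin r × Fin r, (f T : ℕ) = 0 ∧
          s(y a, y b) ∈ Rd ((T.1 : ℕ), (T.2 : ℕ))) ∧ 4 * B2.card ≤ Q ^ (r ^ 2) :=
    ex_of_filter _ _ _ hredu
  have hex : ∃ f : Fin r × Fin r → Fin Q, f ∉ B1 ∧ f ∉ B2 := by
    by_contra hcon
    push Not at hcon
    have hsub : (Finset.univ : Finset (Fin r × Fin r → Fin Q)) ⊆ B1 ∪ B2 := by
      intro f _
      rw [Finset.mem_union]
      by_cases hf : f ∈ B1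
      · exact Or.inl hf
      · exact Or.inr (hcon f hf)
    have hcard := (Finset.card_le_card hsub).trans (Finset.card_union_le _ _)
    rw [Finset.card_univ, Fintype.card_fun, Fintype.card_prod, Fintype.card_fin, Fintype.card_fin,
      ← pow_two] at hcard
    have hpos : 0 < Q ^ (r ^ 2) := pow_pos hQ _
    omega
  obtain ⟨f, hf1, hf2⟩ := hex
  refine ⟨fun e => decide (∃ T : Fin r × Fin r, (f T : ℕ) = 0 ∧ e ∈ Rd ((T.1 : ℕ), (T.2 : ℕ))),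
    fun X Y R hc hcol hC1 hG => ?_⟩
  obtain ⟨b, hX, hY⟩ := hcol
  cases b with
  | true =>
    obtain ⟨p, hp⟩ := exists_spread E rk (2 ^ k) t B σ ce hce hce2 X Y R hc Lc μ C0 hLc hμ hC' hC1
    apply hf2
    rw [hB2]
    refine ⟨Y p, fun a b hab => hc.YE p a b hab.ne, hp, fun a b hab => ?_⟩
    exact of_decide_eq_true (hY p a b hab.ne)
  | false =>
    obtain ⟨A1, A2, hmA1, hmA2, hA1, hA2, hl1, hl2⟩ :=
      phases E rk (2 ^ k) t B σ ce X Y R hc Lc r μ C0 hLc hrW hC1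
    obtain ⟨u, hu, v, hv, hu1, hu2, hv1, hv2, d1, d2, hA, hwt, hlarge⟩ :=
      exists_data k σ hσ r μ ℓ C0 A1 A2 hmA1 hmA2 hl1 hl2 hC hrl
    apply hf1
    rw [hB1]
    refine ⟨u, hu, v, hv, hu1, hu2, hv1, hv2, d1, d2, hwt, ?_, ?_⟩
    · exact hlarge.trans (Nat.mul_le_mul_left _ (card_le_sum_wt σ d1 d2))
    · have hfew := few_bad E rk (2 ^ k) t B σ ce X Y R hc Lc Γ r μ hΓ hLc hrW hG
      have hsum := sum_wt_le σ d1 d2 A1 A2 hA
        (Finset.univ.filter (fun T => (f T : ℕ) = 0))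
        (Finset.univ.filter (fun p => ¬ IsUnit5 E W F (X p))) (by
          intro p T hT hcnt
          rw [Finset.mem_filter] at hT ⊢
          refine ⟨Finset.mem_univ _, fun hunit => ?_⟩
          obtain ⟨a, a', haa, hmem⟩ := hR1 (X p) (Finset.mem_filter.mpr ⟨Finset.mem_univ _, hunit⟩)
          obtain ⟨e1, e2⟩ := hA p _ _ hcnt
          have hl : lab W (X p) = ((T.1 : ℕ), (T.2 : ℕ)) := by
            unfold lab
            rw [← e1, ← e2, hA1, hA2]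
          rw [hl] at hmem
          have := hX p a a' haa
          exact absurd (⟨T, hT.2, hmem⟩ : ∃ T : Fin r × Fin r, (f T : ℕ) = 0 ∧
            s(X p a, X p a') ∈ Rd ((T.1 : ℕ), (T.2 : ℕ))) (of_decide_eq_false this))
      have : (∑ T ∈ Finset.univ.filter (fun T => (f T : ℕ) = 0), wt d1 d2 σ T) ≤ r + μ :=
        hsum.trans hfew
      exact_mod_cast this

end Pool.Agent.UCR
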