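import Pool.Agent.UCR.Defs

/-!
# UCR Core: some placed pair of a family of units lies in few labels

PROOF. Suppose not: for all `X ∈ U` and all places `a ≠ b` more than `lam` labels of units
`X' ∈ U` with `X' a = X a`, `X' b = X b`. Let `d ≠ 0` in `ZMod 5`; `W`, `F` behave well on the pairs
of difference `d` (class of `d`), and `2 d` is in the other class; `-d` in the class of `d`.
For a unit let `T_d(X) = W s(X 0, X d)` (so `lab = (T_1, T_2)`, `T_4 = T_1`, `T_3 = T_2`, use the
third condition of `IsUnit5` and `s(x, y) = s(y, x)`).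
`P_d(a) = {(X a, X (a + d)) : X ∈ U}`. For `(x, y) ∈ P_d(a)` all `X' ∈ U` with `X' a = x`,
`X' (a + d) = y` have the same `T_d`, so they have more than `lam` different values of `T_(2 d)`.
(1) Then the third vertices `z = X' (a + 2 d)` take more than `lam` values, since
`W s(x, z) = T_(2 d)(X')`; moreover `s(y, z) ∈ E`, `(y, z) ∈ P_d(a + d)` and `F s(y, z)` differs by
at most one from `F s(x, y)`.
(2) `Act_d(b, g) = {X b : X ∈ U, F s(X (b - d), X b) = g}`. By (1) (with `a = b - d`) every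
`y ∈ Act_d(b, g)` has more than `lam` many `z` with `(y, z) ∈ P_d(b)`, `s(y, z) ∈ E`,
`|F s(y, z) - g| ≤ 1`. Hence `lam * |Act_d(b, g)| ≤ 6 L` (three windows, at most `L` pairs in each,
two orientations), and `lam * ∑_g |Act_d(b, g)| ≤ 3 |P_d(b)|` (each `(y, z)` for at most three
`g`).
(3) Let `(x, y) ∈ P_d(a)`. For `X' ∈ U` with `X' a = x`, `X' (a + d) = y` put
`g' = F s(X' (a - 2 d), X' a)`, `g'' = F s(X' (a + d - 2 d), X' (a + d))`; then `|g' - g''| ≤ 1`,
`x ∈ Act_(2 d)(a, g')`, `y ∈ Act_(2 d)(a + d, g'')`, and `T_(2 d)(X')` is one of the at most two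
coarse windows of edges in the fine window `g'` (`hW`). So the number of values `g'` is at least
`lam / 2`, and `lam |P_d(a)| ≤ 2 ∑_g' |Act_(2 d)(a, g')| ∑_(|g'' - g'| ≤ 1) |Act_(2 d)(a + d, g'')|`.
Multiply by `lam ^ 2` and use (2) twice:
`lam ^ 3 |P_d(a)| ≤ 2 * (3 * 6 L) * 3 |P_(2 d)(a)| = 108 L |P_(2 d)(a)|`.
(4) Use this for `d, 2 d, 4 d, 8 d` (and `16 d = d`): `lam ^ 12 |P_d(a)| ≤ (108 L) ^ 4 |P_d(a)|`, so
`P_d(a)` is empty, contradiction to `U` nonempty.
-/

set_option autoImplicit false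

namespace Pool.Agent.UCR

section CoreAux

variable {V : Type}

private lemma key_W {E : Finset (Sym2 V)} {W F : Sym2 V → ℕ} {Z : ZMod 5 → V}
    (hZ : IsUnit5 E W F Z) (d a : ZMod 5) (hd : d ≠ 0) :
    W s(Z a, Z (a + d)) = if d = 1 ∨ d = 4 then W s(Z 0, Z 1) else W s(Z 0, Z 2) := by
  rw [(hZ.2.2 a 0 d hd).1]
  have h4 : W s(Z 4, Z (4 + 1)) = W s(Z 0, Z (0 + 1)) := (hZ.2.2 4 0 1 (by decide)).1
  have h3 : W s(Z 3, Z (3 + 2)) = W s(Z 0, Z (0 + 2)) := (hZ.2.2 3 0 2 (by decide)).1
  have e4 : (4 : ZMod 5) + 1 = 0 := by decide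
  have e3 : (3 : ZMod 5) + 2 = 0 := by decide
  have e1 : (0 : ZMod 5) + 1 = 1 := by decide
  have e2 : (0 : ZMod 5) + 2 = 2 := by decide
  rw [e4, e1, Sym2.eq_swap] at h4
  rw [e3, e2, Sym2.eq_swap] at h3
  have hc : ∀ c : ZMod 5, c ≠ 0 → c = 1 ∨ c = 2 ∨ c = 3 ∨ c = 4 := by decide
  have z : ∀ c : ZMod 5, 0 + c = c := by decide
  rw [z d]
  rcases hc d hd with h | h | h | h
  · subst h; rw [if_pos (by decide)]
  · subst h; rw [if_neg (by decide)]
  · subst h; rw [if_neg (by decide)]; exact h3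
  · subst h; rw [if_pos (by decide)]; exact h4

private lemma lab_eq {E : Finset (Sym2 V)} {W F : Sym2 V → ℕ} {X Y : ZMod 5 → V}
    (hX : IsUnit5 E W F X) (hY : IsUnit5 E W F Y) {d a b : ZMod 5} (hd : d ≠ 0)
    (h1 : W s(X a, X (a + d)) = W s(Y a, Y (a + d)))
    (h2 : W s(X b, X (b + 2 * d)) = W s(Y b, Y (b + 2 * d))) : lab W X = lab W Y := by
  have hd2 : ∀ c : ZMod 5, c ≠ 0 → 2 * c ≠ 0 := by decide
  have hsw : ∀ c : ZMod 5, c ≠ 0 → ((c = 1 ∨ c = 4) ↔ ¬ (2 * c = 1 ∨ 2 * c = 4)) := by decide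
  rw [key_W hX d a hd, key_W hY d a hd] at h1
  rw [key_W hX (2 * d) b (hd2 d hd), key_W hY (2 * d) b (hd2 d hd)] at h2
  unfold lab
  by_cases h : d = 1 ∨ d = 4
  · have h' := (hsw d hd).1 h
    rw [if_pos h, if_pos h] at h1
    rw [if_neg h', if_neg h'] at h2
    rw [h1, h2]
  · have h' : 2 * d = 1 ∨ 2 * d = 4 := by
      by_contra h'
      exact h ((hsw d hd).2 h')
    rw [if_neg h, if_neg h] at h1
    rw [if_pos h', if_pos h'] at h2
    rw [h1, h2]

/-- ordered pairs at the places `a`, `a + d` -/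
private def PP [DecidableEq V] (U : Finset (ZMod 5 → V)) (d a : ZMod 5) : Finset (V × V) :=
  U.image (fun X => (X a, X (a + d)))

/-- second vertices of the pairs at the places `a`, `a + d` in the fine window `g` -/
private def Act [DecidableEq V] (F : Sym2 V → ℕ) (U : Finset (ZMod 5 → V)) (d a : ZMod 5)
    (g : ℕ) : Finset V :=
  (U.filter (fun X => F s(X a, X (a + d)) = g)).image (fun X => X (a + d))

/-- pairs at the places `a + d`, `a + 2 d` in the fine windows next to `g` -/
private def QQ [DecidableEq V] (F : Sym2 V → ℕ) (U : Finset (ZMod 5 → V)) (d a : ZMod 5)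
    (g : ℕ) : Finset (V × V) :=
  (PP U d (a + d)).filter (fun p => F s(p.1, p.2) ≤ g + 1 ∧ g ≤ F s(p.1, p.2) + 1)

/-- the negation of the goal -/
private def Neg [DecidableEq V] (W : Sym2 V → ℕ) (lam : ℕ) (U : Finset (ZMod 5 → V)) : Prop :=
  ∀ X ∈ U, ∀ a b : ZMod 5, a ≠ b →
    lam < ((U.filter (fun X' => X' a = X a ∧ X' b = X b)).image (lab W)).card

variable [DecidableEq V]

/-- (1) many third vertices -/
private lemma third {E : Finset (Sym2 V)} {W F : Sym2 V → ℕ} {lam : ℕ}
    {U : Finset (ZMod 5 → V)} (hU : ∀ X ∈ U, IsUnit5 E W F X) (hn : Neg W lam U)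
    {d a : ZMod 5} (hd : d ≠ 0) {X : ZMod 5 → V} (hX : X ∈ U) :
    lam < ((U.filter (fun X' => X' a = X a ∧ X' (a + d) = X (a + d))).image
      (fun X' => X' (a + 2 * d))).card := by
  have hab : a ≠ a + d := by
    intro h
    exact hd (left_eq_add.1 h)
  refine lt_of_lt_of_le (hn X hX a (a + d) hab) ?_
  -- the label is a function of the third vertex
  have hf : ∀ Y ∈ U.filter (fun X' => X' a = X a ∧ X' (a + d) = X (a + d)),
      ∀ Z ∈ U.filter (fun X' => X' a = X a ∧ X' (a + d) = X (a + d)),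
      Y (a + 2 * d) = Z (a + 2 * d) → lab W Y = lab W Z := by
    intro Y hY Z hZ h
    rw [Finset.mem_filter] at hY hZ
    refine lab_eq (hU Y hY.1) (hU Z hZ.1) (a := a) (b := a) hd ?_ ?_
    · rw [hY.2.1, hY.2.2, hZ.2.1, hZ.2.2]
    · rw [hY.2.1, hZ.2.1, h]
  classical
  set S := U.filter (fun X' => X' a = X a ∧ X' (a + d) = X (a + d)) with hS
  -- choose representatives
  have : Nonempty (ZMod 5 → V) := ⟨X⟩
  have hch : ∀ l ∈ S.image (lab W), ∃ Y ∈ S, lab W Y = l := by
    intro l hl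
    simpa using hl
  choose! f hf1 hf2 using hch
  refine Finset.card_le_card_of_injOn (fun l => f l (a + 2 * d)) ?_ ?_
  · intro l hl
    exact Finset.mem_coe.2 (Finset.mem_image_of_mem _ (hf1 l (Finset.mem_coe.1 hl)))
  · intro l hl l' hl' h
    have h1 := hf (f l) (hf1 l hl) (f l') (hf1 l' hl') h
    rw [hf2 l hl, hf2 l' hl'] at h1
    exact h1

/-- (2) the basic count -/
private lemma act_le {E : Finset (Sym2 V)} {W F : Sym2 V → ℕ} {lam : ℕ}
    {U : Finset (ZMod 5 → V)} (hU : ∀ X ∈ U, IsUnit5 E W F X) (hn : Neg W lam U)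
    {d : ZMod 5} (a : ZMod 5) (hd : d ≠ 0) (g : ℕ) :
    lam * (Act F U d a g).card ≤ (QQ F U d a g).card := by
  rw [mul_comm, ← smul_eq_mul]
  have hmap : ∀ p ∈ (QQ F U d a g).filter (fun p => p.1 ∈ Act F U d a g),
      p.1 ∈ Act F U d a g := by
    intro p hp
    exact (Finset.mem_filter.1 hp).2
  refine le_trans ?_ (Finset.card_le_card (Finset.filter_subset (fun p => p.1 ∈ Act F U d a g) _))
  rw [Finset.card_eq_sum_card_fiberwise hmap]
  refine Finset.card_nsmul_le_sum _ _ _ ?_
  intro y hy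
  unfold Act at hy
  rw [Finset.mem_image] at hy
  obtain ⟨X, hX, rfl⟩ := hy
  rw [Finset.mem_filter] at hX
  refine le_trans (le_of_lt (third hU hn (a := a) hd hX.1)) ?_
  refine Finset.card_le_card_of_injOn (fun z => (X (a + d), z)) ?_ ?_
  · intro z hz
    rw [Finset.mem_coe, Finset.mem_image] at hz
    obtain ⟨Y, hY, rfl⟩ := hz
    rw [Finset.mem_filter] at hY
    have e2 : a + d + d = a + 2 * d := by ring
    rw [Finset.mem_coe, Finset.mem_filter, Finset.mem_filter]
    refine ⟨⟨?_, ?_⟩, rfl⟩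
    · unfold QQ PP
      rw [Finset.mem_filter, Finset.mem_image]
      refine ⟨⟨Y, hY.1, ?_⟩, ?_⟩
      · simp only [Prod.mk.injEq]
        exact ⟨hY.2.2, by rw [e2]⟩
      · have h1 := ((hU Y hY.1).2.2 (a + d) a d hd).2
        have h2 := ((hU Y hY.1).2.2 a (a + d) d hd).2
        rw [e2] at h1 h2
        rw [hY.2.1, hY.2.2, hX.2] at h1 h2
        exact ⟨h1, h2⟩
    · unfold Act
      exact Finset.mem_image_of_mem _ (Finset.mem_filter.2 hX)
  · intro z _ z' _ h
    simpa using h

/-- the window contains few pairs -/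
private lemma QQ_le {E : Finset (Sym2 V)} {W F : Sym2 V → ℕ} {L : ℕ}
    (hL : ∀ g, (E.filter (fun e => F e = g)).card ≤ L)
    {U : Finset (ZMod 5 → V)} (hU : ∀ X ∈ U, IsUnit5 E W F X)
    {d : ZMod 5} (a : ZMod 5) (hd : d ≠ 0) (g : ℕ) :
    (QQ F U d a g).card ≤ 6 * L := by
  have h3 : (E.filter (fun e => F e ≤ g + 1 ∧ g ≤ F e + 1)).card ≤ 3 * L := by
    have hsub : E.filter (fun e => F e ≤ g + 1 ∧ g ≤ F e + 1) ⊆
        (E.filter (fun e => F e = g - 1)) ∪ ((E.filter (fun e => F e = g)) ∪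
          (E.filter (fun e => F e = g + 1))) := by
      intro e he
      rw [Finset.mem_filter] at he
      simp only [Finset.mem_union, Finset.mem_filter]
      rcases Nat.lt_trichotomy (F e) g with h | h | h
      · exact Or.inl ⟨he.1, by omega⟩
      · exact Or.inr (Or.inl ⟨he.1, h⟩)
      · exact Or.inr (Or.inr ⟨he.1, by omega⟩)
    refine le_trans (Finset.card_le_card hsub) ?_
    refine le_trans (Finset.card_union_le _ _) ?_
    have := Finset.card_union_le (E.filter (fun e => F e = g)) (E.filter (fun e => F e = g + 1))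
    have h1 := hL (g - 1)
    have h2 := hL g
    have h4 := hL (g + 1)
    omega
  have hmap : ∀ p ∈ QQ F U d a g, s(p.1, p.2) ∈
      E.filter (fun e => F e ≤ g + 1 ∧ g ≤ F e + 1) := by
    intro p hp
    unfold QQ PP at hp
    rw [Finset.mem_filter, Finset.mem_image] at hp
    obtain ⟨⟨X, hX, rfl⟩, h⟩ := hp
    rw [Finset.mem_filter]
    refine ⟨?_, h⟩
    refine (hU X hX).2.1 _ _ ?_
    intro h
    exact hd (left_eq_add.1 h)
  rw [Finset.card_eq_sum_card_fiberwise hmap]
  refine le_trans (Finset.sum_le_card_nsmul _ _ 2 ?_) ?_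
  · intro e _
    induction e using Sym2.ind with
    | _ x y =>
      have hsub : (QQ F U d a g).filter (fun p => s(p.1, p.2) = s(x, y)) ⊆ {(x, y), (y, x)} := by
        intro p hp
        rw [Finset.mem_filter, Sym2.eq_iff] at hp
        rw [Finset.mem_insert, Finset.mem_singleton]
        rcases hp.2 with ⟨h1, h2⟩ | ⟨h1, h2⟩
        · exact Or.inl (Prod.ext h1 h2)
        · exact Or.inr (Prod.ext h1 h2)
      exact le_trans (Finset.card_le_card hsub) Finset.card_le_two
  · rw [smul_eq_mul]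
    omega

/-- three windows next to a number -/
private lemma near_le (G : Finset ℕ) (m : ℕ) :
    (G.filter (fun g => m ≤ g + 1 ∧ g ≤ m + 1)).card ≤ 3 := by
  have hsub : G.filter (fun g => m ≤ g + 1 ∧ g ≤ m + 1) ⊆ {m - 1, m, m + 1} := by
    intro g hg
    rw [Finset.mem_filter] at hg
    simp only [Finset.mem_insert, Finset.mem_singleton]
    omega
  exact le_trans (Finset.card_le_card hsub) Finset.card_le_three

/-- (2) the sum over the windows -/
private lemma sum_QQ_le (F : Sym2 V → ℕ) (U : Finset (ZMod 5 → V)) (d a : ZMod 5)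
    (G : Finset ℕ) :
    ∑ g ∈ G, (QQ F U d a g).card ≤ 3 * (PP U d (a + d)).card := by
  unfold QQ
  simp only [Finset.card_filter]
  rw [Finset.sum_comm]
  refine le_trans (Finset.sum_le_card_nsmul _ _ 3 ?_) ?_
  · intro p _
    rw [← Finset.card_filter]
    exact near_le G _
  · rw [smul_eq_mul, mul_comm]

/-- (3) the main inequality -/
private lemma main_ineq {E : Finset (Sym2 V)} {W F : Sym2 V → ℕ} {L lam : ℕ}
    (hL : ∀ g, (E.filter (fun e => F e = g)).card ≤ L)
    (hW : ∀ g, ((E.filter (fun e => F e = g)).image W).card ≤ 2)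
    {U : Finset (ZMod 5 → V)} (hU : ∀ X ∈ U, IsUnit5 E W F X) (hn : Neg W lam U)
    {d : ZMod 5} (a : ZMod 5) (hd : d ≠ 0) :
    lam ^ 3 * (PP U d a).card ≤ 108 * L * (PP U (2 * d) a).card := by
  have hd2 : 2 * d ≠ 0 := by
    have : ∀ c : ZMod 5, c ≠ 0 → 2 * c ≠ 0 := by decide
    exact this d hd
  set G : Finset ℕ := E.image F with hG
  -- the set of pairs (pair, fine window)
  set R : Finset ((V × V) × ℕ) := U.image (fun X =>
    ((X a, X (a + d)), F s(X (a - 2 * d), X (a - 2 * d + 2 * d)))) with hR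
  have e1 : a - 2 * d + 2 * d = a := by ring
  have e2 : a - d + 2 * d = a + d := by ring
  -- each pair is in many elements of R
  have hlow : lam * (PP U d a).card ≤ 2 * R.card := by
    have hmap : ∀ q ∈ R, q.1 ∈ PP U d a := by
      intro q hq
      rw [hR, Finset.mem_image] at hq
      obtain ⟨X, hX, rfl⟩ := hq
      exact Finset.mem_image_of_mem _ hX
    rw [Finset.card_eq_sum_card_fiberwise hmap, Finset.mul_sum, mul_comm, ← smul_eq_mul]
    refine Finset.card_nsmul_le_sum _ _ _ ?_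
    intro p hp
    unfold PP at hp
    rw [Finset.mem_image] at hp
    obtain ⟨X, hX, rfl⟩ := hp
    have hab : a ≠ a + d := by
      intro h
      exact hd (left_eq_add.1 h)
    refine le_trans (le_of_lt (hn X hX a (a + d) hab)) ?_
    set S := U.filter (fun X' => X' a = X a ∧ X' (a + d) = X (a + d)) with hS
    -- fine windows used
    set G' : Finset ℕ := S.image (fun Y => F s(Y (a - 2 * d), Y (a - 2 * d + 2 * d))) with hG'
    have hGR : G'.card ≤ (R.filter (fun q => q.1 = (X a, X (a + d)))).card := by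
      refine Finset.card_le_card_of_injOn (fun g => ((X a, X (a + d)), g)) ?_ ?_
      · intro g hg
        rw [Finset.mem_coe, hG', Finset.mem_image] at hg
        obtain ⟨Y, hY, rfl⟩ := hg
        rw [hS, Finset.mem_filter] at hY
        rw [Finset.mem_coe, Finset.mem_filter]
        refine ⟨?_, rfl⟩
        rw [hR, Finset.mem_image]
        refine ⟨Y, hY.1, ?_⟩
        rw [hY.2.1, hY.2.2]
      · intro g _ g' _ h
        simpa using h
    have hT : (S.image (lab W)).card ≤
        (G'.biUnion (fun g => (E.filter (fun e => F e = g)).image W)).card := by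
      have : Nonempty (ZMod 5 → V) := ⟨X⟩
      have hch : ∀ l ∈ S.image (lab W), ∃ Y ∈ S, lab W Y = l := by
        intro l hl
        simpa using hl
      choose! f hf1 hf2 using hch
      refine Finset.card_le_card_of_injOn
        (fun l => W s(f l (a - 2 * d), f l (a - 2 * d + 2 * d))) ?_ ?_
      · intro l hl
        have hfl := hf1 l (Finset.mem_coe.1 hl)
        have hfU : f l ∈ U := (Finset.mem_filter.1 hfl).1
        rw [Finset.mem_coe, Finset.mem_biUnion]
        refine ⟨F s(f l (a - 2 * d), f l (a - 2 * d + 2 * d)),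
          Finset.mem_image_of_mem _ hfl, ?_⟩
        refine Finset.mem_image_of_mem W (Finset.mem_filter.2 ⟨?_, rfl⟩)
        refine (hU _ hfU).2.1 _ _ ?_
        intro h
        exact hd2 (left_eq_add.1 h)
      · intro l hl l' hl' h
        have hfl := Finset.mem_filter.1 (hf1 l (Finset.mem_coe.1 hl))
        have hfl' := Finset.mem_filter.1 (hf1 l' (Finset.mem_coe.1 hl'))
        have h1 : lab W (f l) = lab W (f l') := by
          refine lab_eq (hU _ hfl.1) (hU _ hfl'.1) (a := a) (b := a - 2 * d) hd ?_ h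
          rw [hfl.2.1, hfl.2.2, hfl'.2.1, hfl'.2.2]
        rw [hf2 l hl, hf2 l' hl'] at h1
        exact h1
    refine le_trans hT ?_
    refine le_trans Finset.card_biUnion_le ?_
    refine le_trans (Finset.sum_le_card_nsmul _ _ 2 (fun g _ => hW g)) ?_
    rw [smul_eq_mul]
    omega
  -- R is covered by products of active sets
  have hup : R.card ≤ ∑ g ∈ G, ∑ g' ∈ G.filter (fun g' => g ≤ g' + 1 ∧ g' ≤ g + 1),
      (Act F U (2 * d) (a - 2 * d) g).card * (Act F U (2 * d) (a - d) g').card := by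
    have hsub : R ⊆ G.biUnion (fun g => (G.filter (fun g' => g ≤ g' + 1 ∧ g' ≤ g + 1)).biUnion
        (fun g' => ((Act F U (2 * d) (a - 2 * d) g) ×ˢ (Act F U (2 * d) (a - d) g')).image
          (fun p => (p, g)))) := by
      intro q hq
      rw [hR, Finset.mem_image] at hq
      obtain ⟨X, hX, rfl⟩ := hq
      have hne1 : a - 2 * d ≠ a - 2 * d + 2 * d := by
        intro h
        exact hd2 (left_eq_add.1 h)
      have hne2 : a - d ≠ a - d + 2 * d := by
        intro h
        exact hd2 (left_eq_add.1 h)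
      rw [Finset.mem_biUnion]
      refine ⟨F s(X (a - 2 * d), X (a - 2 * d + 2 * d)),
        Finset.mem_image_of_mem _ ((hU X hX).2.1 _ _ hne1), ?_⟩
      rw [Finset.mem_biUnion]
      refine ⟨F s(X (a - d), X (a - d + 2 * d)), ?_, ?_⟩
      · rw [Finset.mem_filter]
        exact ⟨Finset.mem_image_of_mem _ ((hU X hX).2.1 _ _ hne2),
          ((hU X hX).2.2 _ _ _ hd2).2, ((hU X hX).2.2 _ _ _ hd2).2⟩
      · rw [Finset.mem_image]
        refine ⟨(X a, X (a + d)), ?_, rfl⟩
        rw [Finset.mem_product]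
        unfold Act
        constructor
        · rw [Finset.mem_image]
          exact ⟨X, Finset.mem_filter.2 ⟨hX, rfl⟩, by rw [e1]⟩
        · rw [Finset.mem_image]
          exact ⟨X, Finset.mem_filter.2 ⟨hX, rfl⟩, by rw [e2]⟩
    refine le_trans (Finset.card_le_card hsub) ?_
    refine le_trans Finset.card_biUnion_le ?_
    refine Finset.sum_le_sum ?_
    intro g _
    refine le_trans Finset.card_biUnion_le ?_
    refine Finset.sum_le_sum ?_
    intro g' _
    refine le_trans Finset.card_image_le ?_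
    rw [Finset.card_product]
  -- (2) for the second factor
  have hsec : ∀ g, lam * (Act F U (2 * d) (a - d) g).card ≤ 6 * L := fun g =>
    le_trans (act_le hU hn (a - d) hd2 g) (QQ_le hL hU (a - d) hd2 g)
  have hfst : lam * ∑ g ∈ G, (Act F U (2 * d) (a - 2 * d) g).card
      ≤ 3 * (PP U (2 * d) a).card := by
    rw [Finset.mul_sum]
    refine le_trans (Finset.sum_le_sum (fun g _ => act_le hU hn (a - 2 * d) hd2 g)) ?_
    have := sum_QQ_le F U (2 * d) (a - 2 * d) G
    rw [e1] at this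
    exact this
  have hinner : ∀ g ∈ G, lam * ∑ g' ∈ G.filter (fun g' => g ≤ g' + 1 ∧ g' ≤ g + 1),
      (Act F U (2 * d) (a - 2 * d) g).card * (Act F U (2 * d) (a - d) g').card
      ≤ (Act F U (2 * d) (a - 2 * d) g).card * (18 * L) := by
    intro g _
    rw [Finset.mul_sum]
    have h1 : ∀ g' ∈ G.filter (fun g' => g ≤ g' + 1 ∧ g' ≤ g + 1),
        lam * ((Act F U (2 * d) (a - 2 * d) g).card * (Act F U (2 * d) (a - d) g').card)
        ≤ (Act F U (2 * d) (a - 2 * d) g).card * (6 * L) := by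
      intro g' _
      calc lam * ((Act F U (2 * d) (a - 2 * d) g).card * (Act F U (2 * d) (a - d) g').card)
          = (Act F U (2 * d) (a - 2 * d) g).card *
            (lam * (Act F U (2 * d) (a - d) g').card) := by ring
        _ ≤ _ := Nat.mul_le_mul_left _ (hsec g')
    refine le_trans (Finset.sum_le_card_nsmul _ _ _ h1) ?_
    rw [smul_eq_mul]
    calc _ ≤ 3 * ((Act F U (2 * d) (a - 2 * d) g).card * (6 * L)) :=
          Nat.mul_le_mul_right _ (near_le G g)
      _ = _ := by ring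
  have hRlam : lam * R.card ≤ (∑ g ∈ G, (Act F U (2 * d) (a - 2 * d) g).card) * (18 * L) := by
    calc lam * R.card ≤ lam * ∑ g ∈ G, ∑ g' ∈ G.filter (fun g' => g ≤ g' + 1 ∧ g' ≤ g + 1),
          (Act F U (2 * d) (a - 2 * d) g).card * (Act F U (2 * d) (a - d) g').card :=
          Nat.mul_le_mul_left _ hup
      _ = ∑ g ∈ G, lam * ∑ g' ∈ G.filter (fun g' => g ≤ g' + 1 ∧ g' ≤ g + 1),
          (Act F U (2 * d) (a - 2 * d) g).card * (Act F U (2 * d) (a - d) g').card := by
          rw [Finset.mul_sum]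
      _ ≤ ∑ g ∈ G, (Act F U (2 * d) (a - 2 * d) g).card * (18 * L) :=
          Finset.sum_le_sum hinner
      _ = _ := by rw [Finset.sum_mul]
  calc lam ^ 3 * (PP U d a).card = lam * (lam * (lam * (PP U d a).card)) := by ring
    _ ≤ lam * (lam * (2 * R.card)) :=
        Nat.mul_le_mul_left _ (Nat.mul_le_mul_left _ hlow)
    _ = 2 * (lam * (lam * R.card)) := by ring
    _ ≤ 2 * (lam * ((∑ g ∈ G, (Act F U (2 * d) (a - 2 * d) g).card) * (18 * L))) :=
        Nat.mul_le_mul_left _ (Nat.mul_le_mul_left _ hRlam)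
    _ = (lam * ∑ g ∈ G, (Act F U (2 * d) (a - 2 * d) g).card) * (36 * L) := by ring
    _ ≤ (3 * (PP U (2 * d) a).card) * (36 * L) := Nat.mul_le_mul_right _ hfst
    _ = 108 * L * (PP U (2 * d) a).card := by ring

end CoreAux

/-- Core lemma, see the module docstring for the proof. -/
theorem core {V : Type} [DecidableEq V] (E : Finset (Sym2 V)) (W F : Sym2 V → ℕ) (L lam : ℕ)
    (hL : ∀ g, (E.filter (fun e => F e = g)).card ≤ L)
    (hW : ∀ g, ((E.filter (fun e => F e = g)).image W).card ≤ 2)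
    (hlam : 108 * L < lam ^ 3)
    (U : Finset (ZMod 5 → V)) (hU : ∀ X ∈ U, IsUnit5 E W F X) (hne : U.Nonempty) :
    ∃ X ∈ U, ∃ a b : ZMod 5, a ≠ b ∧
      ((U.filter (fun X' => X' a = X a ∧ X' b = X b)).image (lab W)).card ≤ lam := by
  by_contra hcon
  have hn : Neg W lam U := by
    intro X hX a b hab
    by_contra h
    exact hcon ⟨X, hX, a, b, hab, not_lt.1 h⟩
  have hpos : ∀ d : ZMod 5, 0 < (PP U d 0).card := fun d =>
    Finset.card_pos.2 (hne.image _)
  have hstep : ∀ d : ZMod 5, d ≠ 0 → (PP U d 0).card < (PP U (2 * d) 0).card := by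
    intro d hd
    have h1 := main_ineq hL hW hU hn 0 hd
    have h2 : 108 * L * (PP U (2 * d) 0).card < lam ^ 3 * (PP U (2 * d) 0).card :=
      Nat.mul_lt_mul_of_pos_right hlam (hpos _)
    exact lt_of_mul_lt_mul_left (lt_of_le_of_lt h1 h2) (Nat.zero_le _)
  have h1 := hstep 1 (by decide)
  have h2 := hstep (2 * 1) (by decide)
  have h3 := hstep (2 * (2 * 1)) (by decide)
  have h4 := hstep (2 * (2 * (2 * 1))) (by decide)
  have e : (2 * (2 * (2 * (2 * 1))) : ZMod 5) = 1 := by decide
  rw [e] at h4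
  omega

end Pool.Agent.UCR
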