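import Mathlib

/-!
# Definitions for UCR (irregular monochromatic copies, MP_50aaeb_co)

Host: a finite set `E` of pairs of `V` with a rank `rk`; `W` = coarse window, `F` = fine window
of a pair. A unit is an injective placement `X` of the five places `ZMod 5` in `V`; the pairs of
places with difference `1` or `4` form class 1 (a pentagon), those with difference `2` or `3`
class 2 (a pentagram). The coarse windows are constant on each class, the fine windows vary by at
most one on each class. The label of a unit is the pair of its two coarse windows.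
-/

set_option autoImplicit false

namespace Pool.Agent.UCR

/-- a placed unit, see the module docstring -/
def IsUnit5 {V : Type} (E : Finset (Sym2 V)) (W F : Sym2 V → ℕ) (X : ZMod 5 → V) : Prop :=
  Function.Injective X ∧ (∀ a b : ZMod 5, a ≠ b → s(X a, X b) ∈ E) ∧
    ∀ a b d : ZMod 5, d ≠ 0 → W s(X a, X (a + d)) = W s(X b, X (b + d)) ∧
      F s(X a, X (a + d)) ≤ F s(X b, X (b + d)) + 1

/-- the label of a unit: coarse window of class 1, coarse window of class 2 -/
def lab {V : Type} (W : Sym2 V → ℕ) (X : ZMod 5 → V) : ℕ × ℕ :=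
  (W s(X 0, X 1), W s(X 0, X 2))

/-- The two permutations of positions are almost independent: `σ` sends few points of an interval
into an interval. -/
def Mixing (k : ℕ) (σ : Equiv.Perm (Fin (2 ^ k))) : Prop :=
  ∀ l h l' h' : ℕ,
    2 ^ k * (Finset.univ.filter (fun p : Fin (2 ^ k) =>
      l ≤ (p : ℕ) ∧ (p : ℕ) < h ∧ l' ≤ (σ p : ℕ) ∧ (σ p : ℕ) < h')).card
      ≤ 4 * (h - l) * (h' - l') + 4 * 2 ^ k

/-- `d1`, `d2` are lists of triples (window, left end, right end). `Cnt d1 d2 σ p i j`: the position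
`p` lies in an interval of `d1` with window `i`, and `σ p` in an interval of `d2` with window
`j`. -/
def Cnt {M r x1 x2 : ℕ} (d1 : Fin x1 → Fin r × Fin (M + 1) × Fin (M + 1))
    (d2 : Fin x2 → Fin r × Fin (M + 1) × Fin (M + 1)) (σ : Equiv.Perm (Fin M)) (p : Fin M)
    (i j : Fin r) : Prop :=
  (∃ s, (d1 s).1 = i ∧ ((d1 s).2.1 : ℕ) ≤ (p : ℕ) ∧ (p : ℕ) < ((d1 s).2.2 : ℕ)) ∧
    ∃ s, (d2 s).1 = j ∧ ((d2 s).2.1 : ℕ) ≤ (σ p : ℕ) ∧ (σ p : ℕ) < ((d2 s).2.2 : ℕ)

open Classical in
/-- number of positions counted for the label `(i, j)` -/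
noncomputable def wt {M r x1 x2 : ℕ} (d1 : Fin x1 → Fin r × Fin (M + 1) × Fin (M + 1))
    (d2 : Fin x2 → Fin r × Fin (M + 1) × Fin (M + 1)) (σ : Equiv.Perm (Fin M))
    (T : Fin r × Fin r) : ℕ :=
  (Finset.univ.filter (fun p : Fin M => Cnt d1 d2 σ p T.1 T.2)).card

/-- The data of an order preserving copy of the designed graph: units `X p`, cliques `Y p`, ranks
`R i` of the edges in their order `i = 0, 1, ..`: first the class 1 edges of the units `0, 1, ..`
(five consecutive edges for each unit), then the class 2 edges of the units in the order `σ`, then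
`B` rounds, round `h` contains the edge number `h` of each clique. -/
structure IsCopy {V : Type} (E : Finset (Sym2 V)) (rk : Sym2 V → ℕ) (M t B : ℕ)
    (σ : Equiv.Perm (Fin M)) (ce : Fin B → Fin t × Fin t)
    (X : Fin M → ZMod 5 → V) (Y : Fin M → Fin t → V) (R : ℕ → ℕ) : Prop where
  Xinj : ∀ p, Function.Injective (X p)
  Yinj : ∀ p, Function.Injective (Y p)
  XE : ∀ p (a b : ZMod 5), a ≠ b → s(X p a, X p b) ∈ E
  YE : ∀ p (a b : Fin t), a ≠ b → s(Y p a, Y p b) ∈ E
  mono : ∀ i j : ℕ, i < j → j < (10 + B) * M → R i < R j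
  R1 : ∀ p (c : ZMod 5), rk s(X p c, X p (c + 1)) = R (5 * (p : ℕ) + c.val)
  R2 : ∀ p (c : ZMod 5), rk s(X p c, X p (c + 2)) = R (5 * M + 5 * (σ p : ℕ) + c.val)
  R3 : ∀ (h : Fin B) p, rk s(Y p (ce h).1, Y p (ce h).2) = R (10 * M + (h : ℕ) * M + (p : ℕ))

end Pool.Agent.UCR
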