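import Pool.Agent.UCR.Stmt

/-!
# UCR Design: the graph `H` and its order

PROOF. `M = 2 ^ k`. Vertices: `u p c = 5 p + c.val` (`c : ZMod 5`, `c.val < 5`),
`v p s = 5 M + t p + s`; all these numbers are distinct and less than `(5 + t) M ≤ n`. Index type of
the edges: `(Fin M × ZMod 5) ⊕ (Fin M × ZMod 5) ⊕ (Fin B × Fin M)`, position and edge:
`inl (p, c)`: `5 p + c`, `s(u p c, u p (c + 1))`; `inr (inl (p, c))`: `5 M + 5 σ p + c`,
`s(u p c, u p (c + 2))`; `inr (inr (h, p))`: `10 M + h M + p`, `s(v p (ce h).1, v p (ce h).2)`.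
The edge map is injective with values off the diagonal (in `ZMod 5`: `{c, c + 1} = {c', c' + 1}`
implies `c = c'`, same with `2`, and `{c, c + 1} ≠ {c', c' + 2}`: `decide`), the position map is a
bijection onto `[0, (10 + B) M)`. `H.Adj x y` iff `s(x, y)` is in the range of the edge map
(`SimpleGraph.fromEdgeSet`), `g e` = position of the index of `e` (choose; `0` if there is none).
Degree: the neighbours of a vertex of the unit `p` are the other vertices of the unit (at most 5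
`≤ t`), those of a vertex of the clique `p` are in the clique `p` (`t` vertices), other vertices
have no neighbours.
`ue`: two different places differ by 1, 4 (edge of class 1) or 2, 3 (class 2). `ve`: `hce2`.
-/

set_option autoImplicit false

namespace Pool.Agent.UCR

section Design

variable {M t B n : ℕ}

/-- index type of the edges -/
private abbrev Ix (M B : ℕ) : Type := (Fin M × ZMod 5) ⊕ (Fin M × ZMod 5) ⊕ (Fin B × Fin M)

private theorem val5 (c : ZMod 5) : c.val < 5 := ZMod.val_lt c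

private theorem madd {t p s p' s' : ℕ} (hs : s < t) (hs' : s' < t) (h : t * p + s = t * p' + s') :
    p = p' ∧ s = s' := by
  rcases lt_trichotomy p p' with h1 | h1 | h1
  · have h2 : t * (p + 1) ≤ t * p' := Nat.mul_le_mul_left _ h1
    rw [Nat.mul_succ] at h2
    omega
  · subst h1
    exact ⟨rfl, by omega⟩
  · have h2 : t * (p' + 1) ≤ t * p := Nat.mul_le_mul_left _ h1
    rw [Nat.mul_succ] at h2
    omega

private theorem ulta (hn : (5 + t) * M ≤ n) (p : Fin M) (c : ZMod 5) :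
    5 * (p : ℕ) + c.val < n := by
  have h1 := p.2
  have h2 := val5 c
  have h3 : (5 + t) * M = 5 * M + t * M := Nat.add_mul _ _ _
  omega

private theorem vlta (hn : (5 + t) * M ≤ n) (p : Fin M) (s : Fin t) :
    5 * M + t * (p : ℕ) + (s : ℕ) < n := by
  have h1 : t * ((p : ℕ) + 1) ≤ t * M := Nat.mul_le_mul_left _ p.2
  rw [Nat.mul_succ] at h1
  have h2 := s.2
  have h3 : (5 + t) * M = 5 * M + t * M := Nat.add_mul _ _ _
  omega

/-- vertices of the units -/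
private def uu (hn : (5 + t) * M ≤ n) (p : Fin M) (c : ZMod 5) : Fin n :=
  ⟨5 * (p : ℕ) + c.val, ulta hn p c⟩

/-- vertices of the cliques -/
private def vv (hn : (5 + t) * M ≤ n) (p : Fin M) (s : Fin t) : Fin n :=
  ⟨5 * M + t * (p : ℕ) + (s : ℕ), vlta hn p s⟩

private theorem uu_inj (hn : (5 + t) * M ≤ n) {p p' : Fin M} {c c' : ZMod 5}
    (h : uu hn p c = uu hn p' c') : p = p' ∧ c = c' := by
  have h1 : 5 * (p : ℕ) + c.val = 5 * (p' : ℕ) + c'.val := congrArg Fin.val h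
  obtain ⟨h2, h3⟩ := madd (val5 c) (val5 c') h1
  exact ⟨Fin.ext h2, ZMod.val_injective 5 h3⟩

private theorem vv_inj (hn : (5 + t) * M ≤ n) {p p' : Fin M} {s s' : Fin t}
    (h : vv hn p s = vv hn p' s') : p = p' ∧ s = s' := by
  have h1 : 5 * M + t * (p : ℕ) + (s : ℕ) = 5 * M + t * (p' : ℕ) + (s' : ℕ) := congrArg Fin.val h
  obtain ⟨h2, h3⟩ := madd s.2 s'.2 (show t * (p : ℕ) + s = t * (p' : ℕ) + s' by omega)
  exact ⟨Fin.ext h2, Fin.ext h3⟩

private theorem uv_ne (hn : (5 + t) * M ≤ n) {p p' : Fin M} {c : ZMod 5} {s : Fin t}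
    (h : uu hn p c = vv hn p' s) : False := by
  have h1 : 5 * (p : ℕ) + c.val = 5 * M + t * (p' : ℕ) + (s : ℕ) := congrArg Fin.val h
  have h2 := val5 c
  have h3 := p.2
  omega

/-- the edges -/
private def ed (hn : (5 + t) * M ≤ n) (ce : Fin B → Fin t × Fin t) : Ix M B → Sym2 (Fin n)
  | Sum.inl (p, c) => s(uu hn p c, uu hn p (c + 1))
  | Sum.inr (Sum.inl (p, c)) => s(uu hn p c, uu hn p (c + 2))
  | Sum.inr (Sum.inr (h, p)) => s(vv hn p (ce h).1, vv hn p (ce h).2)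

/-- the positions -/
private def po (σ : Equiv.Perm (Fin M)) : Ix M B → ℕ
  | Sum.inl (p, c) => 5 * (p : ℕ) + c.val
  | Sum.inr (Sum.inl (p, c)) => 5 * M + 5 * (σ p : ℕ) + c.val
  | Sum.inr (Sum.inr (h, p)) => 10 * M + (h : ℕ) * M + (p : ℕ)

private theorem z5 : ∀ c : ZMod 5, c = c + 1 → False := by decide

private theorem z6 : ∀ c : ZMod 5, c = c + 2 → False := by decide

private theorem ed_diag (hn : (5 + t) * M ≤ n) {ce : Fin B → Fin t × Fin t}
    (hce1 : ∀ h, (ce h).1 < (ce h).2) (i : Ix M B) : ¬ (ed hn ce i).IsDiag := by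
  rcases i with ⟨p, c⟩ | ⟨p, c⟩ | ⟨h, p⟩
  · change ¬ (s(uu hn p c, uu hn p (c + 1)) : Sym2 (Fin n)).IsDiag
    rw [Sym2.mk_isDiag_iff]
    intro h
    exact z5 _ (uu_inj hn h).2
  · change ¬ (s(uu hn p c, uu hn p (c + 2)) : Sym2 (Fin n)).IsDiag
    rw [Sym2.mk_isDiag_iff]
    intro h
    exact z6 _ (uu_inj hn h).2
  · change ¬ (s(vv hn p (ce h).1, vv hn p (ce h).2) : Sym2 (Fin n)).IsDiag
    rw [Sym2.mk_isDiag_iff]
    intro h'
    have h1 := (vv_inj hn h').2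
    exact absurd h1 (hce1 h).ne

private theorem z1 : ∀ c c' : ZMod 5, c = c' + 1 → c + 1 = c' → False := by decide

private theorem z2 : ∀ c c' : ZMod 5, c = c' + 2 → c + 2 = c' → False := by decide

private theorem z3 : ∀ c c' : ZMod 5, c = c' → c + 1 = c' + 2 → False := by decide

private theorem z4 : ∀ c c' : ZMod 5, c = c' + 2 → c + 1 = c' → False := by decide

private theorem uvs (hn : (5 + t) * M ≤ n) {p p' : Fin M} {c d : ZMod 5} {s r : Fin t}
    (h : (s(uu hn p c, uu hn p d) : Sym2 (Fin n)) = s(vv hn p' s, vv hn p' r)) : False := by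
  rw [Sym2.eq_iff] at h
  rcases h with h | h
  · exact uv_ne hn h.1
  · exact uv_ne hn h.1

private theorem ed_inj (hn : (5 + t) * M ≤ n) {ce : Fin B → Fin t × Fin t}
    (hce : Function.Injective ce) (hce1 : ∀ h, (ce h).1 < (ce h).2) :
    Function.Injective (ed hn ce : Ix M B → Sym2 (Fin n)) := by
  rintro (⟨p, c⟩ | ⟨p, c⟩ | ⟨h, p⟩) (⟨p', c'⟩ | ⟨p', c'⟩ | ⟨h', p'⟩) he
  · have h1 : (s(uu hn p c, uu hn p (c + 1)) : Sym2 (Fin n)) =
      s(uu hn p' c', uu hn p' (c' + 1)) := he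
    rw [Sym2.eq_iff] at h1
    rcases h1 with ⟨h1, h2⟩ | ⟨h1, h2⟩
    · obtain ⟨rfl, rfl⟩ := uu_inj hn h1
      rfl
    · exact (z1 _ _ (uu_inj hn h1).2 (uu_inj hn h2).2).elim
  · have h1 : (s(uu hn p c, uu hn p (c + 1)) : Sym2 (Fin n)) =
      s(uu hn p' c', uu hn p' (c' + 2)) := he
    rw [Sym2.eq_iff] at h1
    rcases h1 with ⟨h1, h2⟩ | ⟨h1, h2⟩
    · exact (z3 _ _ (uu_inj hn h1).2 (uu_inj hn h2).2).elim
    · exact (z4 _ _ (uu_inj hn h1).2 (uu_inj hn h2).2).elim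
  · exact (uvs hn he).elim
  · have h1 : (s(uu hn p' c', uu hn p' (c' + 1)) : Sym2 (Fin n)) =
      s(uu hn p c, uu hn p (c + 2)) := he.symm
    rw [Sym2.eq_iff] at h1
    rcases h1 with ⟨h1, h2⟩ | ⟨h1, h2⟩
    · exact (z3 _ _ (uu_inj hn h1).2 (uu_inj hn h2).2).elim
    · exact (z4 _ _ (uu_inj hn h1).2 (uu_inj hn h2).2).elim
  · have h1 : (s(uu hn p c, uu hn p (c + 2)) : Sym2 (Fin n)) =
      s(uu hn p' c', uu hn p' (c' + 2)) := he
    rw [Sym2.eq_iff] at h1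
    rcases h1 with ⟨h1, h2⟩ | ⟨h1, h2⟩
    · obtain ⟨rfl, rfl⟩ := uu_inj hn h1
      rfl
    · exact (z2 _ _ (uu_inj hn h1).2 (uu_inj hn h2).2).elim
  · exact (uvs hn he).elim
  · exact (uvs hn he.symm).elim
  · exact (uvs hn he.symm).elim
  · have h1 : (s(vv hn p (ce h).1, vv hn p (ce h).2) : Sym2 (Fin n)) =
      s(vv hn p' (ce h').1, vv hn p' (ce h').2) := he
    rw [Sym2.eq_iff] at h1
    rcases h1 with ⟨h1, h2⟩ | ⟨h1, h2⟩
    · obtain ⟨rfl, h3⟩ := vv_inj hn h1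
      have h4 := (vv_inj hn h2).2
      have h5 : h = h' := hce (Prod.ext h3 h4)
      rw [h5]
    · have h3 := (vv_inj hn h1).2
      have h4 := (vv_inj hn h2).2
      have h5 := hce1 h
      rw [h3, h4] at h5
      exact absurd h5 (hce1 h').asymm

private theorem po_inj (σ : Equiv.Perm (Fin M)) :
    Function.Injective (po σ : Ix M B → ℕ) := by
  have key : ∀ (h : Fin B) (p : Fin M), 10 * M ≤ 10 * M + (h : ℕ) * M + (p : ℕ) := by
    intro h p
    omega
  rintro (⟨p, c⟩ | ⟨p, c⟩ | ⟨h, p⟩) (⟨p', c'⟩ | ⟨p', c'⟩ | ⟨h', p'⟩) he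
  · have h1 : 5 * (p : ℕ) + c.val = 5 * (p' : ℕ) + c'.val := he
    obtain ⟨h2, h3⟩ := madd (val5 c) (val5 c') h1
    rw [Fin.ext h2, ZMod.val_injective 5 h3]
  · have h1 : 5 * (p : ℕ) + c.val = 5 * M + 5 * (σ p' : ℕ) + c'.val := he
    have h2 := val5 c
    have h3 := p.2
    omega
  · have h1 : 5 * (p : ℕ) + c.val = 10 * M + (h' : ℕ) * M + (p' : ℕ) := he
    have h2 := val5 c
    have h3 := p.2
    have h4 := key h' p'
    omega
  · have h1 : 5 * M + 5 * (σ p : ℕ) + c.val = 5 * (p' : ℕ) + c'.val := he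
    have h2 := val5 c'
    have h3 := p'.2
    omega
  · have h1 : 5 * M + 5 * (σ p : ℕ) + c.val = 5 * M + 5 * (σ p' : ℕ) + c'.val := he
    obtain ⟨h2, h3⟩ := madd (val5 c) (val5 c')
      (show 5 * (σ p : ℕ) + c.val = 5 * (σ p' : ℕ) + c'.val by omega)
    rw [σ.injective (Fin.ext h2), ZMod.val_injective 5 h3]
  · have h1 : 5 * M + 5 * (σ p : ℕ) + c.val = 10 * M + (h' : ℕ) * M + (p' : ℕ) := he
    have h2 := val5 c
    have h3 := (σ p).2
    have h4 := key h' p'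
    omega
  · have h1 : 10 * M + (h : ℕ) * M + (p : ℕ) = 5 * (p' : ℕ) + c'.val := he
    have h2 := val5 c'
    have h3 := p'.2
    have h4 := key h p
    omega
  · have h1 : 10 * M + (h : ℕ) * M + (p : ℕ) = 5 * M + 5 * (σ p' : ℕ) + c'.val := he
    have h2 := val5 c'
    have h3 := (σ p').2
    have h4 := key h p
    omega
  · have h1 : 10 * M + (h : ℕ) * M + (p : ℕ) = 10 * M + (h' : ℕ) * M + (p' : ℕ) := he
    obtain ⟨h2, h3⟩ := madd p.2 p'.2
      (show M * (h : ℕ) + (p : ℕ) = M * (h' : ℕ) + (p' : ℕ) by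
        rw [Nat.mul_comm M, Nat.mul_comm M]
        omega)
    rw [Fin.ext h2, Fin.ext h3]

private theorem po_lt (σ : Equiv.Perm (Fin M)) (i : Ix M B) : po σ i < (10 + B) * M := by
  have h0 : (10 + B) * M = 10 * M + B * M := Nat.add_mul _ _ _
  rcases i with ⟨p, c⟩ | ⟨p, c⟩ | ⟨h, p⟩
  · change 5 * (p : ℕ) + c.val < _
    have h1 := val5 c
    have h2 := p.2
    omega
  · change 5 * M + 5 * (σ p : ℕ) + c.val < _
    have h1 := val5 c
    have h2 := (σ p).2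
    omega
  · change 10 * M + (h : ℕ) * M + (p : ℕ) < _
    have h1 : ((h : ℕ) + 1) * M ≤ B * M := Nat.mul_le_mul_right _ h.2
    rw [Nat.succ_mul] at h1
    have h2 := p.2
    omega

private theorem po_surj (σ : Equiv.Perm (Fin M)) {i : ℕ} (hi : i < (10 + B) * M) :
    ∃ j : Ix M B, po σ j = i := by
  have h0 : (10 + B) * M = 10 * M + B * M := Nat.add_mul _ _ _
  have hc : ∀ x : ℕ, ((x % 5 : ℕ) : ZMod 5).val = x % 5 := by
    intro x
    rw [ZMod.val_natCast]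
    omega
  by_cases h1 : i < 5 * M
  · refine ⟨Sum.inl (⟨i / 5, by omega⟩, ((i % 5 : ℕ) : ZMod 5)), ?_⟩
    change 5 * (i / 5) + ((i % 5 : ℕ) : ZMod 5).val = i
    rw [hc]
    omega
  by_cases h2 : i < 10 * M
  · refine ⟨Sum.inr (Sum.inl (σ.symm ⟨(i - 5 * M) / 5, by omega⟩,
      (((i - 5 * M) % 5 : ℕ) : ZMod 5))), ?_⟩
    change 5 * M + 5 * ((σ (σ.symm ⟨(i - 5 * M) / 5, _⟩) : Fin M) : ℕ) +
      (((i - 5 * M) % 5 : ℕ) : ZMod 5).val = i
    rw [hc, Equiv.apply_symm_apply]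
    change 5 * M + 5 * ((i - 5 * M) / 5) + (i - 5 * M) % 5 = i
    omega
  · have hM : 0 < M := by
      rcases Nat.eq_zero_or_pos M with h | h
      · subst h
        simp at hi
      · exact h
    have h3 : i - 10 * M < B * M := by omega
    have h4 : (i - 10 * M) / M < B := by
      rw [Nat.div_lt_iff_lt_mul hM]
      exact h3
    refine ⟨Sum.inr (Sum.inr (⟨(i - 10 * M) / M, h4⟩,
      ⟨(i - 10 * M) % M, Nat.mod_lt _ hM⟩)), ?_⟩
    change 10 * M + (i - 10 * M) / M * M + (i - 10 * M) % M = i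
    have h5 := Nat.div_add_mod' (i - 10 * M) M
    omega

/-- the order -/
private noncomputable def gg (hn : (5 + t) * M ≤ n) (ce : Fin B → Fin t × Fin t)
    (σ : Equiv.Perm (Fin M)) (e : Sym2 (Fin n)) : ℕ := by
  classical
  exact if h : ∃ i : Ix M B, ed hn ce i = e then po σ h.choose else 0

private theorem gg_ed (hn : (5 + t) * M ≤ n) {ce : Fin B → Fin t × Fin t}
    (hce : Function.Injective ce) (hce1 : ∀ h, (ce h).1 < (ce h).2)
    (σ : Equiv.Perm (Fin M)) (i : Ix M B) : gg hn ce σ (ed hn ce i) = po σ i := by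
  classical
  have h : ∃ j : Ix M B, ed hn ce j = ed hn ce i := ⟨i, rfl⟩
  unfold gg
  rw [dif_pos h]
  rw [ed_inj hn hce hce1 h.choose_spec]

private theorem zne : ∀ a b : ZMod 5, a ≠ b →
    b = a + 1 ∨ a = b + 1 ∨ b = a + 2 ∨ a = b + 2 := by decide

private theorem mem_ed (hn : (5 + t) * M ≤ n) {ce : Fin B → Fin t × Fin t}
    (hce1 : ∀ h, (ce h).1 < (ce h).2) (e : Sym2 (Fin n)) :
    e ∈ (SimpleGraph.fromEdgeSet (Set.range (ed hn ce : Ix M B → Sym2 (Fin n)))).edgeSet ↔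
      ∃ i, ed hn ce i = e := by
  rw [SimpleGraph.edgeSet_fromEdgeSet]
  constructor
  · rintro ⟨h, -⟩
    exact h
  · rintro ⟨i, rfl⟩
    exact ⟨⟨i, rfl⟩, ed_diag hn hce1 i⟩

private theorem adj_block (hn : (5 + t) * M ≤ n) {ce : Fin B → Fin t × Fin t}
    (hce1 : ∀ h, (ce h).1 < (ce h).2) {x y : Fin n}
    (h : s(x, y) ∈
      (SimpleGraph.fromEdgeSet (Set.range (ed hn ce : Ix M B → Sym2 (Fin n)))).edgeSet) :
    (∃ p, x ∈ Set.range (uu hn p) ∧ y ∈ Set.range (uu hn p)) ∨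
      ∃ p, x ∈ Set.range (vv hn p) ∧ y ∈ Set.range (vv hn p) := by
  rw [mem_ed hn hce1] at h
  obtain ⟨i, hi⟩ := h
  rcases i with ⟨p, c⟩ | ⟨p, c⟩ | ⟨h, p⟩
  · left
    have h1 : (s(uu hn p c, uu hn p (c + 1)) : Sym2 (Fin n)) = s(x, y) := hi
    rw [Sym2.eq_iff] at h1
    rcases h1 with ⟨h1, h2⟩ | ⟨h1, h2⟩
    · exact ⟨p, ⟨_, h1⟩, ⟨_, h2⟩⟩
    · exact ⟨p, ⟨_, h2⟩, ⟨_, h1⟩⟩
  · left
    have h1 : (s(uu hn p c, uu hn p (c + 2)) : Sym2 (Fin n)) = s(x, y) := hi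
    rw [Sym2.eq_iff] at h1
    rcases h1 with ⟨h1, h2⟩ | ⟨h1, h2⟩
    · exact ⟨p, ⟨_, h1⟩, ⟨_, h2⟩⟩
    · exact ⟨p, ⟨_, h2⟩, ⟨_, h1⟩⟩
  · right
    have h1 : (s(vv hn p (ce h).1, vv hn p (ce h).2) : Sym2 (Fin n)) = s(x, y) := hi
    rw [Sym2.eq_iff] at h1
    rcases h1 with ⟨h1, h2⟩ | ⟨h1, h2⟩
    · exact ⟨p, ⟨_, h1⟩, ⟨_, h2⟩⟩
    · exact ⟨p, ⟨_, h2⟩, ⟨_, h1⟩⟩

private theorem rangecard {α : Type} [Fintype α] {m : ℕ} (f : α → Fin m) (A : Set (Fin m))
    (h : A ⊆ Set.range f) : A.ncard ≤ Fintype.card α := by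
  classical
  calc A.ncard ≤ (Set.range f).ncard := Set.ncard_le_ncard h (Set.toFinite _)
    _ = (f '' Set.univ).ncard := by rw [Set.image_univ]
    _ ≤ (Set.univ : Set α).ncard := Set.ncard_image_le (Set.toFinite _)
    _ = Fintype.card α := by rw [Set.ncard_univ, Nat.card_eq_fintype_card]

private theorem deg_le (hn : (5 + t) * M ≤ n) (ht : 5 ≤ t) {ce : Fin B → Fin t × Fin t}
    (hce1 : ∀ h, (ce h).1 < (ce h).2) (x : Fin n) :
    ((SimpleGraph.fromEdgeSet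
      (Set.range (ed hn ce : Ix M B → Sym2 (Fin n)))).neighborSet x).ncard ≤ t := by
  by_cases h1 : ∃ p, x ∈ Set.range (uu hn p)
  · obtain ⟨p, c, hc⟩ := h1
    have h2 : ((SimpleGraph.fromEdgeSet
      (Set.range (ed hn ce : Ix M B → Sym2 (Fin n)))).neighborSet x) ⊆ Set.range (uu hn p) := by
      intro y hy
      rcases adj_block hn hce1 (show s(x, y) ∈ _ from hy) with ⟨q, hq, hy'⟩ | ⟨q, hq, hy'⟩
      · obtain ⟨d, hd⟩ := hq
        have h3 := (uu_inj hn (hc.trans hd.symm)).1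
        rw [h3]
        exact hy'
      · obtain ⟨d, hd⟩ := hq
        exact (uv_ne hn (hc.trans hd.symm)).elim
    refine (rangecard (uu hn p) _ h2).trans ?_
    rw [ZMod.card]
    exact ht
  by_cases h2 : ∃ p, x ∈ Set.range (vv hn p)
  · obtain ⟨p, c, hc⟩ := h2
    have h2 : ((SimpleGraph.fromEdgeSet
      (Set.range (ed hn ce : Ix M B → Sym2 (Fin n)))).neighborSet x) ⊆ Set.range (vv hn p) := by
      intro y hy
      rcases adj_block hn hce1 (show s(x, y) ∈ _ from hy) with ⟨q, hq, hy'⟩ | ⟨q, hq, hy'⟩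
      · exact absurd ⟨q, hq⟩ h1
      · obtain ⟨d, hd⟩ := hq
        have h3 := (vv_inj hn (hc.trans hd.symm)).1
        rw [h3]
        exact hy'
    refine (rangecard (vv hn p) _ h2).trans ?_
    rw [Fintype.card_fin]
  · have h3 : ((SimpleGraph.fromEdgeSet
      (Set.range (ed hn ce : Ix M B → Sym2 (Fin n)))).neighborSet x) = ∅ := by
      rw [Set.eq_empty_iff_forall_notMem]
      intro y hy
      rcases adj_block hn hce1 (show s(x, y) ∈ _ from hy) with ⟨q, hq, -⟩ | ⟨q, hq, -⟩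
      · exact h1 ⟨q, hq⟩
      · exact h2 ⟨q, hq⟩
    rw [h3, Set.ncard_empty]
    exact Nat.zero_le _

end Design

theorem exists_design (k t B n : ℕ) (ht : 5 ≤ t) (hn : (5 + t) * 2 ^ k ≤ n)
    (σ : Equiv.Perm (Fin (2 ^ k))) (ce : Fin B → Fin t × Fin t) (hce : Function.Injective ce)
    (hce1 : ∀ h, (ce h).1 < (ce h).2) (hce2 : ∀ a b : Fin t, a < b → ∃ h, ce h = (a, b)) :
    ∃ (H : SimpleGraph (Fin n)) (g : Sym2 (Fin n) → ℕ) (u : Fin (2 ^ k) → ZMod 5 → Fin n)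
      (v : Fin (2 ^ k) → Fin t → Fin n), IsDesign n k t B σ ce H g u v := by
  refine ⟨SimpleGraph.fromEdgeSet (Set.range (ed hn ce)), gg hn ce σ, uu hn, vv hn, ?_⟩
  have hg := gg_ed hn hce hce1 σ
  have hm := mem_ed hn hce1
  refine ⟨fun p c c' h => (uu_inj hn h).2, fun p s s' h => (vv_inj hn h).2,
    deg_le hn ht hce1, ?_, ?_, ?_, ?_, ?_, ?_, ?_, ?_⟩
  · intro e he e' he' h
    rw [hm] at he he'
    obtain ⟨i, rfl⟩ := he
    obtain ⟨i', rfl⟩ := he'
    rw [hg, hg] at h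
    rw [po_inj σ h]
  · intro p a b hab
    rw [hm]
    rcases zne a b hab with rfl | rfl | rfl | rfl
    · exact ⟨Sum.inl (p, a), rfl⟩
    · exact ⟨Sum.inl (p, b), Sym2.eq_swap⟩
    · exact ⟨Sum.inr (Sum.inl (p, a)), rfl⟩
    · exact ⟨Sum.inr (Sum.inl (p, b)), Sym2.eq_swap⟩
  · intro p a b hab
    rw [hm]
    rcases lt_or_gt_of_ne hab with h | h
    · obtain ⟨h', hh⟩ := hce2 a b h
      refine ⟨Sum.inr (Sum.inr (h', p)), ?_⟩
      change (s(vv hn p (ce h').1, vv hn p (ce h').2) : Sym2 (Fin n)) = _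
      rw [hh]
    · obtain ⟨h', hh⟩ := hce2 b a h
      refine ⟨Sum.inr (Sum.inr (h', p)), ?_⟩
      change (s(vv hn p (ce h').1, vv hn p (ce h').2) : Sym2 (Fin n)) = _
      rw [hh]
      exact Sym2.eq_swap
  · intro p c
    exact hg (Sum.inl (p, c))
  · intro p c
    exact hg (Sum.inr (Sum.inl (p, c)))
  · intro h p
    exact hg (Sum.inr (Sum.inr (h, p)))
  · intro e he
    rw [hm] at he
    obtain ⟨i, rfl⟩ := he
    rw [hg]
    exact po_lt σ i
  · intro i hi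
    obtain ⟨j, hj⟩ := po_surj σ hi
    refine ⟨ed hn ce j, (hm _).2 ⟨j, rfl⟩, ?_⟩
    rw [hg, hj]

end Pool.Agent.UCR
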