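import Pool.Agent.UCR.Defs

/-!
# UCR NumA: parameters, elementary part

PROOF. `M = 2 ^ k`, `k = Nat.log 2 (n / (5 + t))`: for `n ≥ 5 + t` we have
`2 ^ k ≤ n / (5 + t) < 2 ^ (k + 1)`, so `(5 + t) 2 ^ k ≤ n < 2 (5 + t) 2 ^ k`. All other statements
compare powers of `n` with different exponents, for large `n`: `4 Γ ≤ Lc`: `3 α < 1 + α + 6 δ` (as
`α + 6 δ < 1 / 2` gives `2 α < 1`); `432 Γ < lam ^ 3`: `lam ^ 3 ≥ n ^ (3 α + 3 δ)`; `μ < 2 ^ k`: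
`n ^ (1 - α - 6 δ) < n / (2 (5 + t)) < 2 ^ k`; `8 C0 ≤ 8 n / (48 (5 + t)) < 2 ^ k / 3`.
Use `tendsto_rpow_atTop` (for natural `n`: `tendsto_natCast_atTop_atTop`) and `filter_upwards`.
-/

set_option autoImplicit false

namespace Pool.Agent.UCR

open Filter

private theorem numA_pow_lt (a b C : ℝ) (h : a < b) :
    ∀ᶠ n : ℕ in atTop, C * (n : ℝ) ^ a < (n : ℝ) ^ b := by
  have h1 : Tendsto (fun n : ℕ => (n : ℝ) ^ (b - a)) atTop atTop :=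
    (tendsto_rpow_atTop (sub_pos.2 h)).comp tendsto_natCast_atTop_atTop
  filter_upwards [h1.eventually_gt_atTop C, eventually_gt_atTop 0] with n hn hn0
  have hp : (0 : ℝ) < n := by exact_mod_cast hn0
  have h2 : (n : ℝ) ^ b = (n : ℝ) ^ (b - a) * (n : ℝ) ^ a := by
    rw [← Real.rpow_add hp]; congr 1; ring
  rw [h2]
  exact mul_lt_mul_of_pos_right hn (Real.rpow_pos_of_pos hp a)

theorem num_basic (α δ : ℝ) (t : ℕ) (hα : 0 < α) (hδ : 0 < δ) (hw : α + 6 * δ < 1 / 2) :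
    ∀ᶠ n : ℕ in atTop,
      0 < ⌊(n : ℝ) ^ (3 * α)⌋₊ ∧ 0 < ⌊(n : ℝ) ^ (1 + α + 6 * δ)⌋₊ ∧
      4 * ⌊(n : ℝ) ^ (3 * α)⌋₊ ≤ ⌊(n : ℝ) ^ (1 + α + 6 * δ)⌋₊ ∧
      108 * (4 * ⌊(n : ℝ) ^ (3 * α)⌋₊) < ⌈(n : ℝ) ^ (α + δ)⌉₊ ^ 3 ∧
      0 < ⌊(n : ℝ) ^ (α + 2 * δ)⌋₊ ∧ 0 < ⌈(n : ℝ) ^ (α + 4 * δ)⌉₊ ∧
      (5 + t) * 2 ^ Nat.log 2 (n / (5 + t)) ≤ n ∧
      n < 2 * ((5 + t) * 2 ^ Nat.log 2 (n / (5 + t))) ∧
      ⌊(n : ℝ) ^ (1 - α - 6 * δ)⌋₊ < 2 ^ Nat.log 2 (n / (5 + t)) ∧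
      8 * ⌊1 / (48 * (5 + (t : ℝ))) * n⌋₊ ≤ 2 ^ Nat.log 2 (n / (5 + t)) ∧
      ⌊1 / (48 * (5 + (t : ℝ))) * n⌋₊ < 2 ^ Nat.log 2 (n / (5 + t)) := by
  have e1 := numA_pow_lt (3 * α) (1 + α + 6 * δ) 4 (by linarith)
  have e2 := numA_pow_lt (3 * α) (3 * (α + δ)) 432 (by linarith)
  have e3 := numA_pow_lt (1 - α - 6 * δ) 1 (2 * (5 + (t : ℝ))) (by linarith)
  filter_upwards [e1, e2, e3, eventually_ge_atTop (5 + t), eventually_ge_atTop 1] with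
    n h1 h2 h3 h4 h5
  have hn1 : (1 : ℝ) ≤ n := by exact_mod_cast h5
  have hn0 : (0 : ℝ) < n := by linarith
  have hge : ∀ a : ℝ, 0 ≤ a → (1 : ℝ) ≤ (n : ℝ) ^ a := fun a ha => Real.one_le_rpow hn1 ha
  have hfl : ∀ a : ℝ, 0 ≤ a → 0 < ⌊(n : ℝ) ^ a⌋₊ := fun a ha => Nat.floor_pos.2 (hge a ha)
  have hx0 : (0 : ℝ) ≤ (n : ℝ) ^ (3 * α) := Real.rpow_nonneg hn0.le _
  have hfx : (⌊(n : ℝ) ^ (3 * α)⌋₊ : ℝ) ≤ (n : ℝ) ^ (3 * α) := Nat.floor_le hx0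
  have h51 : 0 < 5 + t := by omega
  have hk1 : 2 ^ Nat.log 2 (n / (5 + t)) ≤ n / (5 + t) :=
    Nat.pow_log_le_self 2 (Nat.ne_of_gt (Nat.div_pos h4 h51))
  have hk2 : n / (5 + t) < 2 ^ (Nat.log 2 (n / (5 + t)) + 1) :=
    Nat.lt_pow_succ_log_self (by norm_num) _
  have g7 : (5 + t) * 2 ^ Nat.log 2 (n / (5 + t)) ≤ n :=
    le_trans (Nat.mul_le_mul_left _ hk1) (Nat.mul_div_le n (5 + t))
  have g8 : n < 2 * ((5 + t) * 2 ^ Nat.log 2 (n / (5 + t))) := by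
    have := (Nat.div_lt_iff_lt_mul h51).1 hk2
    calc n < 2 ^ (Nat.log 2 (n / (5 + t)) + 1) * (5 + t) := this
      _ = 2 * ((5 + t) * 2 ^ Nat.log 2 (n / (5 + t))) := by rw [pow_succ]; ring
  have g8r : (n : ℝ) < 2 * ((5 + (t : ℝ)) * 2 ^ Nat.log 2 (n / (5 + t))) := by
    have := (Nat.cast_lt (α := ℝ)).2 g8
    push_cast at this
    exact this
  have ht : (0 : ℝ) < 5 + (t : ℝ) := by positivity
  have hP : (0 : ℝ) < (2 : ℝ) ^ Nat.log 2 (n / (5 + t)) := by positivity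
  have hc0 : (0 : ℝ) ≤ 1 / (48 * (5 + (t : ℝ))) * n := by positivity
  have hfc : (⌊1 / (48 * (5 + (t : ℝ))) * n⌋₊ : ℝ) ≤ 1 / (48 * (5 + (t : ℝ))) * n :=
    Nat.floor_le hc0
  have hcl : 1 / (48 * (5 + (t : ℝ))) * n < 2 ^ Nat.log 2 (n / (5 + t)) / 24 := by
    rw [one_div, inv_mul_eq_div, div_lt_div_iff₀ (by positivity) (by norm_num)]
    nlinarith [g8r]
  refine ⟨hfl _ (by linarith), hfl _ (by linarith), ?_, ?_, hfl _ (by linarith), ?_, g7, g8, ?_,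
    ?_, ?_⟩
  · apply Nat.le_floor
    push_cast
    linarith
  · have hc : (n : ℝ) ^ (α + δ) ≤ (⌈(n : ℝ) ^ (α + δ)⌉₊ : ℝ) := Nat.le_ceil _
    have h0 : (0 : ℝ) ≤ (n : ℝ) ^ (α + δ) := Real.rpow_nonneg hn0.le _
    have h6 : (n : ℝ) ^ (3 * (α + δ)) = ((n : ℝ) ^ (α + δ)) ^ 3 := by
      rw [← Real.rpow_natCast, ← Real.rpow_mul hn0.le]
      congr 1; push_cast; ring
    have h7 : ((n : ℝ) ^ (α + δ)) ^ 3 ≤ (⌈(n : ℝ) ^ (α + δ)⌉₊ : ℝ) ^ 3 :=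
      pow_le_pow_left₀ h0 hc 3
    have h8 : (108 * (4 * (⌊(n : ℝ) ^ (3 * α)⌋₊ : ℝ))) < (⌈(n : ℝ) ^ (α + δ)⌉₊ : ℝ) ^ 3 := by
      rw [h6] at h2
      linarith
    exact_mod_cast h8
  · exact Nat.ceil_pos.2 (Real.rpow_pos_of_pos hn0 _)
  · rw [Nat.floor_lt (Real.rpow_nonneg hn0.le _)]
    push_cast
    rw [Real.rpow_one] at h3
    have h9 : 2 * (5 + (t : ℝ)) * (n : ℝ) ^ (1 - α - 6 * δ) <
        2 * (5 + (t : ℝ)) * 2 ^ Nat.log 2 (n / (5 + t)) := by linarith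
    exact lt_of_mul_lt_mul_left h9 (by positivity)
  · have h10 : (8 * (⌊1 / (48 * (5 + (t : ℝ))) * n⌋₊ : ℝ)) ≤ 2 ^ Nat.log 2 (n / (5 + t)) := by
      linarith
    exact_mod_cast h10
  · have h11 : ((⌊1 / (48 * (5 + (t : ℝ))) * n⌋₊ : ℝ)) < 2 ^ Nat.log 2 (n / (5 + t)) := by
      linarith
    exact_mod_cast h11

end Pool.Agent.UCR
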