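import Pool.Agent.UCR.Defs

/-!
# UCR NumB: parameters, condition for the red union bound

PROOF. `τ` large: `τ ≥ 2` and `δ (4 τ - 1) > 4 (2 + δ)`; `t = 4 τ`, `h = τ (4 τ - 1)`, so
`4 h = t (t - 1)`. For large `n`: `m ≤ n ^ (2 + δ)`, `lam ≤ 2 n ^ (α + δ)`,
`Q ≥ n ^ (α + 2 δ) / 2`. So `(40 lam) ^ h 2 ^ (2 h) ≤ (320 n ^ (α + δ)) ^ h` and it is enough that
`4 * 2 ^ t * 640 ^ h * n ^ ((2 + δ) t) ≤ n ^ (δ h)`, and `(2 + δ) t < δ h` by the choice of `τ`.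
-/

set_option autoImplicit false

namespace Pool.Agent.UCR

open Filter

theorem num_red (α δ : ℝ) (hα : 1 / 3 ≤ α) (hδ : 0 < δ) :
    ∃ t h : ℕ, 5 ≤ t ∧ 4 * h = t * (t - 1) ∧ ∀ᶠ n : ℕ in atTop,
      4 * (2 * ⌊(n : ℝ) ^ (2 + δ)⌋₊) ^ t * 2 ^ (2 * h) * (40 * ⌈(n : ℝ) ^ (α + δ)⌉₊) ^ h
        ≤ ⌊(n : ℝ) ^ (α + 2 * δ)⌋₊ ^ h := by
  sorry

end Pool.Agent.UCR
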