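import Pool.Agent.UCR.Defs

/-!
# UCR NumC: parameters, conditions for the blue union bound

PROOF. `M = 2 ^ k`, `k = Nat.log 2 (n / (5 + t))`: `M ≤ n < 2 (5 + t) M` for `n ≥ 5 + t`, and
`k ≤ log_2 n`. With `m ≤ n ^ (2 + δ)` and `Lc ≥ n ^ (1 + α + 6 δ) / 2`:
`r = m / Lc + 1 ≤ 2 n ^ (1 - α - 5 δ) + 1 ≤ 3 n ^ (1 - α - 5 δ)`; `ℓ ≤ 2 n ^ (α + 4 δ)`,
`ℓ ≥ n ^ (α + 4 δ)`, `Q ≤ n ^ (α + 2 δ)`, `μ ≤ n ^ (1 - α - 6 δ)`. So
(1) `8 r ℓ ≤ 48 n ^ (1 - δ) ≤ n / (2 (5 + t)) ≤ M`;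
(2) `4 Q (r + μ) ≤ 16 n ^ (1 - 3 δ)`, against `M / (2 (k + 1) ^ 2)`;
(3) `4 Q (32 μ + 16 M / ℓ) ≤ 4 (32 n ^ (1 - 4 δ) + 16 n ^ (1 - 2 δ))`, times the logarithms, which
are `O(log n)` (`r ≤ 3 n`, `M + 1 ≤ 2 n`, `k + 1 ≤ 2 n`), against `M / (2 (k + 1) ^ 2)`, and
`(k + 1) ^ 2 = O((log n) ^ 2)`. Powers of `log n` are `o(n ^ δ)`.
-/

set_option autoImplicit false

namespace Pool.Agent.UCR

open Filter

/-- the algebra of `num_blue`: `A = x ^ α`, `D = x ^ δ`, `L = log x` -/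
private theorem num_blue_alg (x A D L c K k1 r μ ℓ Q G : ℝ) (hx : 1 ≤ x) (hA : 1 ≤ A)
    (hD : 1 ≤ D) (hL : 1 ≤ L) (hc : 0 < c) (hK : c * x ≤ K) (hKx : K ≤ x)
    (hk0 : 0 < k1) (hk : k1 ≤ 3 * L) (hr : r * (A * D ^ 5) ≤ 3 * x) (hr0 : 0 ≤ r)
    (hμ : μ * (A * D ^ 6) ≤ x) (hμ0 : 0 ≤ μ) (hℓ : ℓ ≤ 2 * (A * D ^ 4)) (hℓ' : A * D ^ 4 ≤ ℓ)
    (hQ : Q ≤ A * D ^ 2) (hQ0 : 0 ≤ Q) (hG : G ≤ 11 * L) (hG0 : 0 ≤ G)
    (h1 : 48 ≤ c * D) (h2 : 288 * L ^ 2 ≤ c * D ^ 3) (h3 : 38016 * L ^ 3 ≤ c * D ^ 2) :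
    8 * (r * ℓ) ≤ K ∧ 4 * Q * (r + μ) ≤ K / (2 * k1 ^ 2) ∧
      4 * Q * (32 * μ + 16 * K / ℓ) * G ≤ K / (2 * k1 ^ 2) := by
  have hx0 : 0 < x := by linarith
  have hA0 : 0 < A := by linarith
  have hD0 : 0 < D := by linarith
  have hL0 : 0 < L := by linarith
  have hK0 : 0 < K := lt_of_lt_of_le (by positivity) hK
  have hℓ0 : 0 < ℓ := lt_of_lt_of_le (by positivity) hℓ'
  have hk2 : k1 ^ 2 ≤ 9 * L ^ 2 := by nlinarith
  -- (1)
  have e1 : r * ℓ * D ≤ 6 * x := by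
    have : r * ℓ ≤ r * (2 * (A * D ^ 4)) := mul_le_mul_of_nonneg_left hℓ hr0
    calc r * ℓ * D ≤ r * (2 * (A * D ^ 4)) * D := mul_le_mul_of_nonneg_right this hD0.le
      _ = 2 * (r * (A * D ^ 5)) := by ring
      _ ≤ 2 * (3 * x) := by linarith
      _ = 6 * x := by ring
  have g1 : 8 * (r * ℓ) ≤ K := by
    have : 8 * (r * ℓ) * D ≤ K * D := by
      calc 8 * (r * ℓ) * D = 8 * (r * ℓ * D) := by ring
        _ ≤ 8 * (6 * x) := by linarith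
        _ = 48 * x := by ring
        _ ≤ c * D * x := mul_le_mul_of_nonneg_right h1 hx0.le
        _ = c * x * D := by ring
        _ ≤ K * D := mul_le_mul_of_nonneg_right hK hD0.le
    exact le_of_mul_le_mul_right this hD0
  -- Q r and Q μ
  have e2 : Q * r * D ^ 3 ≤ 3 * x := by
    calc Q * r * D ^ 3 ≤ A * D ^ 2 * r * D ^ 3 := by gcongr
      _ = r * (A * D ^ 5) := by ring
      _ ≤ 3 * x := hr
  have e3 : Q * μ * D ^ 4 ≤ x := by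
    calc Q * μ * D ^ 4 ≤ A * D ^ 2 * μ * D ^ 4 := by gcongr
      _ = μ * (A * D ^ 6) := by ring
      _ ≤ x := hμ
  have e3' : Q * μ * D ^ 3 ≤ x := by
    have : Q * μ * D ^ 3 ≤ Q * μ * D ^ 4 := by
      apply mul_le_mul_of_nonneg_left _ (by positivity)
      exact pow_le_pow_right₀ hD (by norm_num)
    linarith
  have e3'' : Q * μ * D ^ 2 ≤ x := by
    have : Q * μ * D ^ 2 ≤ Q * μ * D ^ 4 := by
      apply mul_le_mul_of_nonneg_left _ (by positivity)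
      exact pow_le_pow_right₀ hD (by norm_num)
    linarith
  have g2 : 4 * Q * (r + μ) ≤ K / (2 * k1 ^ 2) := by
    rw [le_div_iff₀ (by positivity)]
    have a1 : 4 * Q * (r + μ) * D ^ 3 ≤ 16 * x := by nlinarith
    have : 4 * Q * (r + μ) * (2 * k1 ^ 2) * D ^ 3 ≤ K * D ^ 3 := by
      calc 4 * Q * (r + μ) * (2 * k1 ^ 2) * D ^ 3
          = (4 * Q * (r + μ) * D ^ 3) * (2 * k1 ^ 2) := by ring
        _ ≤ (16 * x) * (2 * (9 * L ^ 2)) := by gcongr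
        _ = (288 * L ^ 2) * x := by ring
        _ ≤ (c * D ^ 3) * x := mul_le_mul_of_nonneg_right h2 hx0.le
        _ = c * x * D ^ 3 := by ring
        _ ≤ K * D ^ 3 := mul_le_mul_of_nonneg_right hK (by positivity)
    exact le_of_mul_le_mul_right this (by positivity)
  have e4 : Q * (K / ℓ) * D ^ 2 ≤ x := by
    have : K / ℓ ≤ x / (A * D ^ 4) := by gcongr
    calc Q * (K / ℓ) * D ^ 2 ≤ (A * D ^ 2) * (x / (A * D ^ 4)) * D ^ 2 := by gcongr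
      _ = x := by field_simp
  refine ⟨g1, g2, ?_⟩
  rw [le_div_iff₀ (by positivity)]
  have a1 : 4 * Q * (32 * μ + 16 * K / ℓ) * D ^ 2 ≤ 192 * x := by
    have : 4 * Q * (32 * μ + 16 * K / ℓ) * D ^ 2
        = 128 * (Q * μ * D ^ 2) + 64 * (Q * (K / ℓ) * D ^ 2) := by ring
    rw [this]; linarith
  have : 4 * Q * (32 * μ + 16 * K / ℓ) * G * (2 * k1 ^ 2) * D ^ 2 ≤ K * D ^ 2 := by
    calc 4 * Q * (32 * μ + 16 * K / ℓ) * G * (2 * k1 ^ 2) * D ^ 2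
        = (4 * Q * (32 * μ + 16 * K / ℓ) * D ^ 2) * G * (2 * k1 ^ 2) := by ring
      _ ≤ (192 * x) * (11 * L) * (2 * (9 * L ^ 2)) := by gcongr
      _ = (38016 * L ^ 3) * x := by ring
      _ ≤ (c * D ^ 2) * x := mul_le_mul_of_nonneg_right h3 hx0.le
      _ = c * x * D ^ 2 := by ring
      _ ≤ K * D ^ 2 := mul_le_mul_of_nonneg_right hK (by positivity)
  exact le_of_mul_le_mul_right this (by positivity)

private theorem ev_log_pow (j : ℕ) (C c s : ℝ) (hC : 0 < C) (hc : 0 < c) (hs : 0 < s) :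
    ∀ᶠ n : ℕ in atTop, C * Real.log n ^ j ≤ c * (n : ℝ) ^ s := by
  have h := (isLittleO_log_rpow_rpow_atTop (s := s) (j : ℝ) hs).def (c := c / C) (by positivity)
  have h' := tendsto_natCast_atTop_atTop (R := ℝ) |>.eventually h
  filter_upwards [h', eventually_ge_atTop 1] with n hn hn1
  have hn1' : (1 : ℝ) ≤ n := by exact_mod_cast hn1
  have hl : 0 ≤ Real.log n := Real.log_nonneg hn1'
  rw [Real.rpow_natCast, Real.norm_of_nonneg (by positivity),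
    Real.norm_of_nonneg (by positivity)] at hn
  calc C * Real.log n ^ j ≤ C * (c / C * (n : ℝ) ^ s) := by gcongr
    _ = c * (n : ℝ) ^ s := by field_simp

theorem num_blue (α δ : ℝ) (t : ℕ) (hα0 : 0 < α) (hδ : 0 < δ) (hw : α + 6 * δ < 1 / 2) :
    ∀ᶠ n : ℕ in atTop, ∀ k Lc μ r ℓ Q : ℕ, k = Nat.log 2 (n / (5 + t)) →
      Lc = ⌊(n : ℝ) ^ (1 + α + 6 * δ)⌋₊ → μ = ⌊(n : ℝ) ^ (1 - α - 6 * δ)⌋₊ →
      r = ⌊(n : ℝ) ^ (2 + δ)⌋₊ / Lc + 1 → ℓ = ⌈(n : ℝ) ^ (α + 4 * δ)⌉₊ →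
      Q = ⌊(n : ℝ) ^ (α + 2 * δ)⌋₊ →
      8 * (r * ℓ) ≤ 2 ^ k ∧
      4 * (Q : ℝ) * ((r : ℝ) + μ) ≤ 2 ^ k / (2 * (k + 1) ^ 2) ∧
      4 * (Q : ℝ) * (32 * μ + 16 * 2 ^ k / ℓ) *
        (Real.log (r * (2 ^ k + 1) ^ 2) + Real.log (4 * (k + 1) ^ 2))
          ≤ 2 ^ k / (2 * (k + 1) ^ 2) := by
  have hc : (0 : ℝ) < 1 / (2 * (5 + t)) := by positivity
  have hlog : ∀ᶠ n : ℕ in atTop, (1 : ℝ) ≤ Real.log n :=
    (Real.tendsto_log_atTop.comp tendsto_natCast_atTop_atTop).eventually_ge_atTop 1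
  filter_upwards [hlog, ev_log_pow 0 48 _ δ (by norm_num) hc hδ,
    ev_log_pow 2 288 _ (δ * 3) (by norm_num) hc (by positivity),
    ev_log_pow 3 38016 _ (δ * 2) (by norm_num) hc (by positivity),
    eventually_ge_atTop (5 + t)] with n hL h1 h2 h3 hn
  intro k Lc μ r ℓ Q hk hLc hμ hr hℓ hQ
  have hn5 : 5 ≤ n := by omega
  set x : ℝ := (n : ℝ) with hxdef
  have hx5 : (5 : ℝ) ≤ x := by rw [hxdef]; exact_mod_cast hn5
  have hx0 : 0 < x := by linarith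
  have hx1 : 1 ≤ x := by linarith
  set A : ℝ := x ^ α with hAdef
  set D : ℝ := x ^ δ with hDdef
  have hA : 1 ≤ A := Real.one_le_rpow hx1 hα0.le
  have hD : 1 ≤ D := Real.one_le_rpow hx1 hδ.le
  have hA0 : 0 < A := by linarith
  have hD0 : 0 < D := by linarith
  have pD : ∀ j : ℕ, x ^ (δ * j) = D ^ j := by
    intro j; rw [Real.rpow_mul hx0.le, Real.rpow_natCast]
  have p1 : x ^ (1 + α + 6 * δ) = x * (A * D ^ 6) := by
    rw [show 1 + α + 6 * δ = 1 + (α + δ * ((6 : ℕ) : ℝ)) by push_cast; ring, Real.rpow_add hx0,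
      Real.rpow_add hx0, pD, Real.rpow_one]
  have p2 : x ^ (1 - α - 6 * δ) = x / (A * D ^ 6) := by
    rw [show 1 - α - 6 * δ = 1 - (α + δ * ((6 : ℕ) : ℝ)) by push_cast; ring, Real.rpow_sub hx0,
      Real.rpow_add hx0, pD, Real.rpow_one]
  have p3 : x ^ (2 + δ) = x ^ 2 * D := by
    rw [Real.rpow_add hx0, ← hDdef, Real.rpow_two]
  have p4 : x ^ (α + 4 * δ) = A * D ^ 4 := by
    rw [show α + 4 * δ = α + δ * ((4 : ℕ) : ℝ) by push_cast; ring, Real.rpow_add hx0, pD]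
  have p5 : x ^ (α + 2 * δ) = A * D ^ 2 := by
    rw [show α + 2 * δ = α + δ * ((2 : ℕ) : ℝ) by push_cast; ring, Real.rpow_add hx0, pD]
  have p6 : A * D ^ 5 ≤ x := by
    have : A * D ^ 5 = x ^ (α + 5 * δ) := by
      rw [show α + 5 * δ = α + δ * ((5 : ℕ) : ℝ) by push_cast; ring, Real.rpow_add hx0, pD]
    rw [this]
    calc x ^ (α + 5 * δ) ≤ x ^ (1 : ℝ) := Real.rpow_le_rpow_of_exponent_le hx1 (by linarith)
      _ = x := Real.rpow_one x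
  have hAD6 : 1 ≤ A * D ^ 6 := one_le_mul_of_one_le_of_one_le hA (one_le_pow₀ hD)
  have hAD5 : 1 ≤ A * D ^ 5 := one_le_mul_of_one_le_of_one_le hA (one_le_pow₀ hD)
  have hAD4 : 1 ≤ A * D ^ 4 := one_le_mul_of_one_le_of_one_le hA (one_le_pow₀ hD)
  rw [p1] at hLc
  rw [p2] at hμ
  rw [p3] at hr
  rw [p4] at hℓ
  rw [p5] at hQ
  -- 2 ^ k
  have hnt : n / (5 + t) ≠ 0 := by
    have : 0 < n / (5 + t) := Nat.div_pos hn (by omega)
    omega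
  have hk1 : 2 ^ k ≤ n / (5 + t) := by rw [hk]; exact Nat.pow_log_le_self 2 hnt
  have hk2 : n / (5 + t) < 2 ^ (k + 1) := by
    rw [hk]; exact Nat.lt_pow_succ_log_self (by norm_num) _
  have hkn : 2 ^ k ≤ n := hk1.trans (Nat.div_le_self _ _)
  have hKx : (2 : ℝ) ^ k ≤ x := by rw [hxdef]; exact_mod_cast hkn
  have hK : 1 / (2 * (5 + (t : ℝ))) * x ≤ 2 ^ k := by
    have h5 : n < 2 ^ (k + 1) * (5 + t) := by
      rwa [Nat.div_lt_iff_lt_mul (by omega)] at hk2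
    have h6 : x ≤ 2 ^ (k + 1) * (5 + (t : ℝ)) := by
      rw [hxdef]; exact_mod_cast h5.le
    rw [div_mul_eq_mul_div, one_mul, div_le_iff₀ (by positivity)]
    calc x ≤ 2 ^ (k + 1) * (5 + (t : ℝ)) := h6
      _ = 2 ^ k * (2 * (5 + (t : ℝ))) := by ring
  have hK1 : (1 : ℝ) ≤ 2 ^ k := one_le_pow₀ (by norm_num)
  -- k + 1 ≤ 3 log x
  have hkL : ((k : ℝ) + 1) ≤ 3 * Real.log x := by
    have : (k : ℝ) * Real.log 2 ≤ Real.log x := by
      have := Real.log_le_log (by positivity) hKx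
      rwa [Real.log_pow] at this
    have h2 := Real.log_two_gt_d9
    have hk0 : (0 : ℝ) ≤ k := Nat.cast_nonneg k
    nlinarith
  have hk0 : (0 : ℝ) < (k : ℝ) + 1 := by positivity
  -- r
  have hLc1 : x * (A * D ^ 6) / 2 ≤ (Lc : ℝ) := by
    have h7 : x * (A * D ^ 6) < (Lc : ℝ) + 1 := by rw [hLc]; exact Nat.lt_floor_add_one _
    have h8 : 5 ≤ x * (A * D ^ 6) := by nlinarith
    linarith
  have hrr : (r : ℝ) * (A * D ^ 5) ≤ 3 * x := by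
    have h9 : (r : ℝ) ≤ (⌊x ^ 2 * D⌋₊ : ℝ) / Lc + 1 := by
      rw [hr]; push_cast; gcongr; exact Nat.cast_div_le
    have h10 : (⌊x ^ 2 * D⌋₊ : ℝ) ≤ x ^ 2 * D := Nat.floor_le (by positivity)
    have h11 : (r : ℝ) ≤ (x ^ 2 * D) / (x * (A * D ^ 6) / 2) + 1 := by
      refine h9.trans ?_
      gcongr
    have h12 : (x ^ 2 * D) / (x * (A * D ^ 6) / 2) * (A * D ^ 5) = 2 * x := by
      field_simp
    calc (r : ℝ) * (A * D ^ 5) ≤ ((x ^ 2 * D) / (x * (A * D ^ 6) / 2) + 1) * (A * D ^ 5) := by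
          gcongr
      _ = 2 * x + A * D ^ 5 := by rw [add_mul, h12, one_mul]
      _ ≤ 3 * x := by linarith
  have hr0 : (0 : ℝ) ≤ r := Nat.cast_nonneg r
  have hr3 : (r : ℝ) ≤ 3 * x := by
    have : (r : ℝ) * 1 ≤ r * (A * D ^ 5) := mul_le_mul_of_nonneg_left hAD5 hr0
    linarith
  have hr1 : (1 : ℝ) ≤ r := by
    have : 1 ≤ r := by rw [hr]; exact Nat.le_add_left 1 _
    exact_mod_cast this
  have hμ' : (μ : ℝ) * (A * D ^ 6) ≤ x := by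
    have : (μ : ℝ) ≤ x / (A * D ^ 6) := by rw [hμ]; exact Nat.floor_le (by positivity)
    rwa [le_div_iff₀ (by positivity)] at this
  have hℓ1 : (ℓ : ℝ) ≤ 2 * (A * D ^ 4) := by
    have : (ℓ : ℝ) < A * D ^ 4 + 1 := by rw [hℓ]; exact Nat.ceil_lt_add_one (by positivity)
    linarith
  have hℓ2 : A * D ^ 4 ≤ (ℓ : ℝ) := by rw [hℓ]; exact Nat.le_ceil _
  have hQ1 : (Q : ℝ) ≤ A * D ^ 2 := by rw [hQ]; exact Nat.floor_le (by positivity)
  -- logarithms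
  have hkx : (k : ℝ) + 1 ≤ 2 * x := by
    have : k < 2 ^ k := Nat.lt_two_pow_self
    have : (k : ℝ) < 2 ^ k := by exact_mod_cast this
    linarith
  have hG : Real.log (r * (2 ^ k + 1) ^ 2) + Real.log (4 * (k + 1) ^ 2) ≤ 11 * Real.log x := by
    have b1 : Real.log (r * (2 ^ k + 1) ^ 2) ≤ Real.log (12 * x ^ 3) := by
      apply Real.log_le_log (by positivity)
      calc (r : ℝ) * (2 ^ k + 1) ^ 2 ≤ (3 * x) * (x + x) ^ 2 := by gcongr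
        _ = 12 * x ^ 3 := by ring
    have b2 : Real.log (4 * ((k : ℝ) + 1) ^ 2) ≤ Real.log (16 * x ^ 2) := by
      apply Real.log_le_log (by positivity)
      calc 4 * ((k : ℝ) + 1) ^ 2 ≤ 4 * (2 * x) ^ 2 := by gcongr
        _ = 16 * x ^ 2 := by ring
    have b3 : Real.log (12 * x ^ 3) + Real.log (16 * x ^ 2)
        = Real.log 192 + 5 * Real.log x := by
      rw [← Real.log_mul (by positivity) (by positivity),
        show 12 * x ^ 3 * (16 * x ^ 2) = 192 * x ^ 5 by ring,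
        Real.log_mul (by norm_num) (by positivity), Real.log_pow]
      norm_num
    have b4 : Real.log 192 ≤ 6 := by
      have : Real.log 192 ≤ Real.log (2 ^ 8) := Real.log_le_log (by norm_num) (by norm_num)
      rw [Real.log_pow] at this
      have h2 := Real.log_two_lt_d9
      norm_num at this
      linarith
    linarith
  have hG0 : 0 ≤ Real.log (r * (2 ^ k + 1) ^ 2) + Real.log (4 * (k + 1) ^ 2) := by
    have c1 : (1 : ℝ) ≤ r * (2 ^ k + 1) ^ 2 :=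
      one_le_mul_of_one_le_of_one_le hr1 (one_le_pow₀ (by linarith))
    have c2 : (1 : ℝ) ≤ 4 * ((k : ℝ) + 1) ^ 2 := by
      have : (1 : ℝ) ≤ ((k : ℝ) + 1) ^ 2 := one_le_pow₀ (by linarith [Nat.cast_nonneg (α := ℝ) k])
      linarith
    have := Real.log_nonneg c1
    have := Real.log_nonneg c2
    linarith
  have hp3 : x ^ (δ * 3) = D ^ 3 := by have := pD 3; push_cast at this; exact this
  have hp2 : x ^ (δ * 2) = D ^ 2 := by have := pD 2; push_cast at this; exact this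
  rw [pow_zero, mul_one] at h1
  rw [hp3] at h2
  rw [hp2] at h3
  obtain ⟨f1, f2, f3⟩ := num_blue_alg x A D (Real.log x) (1 / (2 * (5 + (t : ℝ)))) (2 ^ k)
    ((k : ℝ) + 1) r μ ℓ Q (Real.log (r * (2 ^ k + 1) ^ 2) + Real.log (4 * (k + 1) ^ 2))
    hx1 hA hD hL hc hK hKx hk0 hkL hrr hr0 hμ' (Nat.cast_nonneg _) hℓ1 hℓ2 hQ1
    (Nat.cast_nonneg _) hG hG0 h1 h2 h3
  refine ⟨?_, f2, f3⟩
  exact_mod_cast f1

end Pool.Agent.UCR
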