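import Pool.Agent.UCR.Rank

/-!
# UCR Transfer: from a copy in the host to `IsCopy`

PROOF. `R i = rank G f (Sym2.map φ (e_i))` where `e_i` is the edge of `H` with `g e_i = i`
(`gsurj`, `ginj`; for `i ≥ (10 + B) 2 ^ k` any value). `X p a = φ (u p a)`, `Y p s = φ (v p s)`.
`IsCopy`: injectivity of `φ`, `ue`, `ve`; `mono` by `hord` and `rank_lt_rank`; `R1`, `R2`, `R3` by
`g1`, `g2`, `g3` (then `e_i` is the given edge as `g` is injective on the edges; for `R3` the
ends of the pair `ce h` have to be different, `hce1`).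
First count: if `μ < #{i' : R i' / Lc = R i / Lc}` then all these `i'` have
`dist (φ e_i) (φ e_i') = |R i - R i'| < Lc ≤ n ^ (1 + w)` (`dist_eq`), so `e_i` has more than `μ`,
hence more than `n ^ (1 - w)` (as `μ = floor`), edges within `n ^ (1 + w)`; `i ↦ e_i` is injective,
so if the count were `> C0 = ⌊c n⌋` the copy would be `Clustered`.
Second count: if `Γ < R (i + 1) - R i` then `dist > n ^ (1 + a)` (`Γ = floor`), and `e_i`, `e_(i+1)`
are consecutive; so more than `μ` such `i` would give `Gappy`.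
-/

set_option autoImplicit false

namespace Pool.Agent.UCR

private theorem mem_edges' {N : ℕ} (G : SimpleGraph (Fin N)) (e : Sym2 (Fin N)) :
    e ∈ edges G ↔ e ∈ G.edgeSet := by
  simp [edges]

private theorem card_le_ncard' {α : Type} [Finite α] (s : Finset ℕ) (S : Set α) (h : α → ℕ)
    (hs : ∀ i ∈ s, ∃ x ∈ S, h x = i) : s.card ≤ S.ncard := by
  have h1 : (s : Set ℕ) ⊆ h '' S := by
    intro i hi
    obtain ⟨x, hx, hxi⟩ := hs i (by exact_mod_cast hi)
    exact ⟨x, hx, hxi⟩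
  calc s.card = (s : Set ℕ).ncard := (Set.ncard_coe_finset s).symm
    _ ≤ (h '' S).ncard := Set.ncard_le_ncard h1 (Set.toFinite _)
    _ ≤ S.ncard := Set.ncard_image_le (Set.toFinite _)

private theorem same_window {L x y : ℕ} (hL : 0 < L) (h : x / L = y / L) :
    (x - y) + (y - x) < L := by
  have h1 := Nat.div_add_mod x L
  have h2 := Nat.div_add_mod y L
  have h3 := Nat.mod_lt x hL
  have h4 := Nat.mod_lt y hL
  rw [h] at h1
  omega

open Classical in
theorem transfer {n N k t B : ℕ} (σ : Equiv.Perm (Fin (2 ^ k))) (ce : Fin B → Fin t × Fin t)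
    (hce1 : ∀ h, (ce h).1 < (ce h).2)
    (H : SimpleGraph (Fin n)) (g : Sym2 (Fin n) → ℕ) (u : Fin (2 ^ k) → ZMod 5 → Fin n)
    (v : Fin (2 ^ k) → Fin t → Fin n) (hd : IsDesign n k t B σ ce H g u v)
    (G : SimpleGraph (Fin N)) (f : Sym2 (Fin N) → ℕ) (hf : Function.Injective f)
    (φ : Fin n → Fin N) (hφ : Function.Injective φ)
    (hG : ∀ e ∈ H.edgeSet, Sym2.map φ e ∈ G.edgeSet)
    (hord : ∀ e ∈ H.edgeSet, ∀ e' ∈ H.edgeSet,
      (g e < g e' ↔ f (Sym2.map φ e) < f (Sym2.map φ e')))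
    (a w c : ℝ) (Γ μ Lc C0 : ℕ) (hΓ : Γ = ⌊(n : ℝ) ^ (1 + a)⌋₊)
    (hμ : μ = ⌊(n : ℝ) ^ (1 - w)⌋₊) (hLc : Lc = ⌊(n : ℝ) ^ (1 + w)⌋₊)
    (hLc0 : 0 < Lc) (hC0 : C0 = ⌊c * n⌋₊)
    (h1 : ¬ Clustered H G f φ w c) (h2 : ¬ Gappy H g G f φ a w) :
    ∃ R : ℕ → ℕ,
      IsCopy (edges G) (rank G f) (2 ^ k) t B σ ce (fun p a => φ (u p a)) (fun p s => φ (v p s))
        R ∧
      ((Finset.range ((10 + B) * 2 ^ k)).filter (fun i => μ <
        ((Finset.range ((10 + B) * 2 ^ k)).filter (fun i' => R i' / Lc = R i / Lc)).card)).card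
          ≤ C0 ∧
      ((Finset.range ((10 + B) * 2 ^ k)).filter
        (fun i => i + 1 < (10 + B) * 2 ^ k ∧ Γ < R (i + 1) - R i)).card ≤ μ := by
  have hch : ∀ i : ℕ, ∃ r : ℕ, ∀ e ∈ H.edgeSet, g e = i → rank G f (Sym2.map φ e) = r := by
    intro i
    by_cases hi : ∃ e ∈ H.edgeSet, g e = i
    · obtain ⟨e, he, hge⟩ := hi
      refine ⟨rank G f (Sym2.map φ e), fun e' he' hge' => ?_⟩
      rw [hd.ginj he' he (hge'.trans hge.symm)]
    · exact ⟨0, fun e he hge => absurd ⟨e, he, hge⟩ hi⟩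
  choose R hR using hch
  have hG' : ∀ e ∈ H.edgeSet, Sym2.map φ e ∈ edges G := fun e he => (mem_edges' G _).2 (hG e he)
  have hdist : ∀ e ∈ H.edgeSet, ∀ e' ∈ H.edgeSet,
      dist G f (Sym2.map φ e) (Sym2.map φ e') = (R (g e') - R (g e)) + (R (g e) - R (g e')) := by
    intro e he e' he'
    rw [dist_eq G f hf _ _ (hG' e he) (hG' e' he'), hR (g e) e he rfl, hR (g e') e' he' rfl]
  have hne1 : ∀ x : ZMod 5, x ≠ x + 1 := by decide
  have hne2 : ∀ x : ZMod 5, x ≠ x + 2 := by decide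
  refine ⟨R, ⟨?_, ?_, ?_, ?_, ?_, ?_, ?_, ?_⟩, ?_, ?_⟩
  · intro p
    exact hφ.comp (hd.uinj p)
  · intro p
    exact hφ.comp (hd.vinj p)
  · intro p x y hxy
    exact hG' _ (hd.ue p x y hxy)
  · intro p x y hxy
    exact hG' _ (hd.ve p x y hxy)
  · intro i j hij hj
    obtain ⟨e, he, hge⟩ := hd.gsurj i (lt_trans hij hj)
    obtain ⟨e', he', hge'⟩ := hd.gsurj j hj
    rw [← hR i e he hge, ← hR j e' he' hge', rank_lt_rank G f hf _ _ (hG' e he) (hG' e' he'),
      ← hord e he e' he', hge, hge']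
    exact hij
  · intro p x
    have := hR _ _ (hd.ue p x (x + 1) (hne1 x)) (hd.g1 p x)
    exact this
  · intro p x
    have := hR _ _ (hd.ue p x (x + 2) (hne2 x)) (hd.g2 p x)
    exact this
  · intro h p
    have := hR _ _ (hd.ve p (ce h).1 (ce h).2 (hce1 h).ne) (hd.g3 h p)
    exact this
  · rw [hC0]
    apply Nat.le_floor
    have h1' := not_lt.1 h1
    refine le_trans ?_ h1'
    norm_cast
    refine card_le_ncard' _ _ g ?_
    intro i hi
    rw [Finset.mem_filter, Finset.mem_range] at hi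
    obtain ⟨e, he, hge⟩ := hd.gsurj i hi.1
    refine ⟨e, ⟨he, ?_⟩, hge⟩
    have h3 : (n : ℝ) ^ (1 - w) < (μ : ℝ) + 1 := by
      rw [hμ]
      exact Nat.lt_floor_add_one _
    refine lt_of_lt_of_le h3 ?_
    have h4 : μ + 1 ≤ ((Finset.range ((10 + B) * 2 ^ k)).filter
        (fun i' => R i' / Lc = R i / Lc)).card := hi.2
    refine le_trans (b := ((((Finset.range ((10 + B) * 2 ^ k)).filter
        (fun i' => R i' / Lc = R i / Lc)).card : ℕ) : ℝ)) (by exact_mod_cast h4) ?_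
    norm_cast
    refine card_le_ncard' _ _ g ?_
    intro i' hi'
    rw [Finset.mem_filter, Finset.mem_range] at hi'
    obtain ⟨e', he', hge'⟩ := hd.gsurj i' hi'.1
    refine ⟨e', ⟨he', ?_⟩, hge'⟩
    rw [hdist e he e' he', hge, hge']
    have h5 := same_window hLc0 hi'.2
    have h6 : (Lc : ℝ) ≤ (n : ℝ) ^ (1 + w) := by
      rw [hLc]
      exact Nat.floor_le (Real.rpow_nonneg (Nat.cast_nonneg n) _)
    refine le_trans ?_ h6
    exact_mod_cast h5.le
  · rw [hμ]
    apply Nat.le_floor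
    have h2' := not_lt.1 h2
    refine le_trans ?_ h2'
    norm_cast
    refine card_le_ncard' _ _ (fun p => g p.1) ?_
    intro i hi
    rw [Finset.mem_filter, Finset.mem_range] at hi
    obtain ⟨hi0, hi1, hi2⟩ := hi
    obtain ⟨e, he, hge⟩ := hd.gsurj i hi0
    obtain ⟨e', he', hge'⟩ := hd.gsurj (i + 1) hi1
    refine ⟨(e, e'), ⟨he, he', ?_, ?_, ?_⟩, hge⟩
    · show g e < g e'
      omega
    · intro x _ hx
      have hx1 : g e < g x := hx.1
      have hx2 : g x < g e' := hx.2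
      omega
    · show (n : ℝ) ^ (1 + a) < (dist G f (Sym2.map φ e) (Sym2.map φ e') : ℝ)
      rw [hdist e he e' he', hge, hge']
      have h3 : (n : ℝ) ^ (1 + a) < (Γ : ℝ) + 1 := by
        rw [hΓ]
        exact Nat.lt_floor_add_one _
      refine lt_of_lt_of_le h3 ?_
      have h4 : Γ + 1 ≤ (R (i + 1) - R i) + (R i - R (i + 1)) := by omega
      exact_mod_cast h4

end Pool.Agent.UCR
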