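import Pool.Agent.UCR.Comb
import Pool.Agent.UCR.Design
import Pool.Agent.UCR.Transfer
import Pool.Agent.UCR.NumA
import Pool.Agent.UCR.NumB
import Pool.Agent.UCR.NumC

/-!
# UCR Final: the main theorem
-/

set_option autoImplicit false

namespace Pool.Agent.UCR

open Filter

theorem card_pairs (t : ℕ) :
    2 * Fintype.card {q : Fin t × Fin t // q.1 < q.2} = t * (t - 1) := by
  classical
  have h1 : Fintype.card {q : Fin t × Fin t // q.1 < q.2}
      = (Finset.univ.filter (fun q : Fin t × Fin t => q.1 < q.2)).card :=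
    Fintype.card_subtype _
  have h2 : (Finset.univ.filter (fun q : Fin t × Fin t => q.2 < q.1)).card
      = (Finset.univ.filter (fun q : Fin t × Fin t => q.1 < q.2)).card := by
    refine Finset.card_bij (fun q _ => (q.2, q.1)) ?_ ?_ ?_
    · intro q hq
      simpa using hq
    · intro q _ q' _ h
      rw [Prod.mk.injEq] at h
      exact Prod.ext h.2 h.1
    · intro q hq
      exact ⟨(q.2, q.1), by simpa using hq, rfl⟩
  have h3 : (Finset.univ : Finset (Fin t)).offDiag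
      = Finset.univ.filter (fun q : Fin t × Fin t => q.1 < q.2) ∪
        Finset.univ.filter (fun q : Fin t × Fin t => q.2 < q.1) := by
    ext q
    simp only [Finset.mem_offDiag, Finset.mem_univ, true_and, Finset.mem_union, Finset.mem_filter]
    exact ne_iff_lt_or_gt
  have h4 : Disjoint (Finset.univ.filter (fun q : Fin t × Fin t => q.1 < q.2))
      (Finset.univ.filter (fun q : Fin t × Fin t => q.2 < q.1)) := by
    rw [Finset.disjoint_left]
    intro q hq hq'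
    exact lt_asymm (Finset.mem_filter.mp hq).2 (Finset.mem_filter.mp hq').2
  have h5 := Finset.offDiag_card (s := (Finset.univ : Finset (Fin t)))
  rw [h3, Finset.card_union_of_disjoint h4, h2, Finset.card_univ, Fintype.card_fin] at h5
  rw [h1, Nat.mul_sub, mul_one]
  omega

theorem exists_ce (t h : ℕ) (hh : 4 * h = t * (t - 1)) :
    ∃ ce : Fin (2 * h) → Fin t × Fin t, Function.Injective ce ∧ (∀ i, (ce i).1 < (ce i).2) ∧
      ∀ a b : Fin t, a < b → ∃ i, ce i = (a, b) := by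
  have hc : Fintype.card {q : Fin t × Fin t // q.1 < q.2} = 2 * h := by
    have := card_pairs t
    omega
  let e := (Fintype.equivFinOfCardEq hc).symm
  exact ⟨fun i => (e i).1, fun i j hij => e.injective (Subtype.ext hij), fun i => (e i).2,
    fun a b hab => ⟨e.symm ⟨(a, b), hab⟩, by simp⟩⟩

theorem main (a w : ℝ) (ha : 0 ≤ a) (h1 : (1 + a) / 3 < w) (h2 : w < 1 / 2) :
    ∃ Δ : ℕ, ∃ c : ℝ, 0 < c ∧ ∃ ε : ℝ, 0 < ε ∧ ∃ n₀ : ℕ, ∀ n : ℕ, n₀ ≤ n →
      ∃ (H : SimpleGraph (Fin n)) (g : Sym2 (Fin n) → ℕ), Set.InjOn g H.edgeSet ∧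
        (∀ x : Fin n, (H.neighborSet x).ncard ≤ Δ) ∧
        ∀ (N : ℕ) (G : SimpleGraph (Fin N)) (f : Sym2 (Fin N) → ℕ), Function.Injective f →
          (G.edgeSet.ncard : ℝ) ≤ (n : ℝ) ^ (2 + ε) →
          ∃ col : Sym2 (Fin N) → Bool, ∀ φ : Fin n → Fin N, IsMonoCopy H g G f col φ →
            Clustered H G f φ w c ∨ Gappy H g G f φ a w := by
  obtain ⟨α, hα⟩ : ∃ α : ℝ, α = (1 + a) / 3 := ⟨_, rfl⟩
  obtain ⟨δ, hδ⟩ : ∃ δ : ℝ, δ = (w - α) / 6 := ⟨_, rfl⟩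
  have ea : 1 + a = 3 * α := by rw [hα]; ring
  have ew : w = α + 6 * δ := by rw [hδ]; ring
  have hα3 : 1 / 3 ≤ α := by rw [hα]; linarith
  have hδ0 : 0 < δ := by rw [hδ, hα]; linarith
  have hw : α + 6 * δ < 1 / 2 := by rw [← ew]; exact h2
  obtain ⟨t, h, ht, hh, hred⟩ := num_red α δ hα3 hδ0
  obtain ⟨ce, hce, hce1, hce2⟩ := exists_ce t h hh
  have hbas := num_basic α δ t (by linarith) hδ0 hw
  have hblu := num_blue α δ t (by linarith) hδ0 hw
  obtain ⟨n₀, hn₀⟩ := eventually_atTop.mp (hred.and (hbas.and hblu))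
  refine ⟨t, 1 / (48 * (5 + (t : ℝ))), by positivity, δ, hδ0, n₀, fun n hn => ?_⟩
  obtain ⟨hr, ⟨b1, b2, b3, b4, b5, b6, b7, _, b9, b10, b11⟩, hb⟩ := hn₀ n hn
  obtain ⟨c1, c2, c3⟩ := hb _ _ _ _ _ _ rfl rfl rfl rfl rfl rfl
  obtain ⟨σ, hσ⟩ := exists_mixing (Nat.log 2 (n / (5 + t)))
  obtain ⟨H, g, u, v, hd⟩ := exists_design (Nat.log 2 (n / (5 + t))) t (2 * h) n ht b7 σ ce hce
    hce1 hce2
  refine ⟨H, g, hd.ginj, hd.deg, fun N G f hf hG => ?_⟩
  have hcard : (edges G).card ≤ ⌊(n : ℝ) ^ (2 + δ)⌋₊ := by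
    apply Nat.le_floor
    have := Set.ncard_eq_toFinset_card G.edgeSet
    unfold edges
    rw [← this]
    exact hG
  obtain ⟨col, hcol⟩ := main_comb (edges G) (rank G f) (rank_injOn G f hf) _ hcard
    (fun e he => lt_of_lt_of_le (rank_lt_card G f e he) hcard) _ t (2 * h) h _ _ _ _ _ _ _ _ σ hσ
    ce hce hce2 ht hh rfl b1 b2 b3 b4 b5 b6 b9 b10 b11 c1 hr c2 c3
  refine ⟨col, fun φ hφ => ?_⟩
  by_contra hcon
  push Not at hcon
  obtain ⟨hn1, hn2⟩ := hcon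
  obtain ⟨hφ1, hφ2, hφ3, b, hφ4⟩ := hφ
  obtain ⟨R, hR, hR1, hR2⟩ := transfer σ ce hce1 H g u v hd G f hf φ hφ1 hφ2 hφ3 a w _ _ _ _ _
    (by rw [ea]) (by rw [show (1 : ℝ) - w = 1 - α - 6 * δ by rw [ew]; ring])
    (by rw [show (1 : ℝ) + w = 1 + α + 6 * δ by rw [ew]; ring]) b2 rfl hn1 hn2
  exact hcol _ _ R hR ⟨b, fun p x y hxy => hφ4 _ (hd.ue p x y hxy),
    fun p x y hxy => hφ4 _ (hd.ve p x y hxy)⟩ hR1 hR2

end Pool.Agent.UCR
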