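import Pool.Agent.UCR.Stmt

/-!
# UCR Mono: monotonicity of Clustered and Gappy

PROOF. `Clustered`: for `w ≤ w'` and `n ≥ 1` the threshold `n ^ (1 - w')` is smaller and the radius
`n ^ (1 + w')` is larger, all sets are finite. `Gappy`: for `a' ≤ a`, `w ≤ w'` the threshold is
smaller and the set is larger.
-/

set_option autoImplicit false

namespace Pool.Agent.UCR

private lemma pw {n : ℕ} (hn : 1 ≤ n) {x y : ℝ} (h : x ≤ y) : (n : ℝ) ^ x ≤ (n : ℝ) ^ y :=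
  Real.rpow_le_rpow_of_exponent_le (by exact_mod_cast hn) h

theorem Clustered.mono {n N : ℕ} (hn : 1 ≤ n) {H : SimpleGraph (Fin n)} {G : SimpleGraph (Fin N)}
    {f : Sym2 (Fin N) → ℕ} {φ : Fin n → Fin N} {w w' c : ℝ} (hw : w ≤ w')
    (h : Clustered H G f φ w c) : Clustered H G f φ w' c := by
  unfold Clustered at h ⊢
  refine lt_of_lt_of_le h ?_
  have h1 : (n : ℝ) ^ (1 - w') ≤ (n : ℝ) ^ (1 - w) := pw hn (by linarith)
  have h2 : (n : ℝ) ^ (1 + w) ≤ (n : ℝ) ^ (1 + w') := pw hn (by linarith)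
  rw [Nat.cast_le]
  refine Set.ncard_le_ncard ?_ (Set.toFinite _)
  rintro e ⟨he, h3⟩
  refine ⟨he, lt_of_le_of_lt h1 (lt_of_lt_of_le h3 ?_)⟩
  rw [Nat.cast_le]
  refine Set.ncard_le_ncard ?_ (Set.toFinite _)
  rintro e' ⟨he', h4⟩
  exact ⟨he', h4.trans h2⟩

theorem Gappy.mono {n N : ℕ} (hn : 1 ≤ n) {H : SimpleGraph (Fin n)} {g : Sym2 (Fin n) → ℕ}
    {G : SimpleGraph (Fin N)} {f : Sym2 (Fin N) → ℕ} {φ : Fin n → Fin N} {a a' w w' : ℝ}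
    (ha : a' ≤ a) (hw : w ≤ w') (h : Gappy H g G f φ a w) : Gappy H g G f φ a' w' := by
  unfold Gappy at h ⊢
  have h1 : (n : ℝ) ^ (1 - w') ≤ (n : ℝ) ^ (1 - w) := pw hn (by linarith)
  have h2 : (n : ℝ) ^ (1 + a') ≤ (n : ℝ) ^ (1 + a) := pw hn (by linarith)
  refine lt_of_le_of_lt h1 (lt_of_lt_of_le h ?_)
  rw [Nat.cast_le]
  refine Set.ncard_le_ncard ?_ (Set.toFinite _)
  rintro p ⟨q1, q2, q3, q4, q5⟩
  exact ⟨q1, q2, q3, q4, lt_of_le_of_lt h2 q5⟩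

end Pool.Agent.UCR
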