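import Pool.Agent.UCR.Defs

/-!
# UCR NumB2: parameters, condition for the red union bound, several types

PROOF. Take `t` with `t ≥ 5` and `t - 1 > 8 s (2 + δ) / δ + 8 s` and
`h = t (t - 1) / (4 s)` (floor), so that `s (2 h) ≤ t (t - 1) / 2` and
`h ≥ t (t - 1) / (4 s) - 1 > (2 + δ) t / δ` (`s ≥ 1`). For large `n`: `m ≤ n ^ (2 + δ)`,
`lam ≤ 2 n ^ (α + δ)`, `Q ≥ n ^ (α + 2 δ) / 2`. So `(40 lam) ^ h ≤ (80 n ^ (α + δ)) ^ h` and it is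
enough that `4 * 2 ^ t * 4 ^ (t (t - 1) / 2) * 160 ^ h * n ^ ((2 + δ) t) ≤ n ^ (δ h)`, where
`(2 + δ) t < δ h`.
-/

set_option autoImplicit false

namespace Pool.Agent.UCR

open Filter

private lemma floor_half (y : ℝ) (hy : 1 ≤ y) : y / 2 ≤ (⌊y⌋₊ : ℝ) := by
  have h1 : (1 : ℝ) ≤ ⌊y⌋₊ := by
    have : 1 ≤ ⌊y⌋₊ := Nat.le_floor (by exact_mod_cast hy)
    exact_mod_cast this
  have h2 := Nat.lt_floor_add_one y
  linarith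

private lemma ceil_two (y : ℝ) (hy : 1 ≤ y) : (⌈y⌉₊ : ℝ) ≤ 2 * y := by
  have h2 := Nat.ceil_lt_add_one (le_trans zero_le_one hy)
  linarith

private lemma num_key (t h T : ℕ) (δ α x : ℝ) (hα : 0 < α) (hδ : 0 < δ) (hx : 1 ≤ x)
    (hC : 4 * 2 ^ t * 4 ^ T * 160 ^ h ≤ x ^ (δ * h - (2 + δ) * t)) :
    (4 : ℝ) * (2 * (⌊x ^ (2 + δ)⌋₊ : ℝ)) ^ t * 4 ^ T * (40 * (⌈x ^ (α + δ)⌉₊ : ℝ)) ^ h ≤
      (⌊x ^ (α + 2 * δ)⌋₊ : ℝ) ^ h := by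
  have hx0 : (0 : ℝ) < x := by linarith
  have hA : (⌊x ^ (2 + δ)⌋₊ : ℝ) ≤ x ^ (2 + δ) := Nat.floor_le (by positivity)
  have hB : (⌈x ^ (α + δ)⌉₊ : ℝ) ≤ 2 * x ^ (α + δ) :=
    ceil_two _ (Real.one_le_rpow hx (by linarith))
  have hD : x ^ (α + 2 * δ) / 2 ≤ (⌊x ^ (α + 2 * δ)⌋₊ : ℝ) :=
    floor_half _ (Real.one_le_rpow hx (by linarith))
  have e1 : (x ^ (2 + δ)) ^ t = x ^ ((2 + δ) * t) := by
    rw [← Real.rpow_natCast, ← Real.rpow_mul hx0.le]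
  have e2 : (x ^ (α + δ)) ^ h = x ^ ((α + δ) * h) := by
    rw [← Real.rpow_natCast, ← Real.rpow_mul hx0.le]
  have e3 : (x ^ (α + 2 * δ)) ^ h = x ^ ((α + 2 * δ) * h) := by
    rw [← Real.rpow_natCast, ← Real.rpow_mul hx0.le]
  have e4 : x ^ (δ * h - (2 + δ) * t) * x ^ ((2 + δ) * t) * x ^ ((α + δ) * h) =
      x ^ ((α + 2 * δ) * h) := by
    rw [← Real.rpow_add hx0, ← Real.rpow_add hx0]
    congr 1
    ring
  calc (4 : ℝ) * (2 * (⌊x ^ (2 + δ)⌋₊ : ℝ)) ^ t * 4 ^ T * (40 * (⌈x ^ (α + δ)⌉₊ : ℝ)) ^ h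
      ≤ 4 * (2 * x ^ (2 + δ)) ^ t * 4 ^ T * (40 * (2 * x ^ (α + δ))) ^ h := by gcongr
    _ = (4 * 2 ^ t * 4 ^ T * 160 ^ h) * x ^ ((2 + δ) * t) * x ^ ((α + δ) * h) / 2 ^ h := by
        have e5 : (160 : ℝ) ^ h = 80 ^ h * 2 ^ h := by
          rw [← mul_pow]
          norm_num
        have e6 : (40 * (2 * x ^ (α + δ))) ^ h = 80 ^ h * (x ^ (α + δ)) ^ h := by
          rw [← mul_pow]
          ring
        rw [mul_pow 2 (x ^ (2 + δ)) t, e6, e1, e2, e5]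
        field_simp
    _ ≤ x ^ (δ * h - (2 + δ) * t) * x ^ ((2 + δ) * t) * x ^ ((α + δ) * h) / 2 ^ h := by
        gcongr
    _ = (x ^ (α + 2 * δ) / 2) ^ h := by
        rw [e4, div_pow, e3]
    _ ≤ (⌊x ^ (α + 2 * δ)⌋₊ : ℝ) ^ h := by
        gcongr

theorem num_red' (s : ℕ) (δ : ℝ) (hs : 0 < s) (hδ : 0 < δ) :
    ∃ t h : ℕ, 5 ≤ t ∧ s * (2 * h) ≤ t * (t - 1) / 2 ∧ ∀ α : ℝ, 0 < α → ∀ᶠ n : ℕ in atTop,
      4 * (2 * ⌊(n : ℝ) ^ (2 + δ)⌋₊) ^ t * 4 ^ (t * (t - 1) / 2) *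
        (40 * ⌈(n : ℝ) ^ (α + δ)⌉₊) ^ h ≤ ⌊(n : ℝ) ^ (α + 2 * δ)⌋₊ ^ h := by
  obtain ⟨K, hK⟩ := exists_nat_gt ((2 + δ) / δ)
  have hK1 : 2 + δ < K * δ := (div_lt_iff₀ hδ).mp hK
  have hK0 : 0 < K := by
    have : (0 : ℝ) < K := lt_trans (by positivity) hK
    exact_mod_cast this
  have hsK : 1 ≤ s * K := Nat.mul_pos hs hK0
  obtain ⟨t, ht⟩ : ∃ t : ℕ, t = 4 * (s * K) + 1 := ⟨_, rfl⟩
  refine ⟨t, K * t, by omega, ?_, ?_⟩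
  · have h0 : t - 1 = 4 * (s * K) := by omega
    have h1 : t * (t - 1) = (s * (2 * (K * t))) * 2 := by
      rw [h0]
      ring
    rw [h1, Nat.mul_div_cancel _ (by norm_num)]
  · intro α hα
    have htpos : (0 : ℝ) < t := by
      have : 0 < t := by omega
      exact_mod_cast this
    have hexp : 0 < δ * ((K * t : ℕ) : ℝ) - (2 + δ) * t := by
      push_cast
      nlinarith
    have hev : ∀ᶠ n : ℕ in atTop,
        (4 * 2 ^ t * 4 ^ (t * (t - 1) / 2) * 160 ^ (K * t) : ℝ) ≤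
          (n : ℝ) ^ (δ * ((K * t : ℕ) : ℝ) - (2 + δ) * t) :=
      ((tendsto_rpow_atTop hexp).comp tendsto_natCast_atTop_atTop).eventually_ge_atTop _
    filter_upwards [hev, eventually_ge_atTop 1] with n hn hn1
    have hx1 : (1 : ℝ) ≤ n := by exact_mod_cast hn1
    have key := num_key t (K * t) (t * (t - 1) / 2) δ α n hα hδ hx1 hn
    exact_mod_cast key

end Pool.Agent.UCR
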