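import Pool.Agent.UCR.Defs

/-!
# UCR NumD: parameters, comparison of windows of different sizes

PROOF. `2 ^ k > n / (2 (5 + t))` for `k = Nat.log 2 (n / (5 + t))`, `n ≥ 5 + t`. The first summand
is at most `s n / (48 (5 + t) (s + 1)) ≤ n / (48 (5 + t)) < 2 ^ k / 24`. For large `n`:
`Lc' / Lc ≤ 2 n ^ (α' - α)`, so the second is at most
`s K (2 n ^ (α' - α) + 2) n ^ (1 - α - 6 δ)`, exponents `1 + α' - 2 α - 6 δ < 1 - 12 δ`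
(`α' + 6 δ < 1 / 2`, `α ≥ 1 / 4`) and `1 - α - 6 δ < 1`.
-/

set_option autoImplicit false

namespace Pool.Agent.UCR

open Filter

private lemma small_pow (e C c : ℝ) (he : e < 1) (hc : 0 < c) :
    ∀ᶠ n : ℕ in atTop, C * (n : ℝ) ^ e < c * n := by
  have h1 : Tendsto (fun n : ℕ => C * (n : ℝ) ^ (-(1 - e))) atTop (nhds (C * 0)) :=
    ((tendsto_rpow_neg_atTop (by linarith : 0 < 1 - e)).comp
      tendsto_natCast_atTop_atTop).const_mul C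
  rw [mul_zero] at h1
  filter_upwards [h1.eventually_lt_const hc, eventually_ge_atTop 1] with n hn hn1
  have hn0 : (0 : ℝ) < n := by exact_mod_cast hn1
  have h2 : (n : ℝ) ^ e = (n : ℝ) ^ (-(1 - e)) * n := by
    conv_rhs => rw [← Real.rpow_one (n : ℝ)]
    rw [← Real.rpow_mul hn0.le, one_mul, ← Real.rpow_add hn0]
    congr 1
    ring
  rw [h2, ← mul_assoc]
  exact mul_lt_mul_of_pos_right hn hn0

theorem num_multi (α α' δ : ℝ) (t s K : ℕ) (hα : 1 / 4 ≤ α) (hδ : 0 < δ)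
    (hw : α + 6 * δ < 1 / 2) (hα' : 1 / 4 ≤ α') (hw' : α' + 6 * δ < 1 / 2) :
    ∀ᶠ n : ℕ in atTop,
      s * (⌊1 / (48 * (5 + (t : ℝ)) * (s + 1)) * n⌋₊ +
        K * (⌊(n : ℝ) ^ (1 + α' + 6 * δ)⌋₊ / ⌊(n : ℝ) ^ (1 + α + 6 * δ)⌋₊ + 2) *
          ⌊(n : ℝ) ^ (1 - α - 6 * δ)⌋₊) < 2 ^ Nat.log 2 (n / (5 + t)) := by
  have ht : (0 : ℝ) ≤ t := Nat.cast_nonneg t
  have hs : (0 : ℝ) ≤ s := Nat.cast_nonneg s
  have hK : (0 : ℝ) ≤ K := Nat.cast_nonneg K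
  have hc : (0 : ℝ) < 1 / (16 * (5 + (t : ℝ))) := by positivity
  filter_upwards [small_pow (1 + α' - 2 * α - 6 * δ) (s * (K * 2)) _ (by linarith) hc,
    small_pow (1 - α - 6 * δ) (s * (K * 2)) _ (by linarith) hc,
    eventually_ge_atTop (5 + t), eventually_ge_atTop 2] with n h1 h2 hn hn2
  have hn0 : (0 : ℝ) < n := by
    have : 0 < n := by omega
    exact_mod_cast this
  have hn2' : (2 : ℝ) ≤ n := by exact_mod_cast hn2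
  -- the power of two
  have hp : (n : ℝ) < 2 * 2 ^ Nat.log 2 (n / (5 + t)) * (5 + t) := by
    have e1 : n / (5 + t) < 2 ^ (Nat.log 2 (n / (5 + t)) + 1) :=
      Nat.lt_pow_succ_log_self (by norm_num) _
    have e2 : n < 2 ^ (Nat.log 2 (n / (5 + t)) + 1) * (5 + t) :=
      (Nat.div_lt_iff_lt_mul (by omega)).1 e1
    have e3 : (n : ℝ) < ((2 ^ (Nat.log 2 (n / (5 + t)) + 1) * (5 + t) : ℕ) : ℝ) := by
      exact_mod_cast e2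
    push_cast at e3
    rw [pow_succ] at e3
    linarith
  -- the first summand
  have h3 : (s : ℝ) * (⌊1 / (48 * (5 + (t : ℝ)) * (s + 1)) * n⌋₊ : ℝ) ≤
      n / (48 * (5 + (t : ℝ))) := by
    have e1 : (⌊1 / (48 * (5 + (t : ℝ)) * (s + 1)) * n⌋₊ : ℝ) ≤
        1 / (48 * (5 + (t : ℝ)) * (s + 1)) * n := Nat.floor_le (by positivity)
    refine (mul_le_mul_of_nonneg_left e1 hs).trans ?_
    have e2 : (s : ℝ) * (1 / (48 * (5 + (t : ℝ)) * (s + 1)) * n) =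
        (s / (s + 1)) * (n / (48 * (5 + (t : ℝ)))) := by
      field_simp
    rw [e2]
    refine mul_le_of_le_one_left (by positivity) ?_
    rw [div_le_one (by positivity)]
    linarith
  -- the quotient of the windows
  have h4 : ((⌊(n : ℝ) ^ (1 + α' + 6 * δ)⌋₊ / ⌊(n : ℝ) ^ (1 + α + 6 * δ)⌋₊ : ℕ) : ℝ) ≤
      2 * (n : ℝ) ^ (α' - α) := by
    have e0 : (2 : ℝ) ≤ (n : ℝ) ^ (1 + α + 6 * δ) := by
      calc (2 : ℝ) ≤ n := hn2'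
        _ = (n : ℝ) ^ (1 : ℝ) := (Real.rpow_one _).symm
        _ ≤ (n : ℝ) ^ (1 + α + 6 * δ) :=
          Real.rpow_le_rpow_of_exponent_le (by linarith) (by linarith)
    have e1 : (n : ℝ) ^ (1 + α + 6 * δ) / 2 ≤ (⌊(n : ℝ) ^ (1 + α + 6 * δ)⌋₊ : ℝ) := by
      have := Nat.lt_floor_add_one ((n : ℝ) ^ (1 + α + 6 * δ))
      linarith
    have e2 : (⌊(n : ℝ) ^ (1 + α' + 6 * δ)⌋₊ : ℝ) ≤ (n : ℝ) ^ (1 + α' + 6 * δ) :=
      Nat.floor_le (by positivity)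
    refine Nat.cast_div_le.trans ?_
    have e3 : (n : ℝ) ^ (1 + α' + 6 * δ) = (n : ℝ) ^ (α' - α) * (n : ℝ) ^ (1 + α + 6 * δ) := by
      rw [← Real.rpow_add hn0]
      congr 1
      ring
    rw [div_le_iff₀ (by linarith)]
    calc (⌊(n : ℝ) ^ (1 + α' + 6 * δ)⌋₊ : ℝ) ≤ (n : ℝ) ^ (1 + α' + 6 * δ) := e2
      _ = 2 * (n : ℝ) ^ (α' - α) * ((n : ℝ) ^ (1 + α + 6 * δ) / 2) := by rw [e3]; ring
      _ ≤ 2 * (n : ℝ) ^ (α' - α) * (⌊(n : ℝ) ^ (1 + α + 6 * δ)⌋₊ : ℝ) :=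
        mul_le_mul_of_nonneg_left e1 (by positivity)
  have h5 : (⌊(n : ℝ) ^ (1 - α - 6 * δ)⌋₊ : ℝ) ≤ (n : ℝ) ^ (1 - α - 6 * δ) :=
    Nat.floor_le (by positivity)
  -- the second summand
  have h6 : (s : ℝ) * (K * (((⌊(n : ℝ) ^ (1 + α' + 6 * δ)⌋₊ /
      ⌊(n : ℝ) ^ (1 + α + 6 * δ)⌋₊ : ℕ) : ℝ) + 2) * (⌊(n : ℝ) ^ (1 - α - 6 * δ)⌋₊ : ℝ)) ≤
      s * (K * 2) * (n : ℝ) ^ (1 + α' - 2 * α - 6 * δ) +
        s * (K * 2) * (n : ℝ) ^ (1 - α - 6 * δ) := by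
    have e1 : (n : ℝ) ^ (1 + α' - 2 * α - 6 * δ) =
        (n : ℝ) ^ (α' - α) * (n : ℝ) ^ (1 - α - 6 * δ) := by
      rw [← Real.rpow_add hn0]
      congr 1
      ring
    have e2 : (K : ℝ) * (((⌊(n : ℝ) ^ (1 + α' + 6 * δ)⌋₊ /
        ⌊(n : ℝ) ^ (1 + α + 6 * δ)⌋₊ : ℕ) : ℝ) + 2) * (⌊(n : ℝ) ^ (1 - α - 6 * δ)⌋₊ : ℝ) ≤
        K * (2 * (n : ℝ) ^ (α' - α) + 2) * (n : ℝ) ^ (1 - α - 6 * δ) := by
      refine mul_le_mul ?_ h5 (Nat.cast_nonneg _) (by positivity)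
      exact mul_le_mul_of_nonneg_left (by linarith) hK
    refine (mul_le_mul_of_nonneg_left e2 hs).trans (le_of_eq ?_)
    rw [e1]
    ring
  have h7 : (n : ℝ) / (2 * (5 + t)) < 2 ^ Nat.log 2 (n / (5 + t)) := by
    rw [div_lt_iff₀ (by positivity)]
    linarith
  have h8 : ((s * (⌊1 / (48 * (5 + (t : ℝ)) * (s + 1)) * n⌋₊ +
        K * (⌊(n : ℝ) ^ (1 + α' + 6 * δ)⌋₊ / ⌊(n : ℝ) ^ (1 + α + 6 * δ)⌋₊ + 2) *
          ⌊(n : ℝ) ^ (1 - α - 6 * δ)⌋₊) : ℕ) : ℝ) <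
      ((2 ^ Nat.log 2 (n / (5 + t)) : ℕ) : ℝ) := by
    push_cast only [Nat.cast_mul, Nat.cast_add, Nat.cast_pow, Nat.cast_ofNat]
    have e3 : (n : ℝ) / (48 * (5 + (t : ℝ))) + (1 / (16 * (5 + (t : ℝ))) * n +
        1 / (16 * (5 + (t : ℝ))) * n) ≤ (n : ℝ) / (2 * (5 + t)) := by
      have e4 : (n : ℝ) / (2 * (5 + t)) - ((n : ℝ) / (48 * (5 + (t : ℝ))) +
          (1 / (16 * (5 + (t : ℝ))) * n + 1 / (16 * (5 + (t : ℝ))) * n)) =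
          17 * n / (48 * (5 + (t : ℝ))) := by
        field_simp
        ring
      have e5 : (0 : ℝ) ≤ 17 * n / (48 * (5 + (t : ℝ))) := by positivity
      linarith
    rw [mul_add]
    linarith
  exact_mod_cast h8

end Pool.Agent.UCR
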