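import Pool.Agent.UCR.Multi
import Pool.Agent.UCR.Design
import Pool.Agent.UCR.Transfer
import Pool.Agent.UCR.NumA
import Pool.Agent.UCR.NumB2
import Pool.Agent.UCR.NumC
import Pool.Agent.UCR.NumD
import Pool.Agent.UCR.Mono

/-!
# UCR Final2: the main theorem, one colouring for all scales
-/

set_option autoImplicit false

namespace Pool.Agent.UCR

open Filter

theorem exists_ce' (t : ℕ) :
    ∃ ce : Fin (t * (t - 1) / 2) → Fin t × Fin t, Function.Injective ce ∧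
      (∀ i, (ce i).1 < (ce i).2) ∧ ∀ a b : Fin t, a < b → ∃ i, ce i = (a, b) := by
  have hc : Fintype.card {q : Fin t × Fin t // q.1 < q.2} = t * (t - 1) / 2 := by
    rw [← card_pairs' t]
    exact Fintype.card_subtype _
  let e := (Fintype.equivFinOfCardEq hc).symm
  exact ⟨fun i => (e i).1, fun i j hij => e.injective (Subtype.ext hij), fun i => (e i).2,
    fun a b hab => ⟨e.symm ⟨(a, b), hab⟩, by simp⟩⟩

theorem main2_small (δ : ℝ) (hδ : 0 < δ) (hδ8 : δ ≤ 1 / 8) :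
    ∃ Δ : ℕ, ∃ c : ℝ, 0 < c ∧ ∃ ε : ℝ, 0 < ε ∧ ∃ n₀ : ℕ, ∀ n : ℕ, n₀ ≤ n →
      ∃ (H : SimpleGraph (Fin n)) (g : Sym2 (Fin n) → ℕ), Set.InjOn g H.edgeSet ∧
        (∀ x : Fin n, (H.neighborSet x).ncard ≤ Δ) ∧
        ∀ (N : ℕ) (G : SimpleGraph (Fin N)) (f : Sym2 (Fin N) → ℕ), Function.Injective f →
          (G.edgeSet.ncard : ℝ) ≤ (n : ℝ) ^ (2 + ε) →
          ∃ col : Sym2 (Fin N) → Bool, ∀ φ : Fin n → Fin N, IsMonoCopy H g G f col φ →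
            ∀ a : ℝ, -1 / 4 ≤ a → a ≤ 1 / 2 - 3 * δ →
              Clustered H G f φ ((1 + a) / 3 + δ) c ∨ Gappy H g G f φ a ((1 + a) / 3 + δ) := by
  obtain ⟨s, hsdef⟩ : ∃ s : ℕ, s = ⌈1 / δ - 2⌉₊ := ⟨_, rfl⟩
  obtain ⟨d, hd⟩ : ∃ d : ℝ, d = δ / 12 := ⟨_, rfl⟩
  have hd0 : 0 < d := by rw [hd]; positivity
  have h8 : 8 ≤ 1 / δ := by
    rw [le_div_iff₀ hδ]
    linarith
  have hs0 : 0 < s := by
    rw [hsdef]
    exact Nat.ceil_pos.mpr (by linarith)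
  obtain ⟨al, hal⟩ : ∃ al : Fin s → ℝ,
      al = fun j : Fin s => 1 / 4 + ((j : ℕ) : ℝ) * (δ / 4) := ⟨_, rfl⟩
  have hal4 : ∀ j, 1 / 4 ≤ al j := fun j => by
    rw [hal]
    have : (0 : ℝ) ≤ ((j : ℕ) : ℝ) * (δ / 4) := by positivity
    simpa using this
  have hal0 : ∀ j, 0 < al j := fun j => lt_of_lt_of_le (by norm_num) (hal4 j)
  have halw : ∀ j, al j + 6 * d < 1 / 2 := fun j => by
    have h1 : ((j : ℕ) : ℝ) < 1 / δ - 2 := by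
      have := j.isLt
      exact Nat.lt_ceil.mp (lt_of_lt_of_eq this hsdef)
    have h2 : ((j : ℕ) : ℝ) * δ < 1 - 2 * δ := by
      calc ((j : ℕ) : ℝ) * δ < (1 / δ - 2) * δ := by gcongr
        _ = 1 - 2 * δ := by field_simp
    rw [hal, hd]
    show 1 / 4 + ((j : ℕ) : ℝ) * (δ / 4) + 6 * (δ / 12) < 1 / 2
    linarith
  obtain ⟨t, h, ht, hhs, hred⟩ := num_red' s d hs0 hd0
  obtain ⟨ce, hce, hce1, hce2⟩ := exists_ce' t
  have hbas := eventually_all.mpr fun j : Fin s => num_basic (al j) d t (hal0 j) hd0 (halw j)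
  have hblu := eventually_all.mpr fun j : Fin s => num_blue (al j) d t (hal0 j) hd0 (halw j)
  have hrd := eventually_all.mpr fun j : Fin s => hred (al j) (hal0 j)
  have hmul := eventually_all.mpr fun q : Fin s × Fin s =>
    num_multi (al q.1) (al q.2) d t s (10 + t * (t - 1) / 2) (hal4 _) hd0 (halw _) (hal4 _)
      (halw _)
  obtain ⟨n₀, hn₀⟩ := eventually_atTop.mp
    ((eventually_ge_atTop 1).and (hrd.and (hbas.and (hblu.and hmul))))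
  refine ⟨t, 1 / (48 * (5 + (t : ℝ)) * (s + 1)), by positivity, d, hd0, n₀, fun n hn => ?_⟩
  obtain ⟨hn1, hr, hba, hb, hmu⟩ := hn₀ n hn
  have hb' := fun j => hb j _ _ _ _ _ _ rfl rfl rfl rfl rfl rfl
  obtain ⟨σ, hσ⟩ := exists_mixing (Nat.log 2 (n / (5 + t)))
  obtain ⟨H, g, u, v, hds⟩ := exists_design (Nat.log 2 (n / (5 + t))) t (t * (t - 1) / 2) n ht
    (hba ⟨0, hs0⟩).2.2.2.2.2.2.1 σ ce hce hce1 hce2
  refine ⟨H, g, hds.ginj, hds.deg, fun N G f hf hG => ?_⟩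
  have hcard : (edges G).card ≤ ⌊(n : ℝ) ^ (2 + d)⌋₊ := by
    apply Nat.le_floor
    have := Set.ncard_eq_toFinset_card G.edgeSet
    unfold edges
    rw [← this]
    exact hG
  have hC0 : 8 * ⌊1 / (48 * (5 + (t : ℝ)) * (s + 1)) * n⌋₊ ≤ 2 ^ Nat.log 2 (n / (5 + t)) := by
    refine le_trans (Nat.mul_le_mul_left 8 (Nat.floor_le_floor ?_))
      (hba ⟨0, hs0⟩).2.2.2.2.2.2.2.2.2.1
    have h1 : 48 * (5 + (t : ℝ)) ≤ 48 * (5 + (t : ℝ)) * (s + 1) := by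
      have : (0 : ℝ) ≤ 48 * (5 + (t : ℝ)) * s := by positivity
      linarith
    exact mul_le_mul_of_nonneg_right (one_div_le_one_div_of_le (by positivity) h1)
      (Nat.cast_nonneg n)
  obtain ⟨col, hcol⟩ := multi (edges G) (rank G f) (rank_injOn G f hf) _ hcard
    (fun e he => lt_of_lt_of_le (rank_lt_card G f e he) hcard) _ t _ h
    ⌊1 / (48 * (5 + (t : ℝ)) * (s + 1)) * n⌋₊ s
    (fun j => ⌊(n : ℝ) ^ (3 * al j)⌋₊) (fun j => ⌊(n : ℝ) ^ (1 + al j + 6 * d)⌋₊)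
    (fun j => ⌈(n : ℝ) ^ (al j + d)⌉₊) (fun j => ⌊(n : ℝ) ^ (al j + 2 * d)⌋₊)
    (fun j => ⌊(n : ℝ) ^ (1 - al j - 6 * d)⌋₊) (fun j => ⌈(n : ℝ) ^ (al j + 4 * d)⌉₊)
    (fun j => ⌊(n : ℝ) ^ (2 + d)⌋₊ / ⌊(n : ℝ) ^ (1 + al j + 6 * d)⌋₊ + 1) σ hσ
    ce hce hce2 ht hs0 hhs (fun j => rfl) (fun j => (hba j).1) (fun j => (hba j).2.1)
    (fun j => (hba j).2.2.1) (fun j => (hba j).2.2.2.1) (fun j => (hba j).2.2.2.2.1)
    (fun j => (hba j).2.2.2.2.2.1) hC0 (fun j => (hb' j).1) hr (fun j => (hb' j).2.1)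
    (fun j => (hb' j).2.2) (fun j0 j => hmu (j0, j))
  refine ⟨col, fun φ hφ a ha1 ha2 => ?_⟩
  by_contra hcon
  push Not at hcon
  obtain ⟨hn1', hn2'⟩ := hcon
  obtain ⟨x, hx⟩ : ∃ x : ℝ, x = ((1 + a) / 3 - 1 / 4) * (4 / δ) := ⟨_, rfl⟩
  have hx0 : 0 ≤ x := by
    rw [hx]
    apply mul_nonneg _ (by positivity)
    linarith
  have hxδ : x * (δ / 4) = (1 + a) / 3 - 1 / 4 := by
    rw [hx]
    field_simp
  have hx1 : x ≤ 1 / δ - 4 := by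
    have h1 : (1 + a) / 3 - 1 / 4 ≤ 1 / 4 - δ := by linarith
    calc x = ((1 + a) / 3 - 1 / 4) * (4 / δ) := hx
      _ ≤ (1 / 4 - δ) * (4 / δ) := by gcongr
      _ = 1 / δ - 4 := by field_simp
  have hj1 : (⌈x⌉₊ : ℝ) < x + 1 := Nat.ceil_lt_add_one hx0
  have hjs : ⌈x⌉₊ < s := by
    rw [hsdef]
    exact Nat.lt_ceil.mpr (by linarith)
  obtain ⟨j, hj⟩ : ∃ j : Fin s, j = ⟨⌈x⌉₊, hjs⟩ := ⟨_, rfl⟩
  have hjx : x ≤ ((j : ℕ) : ℝ) := by rw [hj]; exact Nat.le_ceil x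
  have hjx1 : ((j : ℕ) : ℝ) < x + 1 := by rw [hj]; exact hj1
  have ha_le : (1 + a) / 3 ≤ al j := by
    have : x * (δ / 4) ≤ ((j : ℕ) : ℝ) * (δ / 4) := by gcongr
    rw [hal]
    show (1 + a) / 3 ≤ 1 / 4 + ((j : ℕ) : ℝ) * (δ / 4)
    linarith
  have ha_ge : al j ≤ (1 + a) / 3 + δ / 4 := by
    have : ((j : ℕ) : ℝ) * (δ / 4) ≤ (x + 1) * (δ / 4) := by gcongr
    rw [hal]
    show 1 / 4 + ((j : ℕ) : ℝ) * (δ / 4) ≤ (1 + a) / 3 + δ / 4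
    linarith
  have hwj : al j + 6 * d ≤ (1 + a) / 3 + δ := by rw [hd]; linarith
  have haj : a ≤ 3 * al j - 1 := by linarith
  obtain ⟨hφ1, hφ2, hφ3, b, hφ4⟩ := hφ
  obtain ⟨R, hR, hR1, hR2⟩ := transfer σ ce hce1 H g u v hds G f hf φ hφ1 hφ2 hφ3
    (3 * al j - 1) (al j + 6 * d) (1 / (48 * (5 + (t : ℝ)) * (s + 1)))
    ⌊(n : ℝ) ^ (3 * al j)⌋₊ ⌊(n : ℝ) ^ (1 - al j - 6 * d)⌋₊ ⌊(n : ℝ) ^ (1 + al j + 6 * d)⌋₊
    ⌊1 / (48 * (5 + (t : ℝ)) * (s + 1)) * n⌋₊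
    (by rw [show (1 : ℝ) + (3 * al j - 1) = 3 * al j by ring])
    (by rw [show (1 : ℝ) - (al j + 6 * d) = 1 - al j - 6 * d by ring])
    (by rw [show (1 : ℝ) + (al j + 6 * d) = 1 + al j + 6 * d by ring]) (hba j).2.1 rfl
    (fun hcl => hn1' (hcl.mono hn1 hwj)) (fun hgp => hn2' (hgp.mono hn1 haj hwj))
  exact hcol _ _ R hR ⟨b, fun p x y hxy => hφ4 _ (hds.ue p x y hxy),
    fun p x y hxy => hφ4 _ (hds.ve p x y hxy)⟩ j hR1 hR2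

theorem main2 (δ : ℝ) (hδ : 0 < δ) :
    ∃ Δ : ℕ, ∃ c : ℝ, 0 < c ∧ ∃ ε : ℝ, 0 < ε ∧ ∃ n₀ : ℕ, ∀ n : ℕ, n₀ ≤ n →
      ∃ (H : SimpleGraph (Fin n)) (g : Sym2 (Fin n) → ℕ), Set.InjOn g H.edgeSet ∧
        (∀ x : Fin n, (H.neighborSet x).ncard ≤ Δ) ∧
        ∀ (N : ℕ) (G : SimpleGraph (Fin N)) (f : Sym2 (Fin N) → ℕ), Function.Injective f →
          (G.edgeSet.ncard : ℝ) ≤ (n : ℝ) ^ (2 + ε) →
          ∃ col : Sym2 (Fin N) → Bool, ∀ φ : Fin n → Fin N, IsMonoCopy H g G f col φ →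
            ∀ a : ℝ, -1 / 4 ≤ a → a ≤ 1 / 2 - 3 * δ →
              Clustered H G f φ ((1 + a) / 3 + δ) c ∨ Gappy H g G f φ a ((1 + a) / 3 + δ) := by
  obtain ⟨Δ, c, hc, ε, hε, n₀, hn₀⟩ := main2_small (min δ (1 / 8)) (lt_min hδ (by norm_num))
    (min_le_right _ _)
  refine ⟨Δ, c, hc, ε, hε, max n₀ 1, fun n hn => ?_⟩
  obtain ⟨H, g, hg, hdeg, hH⟩ := hn₀ n (le_of_max_le_left hn)
  refine ⟨H, g, hg, hdeg, fun N G f hf hG => ?_⟩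
  obtain ⟨col, hcol⟩ := hH N G f hf hG
  refine ⟨col, fun φ hφ a ha1 ha2 => ?_⟩
  have hmin : min δ (1 / 8) ≤ δ := min_le_left _ _
  have hw : (1 + a) / 3 + min δ (1 / 8) ≤ (1 + a) / 3 + δ := by linarith
  rcases hcol φ hφ a ha1 (by linarith) with h | h
  · exact Or.inl (h.mono (le_of_max_le_right hn) hw)
  · exact Or.inr (h.mono (le_of_max_le_right hn) le_rfl hw)

end Pool.Agent.UCR
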