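import Pool.Agent.UCR.RedCount

/-!
# UCR RedUnion2: no clique with edges in different windows and many red edges

Variant of `red_union`: only `2 h` of the pairs of the clique are red.

PROOF. Let `f` be in the set and `y` as there. `t ≥ 2`, so every `y a` is in the set `V'` of the
vertices of the pairs in `E`, `|V'| ≤ 2 |E| ≤ 2 m`; so there are at most `(2 m) ^ t` maps `y`
(maps `Fin t → V'`). Let `I'` be the set of the red pairs `q`, a subset of the
`P = t (t - 1) / 2` pairs `q.1 < q.2`: at most `2 ^ P` possibilities. For fixed `y`, `I'` with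
`2 h ≤ |I'|` apply `red_count` with `I = I'` (subtype), `Lab = Fin r × Fin r`,
`S q = {T : s(y q.1, y q.2) ∈ R (T.1, T.2)}` (at most `s`
elements by `hR1`), and each `T` is in `S q` for at most two `q` by `hR2`, as the windows
`W s(y q.1, y q.2)` are pairwise distinct. So
`4 * #set * Q ^ h ≤ 4 (2 m) ^ t 2 ^ P 2 ^ P s ^ h Q ^ (r ^ 2) ≤ Q ^ h Q ^ (r ^ 2)`; cancel
`Q ^ h > 0`.
-/

set_option autoImplicit false

namespace Pool.Agent.UCR

private lemma ru2_pairs (t : ℕ) :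
    (Finset.univ.filter (fun q : Fin t × Fin t => q.1 < q.2)).card = t * (t - 1) / 2 := by
  rw [Finset.card_filter, Fintype.sum_prod_type_right]
  have h1 : ∀ b : Fin t, (∑ a : Fin t, if a < b then 1 else 0) = (b : ℕ) := by
    intro b
    rw [← Finset.card_filter]
    have : Finset.univ.filter (fun a : Fin t => a < b) = Finset.Iio b := by
      ext a; simp
    rw [this, Fin.card_Iio]
  rw [Finset.sum_congr rfl (fun b _ => h1 b), Fin.sum_univ_eq_sum_range (fun i => i) t,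
    Finset.sum_range_id]

open Classical in
private lemma ru2_rc {Lab I : Type} [Fintype Lab] [Fintype I] (Q s h : ℕ)
    (S : I → Finset Lab) (hS : ∀ e, (S e).card ≤ s)
    (h2 : ∀ T : Lab, ∀ A : Finset I, (∀ e ∈ A, T ∈ S e) → A.card ≤ 2)
    (hI : 2 * h ≤ Fintype.card I) (B : Finset (Lab → Fin Q))
    (hB : ∀ f ∈ B, ∀ e : I, ∃ T ∈ S e, (f T : ℕ) = 0) :
    B.card * Q ^ h ≤ 2 ^ Fintype.card I * s ^ h * Q ^ Fintype.card Lab := by
  have key := red_count Q s h S hS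
    (fun T => h2 T _ (fun e he => (Finset.mem_filter.1 he).2)) hI
  exact le_trans (Nat.mul_le_mul_right _ (Finset.card_le_card
    (fun f hf => Finset.mem_filter.2 ⟨Finset.mem_univ _, hB f hf⟩))) key

private lemma ru2_fixed {V : Type} (E : Finset (Sym2 V)) (W : Sym2 V → ℕ)
    (r Q s h t : ℕ) (R : ℕ × ℕ → Finset (Sym2 V))
    (hR1 : ∀ e : Sym2 V, ∃ S : Finset (ℕ × ℕ), S.card ≤ s ∧ ∀ T, e ∈ R T → T ∈ S)
    (hR2 : ∀ T, ∀ e ∈ R T, e ∈ E ∧ (W e = T.1 ∨ W e = T.2))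
    (y : Fin t → V) (I' : Finset (Fin t × Fin t)) (hI : ∀ q ∈ I', q.1 < q.2)
    (hW : ∀ a b a' b' : Fin t, a < b → a' < b' → W s(y a, y b) = W s(y a', y b') →
          a = a' ∧ b = b') (hh : 2 * h ≤ I'.card)
    (B : Finset (Fin r × Fin r → Fin Q))
    (hB : ∀ f ∈ B, ∀ q ∈ I', ∃ T : Fin r × Fin r,
      s(y q.1, y q.2) ∈ R ((T.1 : ℕ), (T.2 : ℕ)) ∧ (f T : ℕ) = 0) :
    B.card * Q ^ h ≤ 2 ^ I'.card * s ^ h * Q ^ (r ^ 2) := by
  classical
  have hwin : ∀ q q' : {q // q ∈ I'}, W s(y q.1.1, y q.1.2) = W s(y q'.1.1, y q'.1.2) →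
      q = q' := by
    intro q q' hqq
    have := hW _ _ _ _ (hI q.1 q.2) (hI q'.1 q'.2) hqq
    exact Subtype.ext (Prod.ext this.1 this.2)
  have h1 : ∀ c : ℕ, (Finset.univ.filter (fun q : {q // q ∈ I'} =>
      W s(y q.1.1, y q.1.2) = c)).card ≤ 1 := by
    intro c
    rw [Finset.card_le_one]
    intro q hq q' hq'
    exact hwin q q' ((Finset.mem_filter.1 hq).2.trans (Finset.mem_filter.1 hq').2.symm)
  have hex : ∀ q : {q // q ∈ I'}, ∃ S : Finset (Fin r × Fin r), S.card ≤ s ∧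
      ∀ T, T ∈ S ↔ s(y q.1.1, y q.1.2) ∈ R ((T.1 : ℕ), (T.2 : ℕ)) := by
    intro q
    refine ⟨Finset.univ.filter (fun T : Fin r × Fin r =>
        s(y q.1.1, y q.1.2) ∈ R ((T.1 : ℕ), (T.2 : ℕ))), ?_, ?_⟩
    · obtain ⟨S, hS, hS2⟩ := hR1 s(y q.1.1, y q.1.2)
      refine le_trans (Finset.card_le_card_of_injOn
        (fun T : Fin r × Fin r => ((T.1 : ℕ), (T.2 : ℕ))) ?_ ?_) hS
      · intro T hT
        exact hS2 _ (Finset.mem_filter.1 (Finset.mem_coe.1 hT)).2
      · intro T _ T' _ hTT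
        have h3 := congrArg Prod.fst hTT
        have h4 := congrArg Prod.snd hTT
        exact Prod.ext (Fin.ext h3) (Fin.ext h4)
    · intro T
      rw [Finset.mem_filter]
      exact ⟨fun h => h.2, fun h => ⟨Finset.mem_univ _, h⟩⟩
  choose S hS1 hS2 using hex
  have hc : Fintype.card (Fin r × Fin r) = r ^ 2 := by
    rw [Fintype.card_prod, Fintype.card_fin, sq]
  have key := ru2_rc (Lab := Fin r × Fin r) (I := {q // q ∈ I'}) Q s h S hS1
    (fun T A hA => le_trans (Finset.card_le_card (t :=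
        Finset.univ.filter (fun q : {q // q ∈ I'} => W s(y q.1.1, y q.1.2) = (T.1 : ℕ)) ∪
        Finset.univ.filter (fun q : {q // q ∈ I'} => W s(y q.1.1, y q.1.2) = (T.2 : ℕ)))
        (fun q hq => by
          have hq1 := (hS2 q T).1 (hA q hq)
          rcases (hR2 _ _ hq1).2 with h5 | h5
          · exact Finset.mem_union_left _ (Finset.mem_filter.2 ⟨Finset.mem_univ _, h5⟩)
          · exact Finset.mem_union_right _ (Finset.mem_filter.2 ⟨Finset.mem_univ _, h5⟩)))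
      (le_trans (Finset.card_union_le _ _) (by
        have h6 := h1 (T.1 : ℕ)
        have h7 := h1 (T.2 : ℕ)
        omega)))
    (by rw [Fintype.card_coe]; exact hh) B
    (fun f hf q => by
      obtain ⟨T, hT, hT2⟩ := hB f hf q.1 q.2
      exact ⟨T, (hS2 q T).2 hT, hT2⟩)
  rw [Fintype.card_coe, hc] at key
  exact key

private lemma ru2_count {V : Type} (E : Finset (Sym2 V)) (W : Sym2 V → ℕ)
    (r Q s h t m : ℕ) (ht : 2 ≤ t) (hm : E.card ≤ m)
    (R : ℕ × ℕ → Finset (Sym2 V))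
    (hR1 : ∀ e : Sym2 V, ∃ S : Finset (ℕ × ℕ), S.card ≤ s ∧ ∀ T, e ∈ R T → T ∈ S)
    (hR2 : ∀ T, ∀ e ∈ R T, e ∈ E ∧ (W e = T.1 ∨ W e = T.2))
    (A : Finset (Fin r × Fin r → Fin Q))
    (hA : ∀ f ∈ A, ∃ y : Fin t → V, ∃ I' : Finset (Fin t × Fin t),
      (∀ a b : Fin t, a < b → s(y a, y b) ∈ E) ∧
      (∀ a b a' b' : Fin t, a < b → a' < b' → W s(y a, y b) = W s(y a', y b') →
        a = a' ∧ b = b') ∧ 2 * h ≤ I'.card ∧ (∀ q ∈ I', q.1 < q.2) ∧
      ∀ q ∈ I', ∃ T : Fin r × Fin r,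
        s(y q.1, y q.2) ∈ R ((T.1 : ℕ), (T.2 : ℕ)) ∧ (f T : ℕ) = 0) :
    A.card * Q ^ h ≤
      ((2 * m) ^ t * 2 ^ (t * (t - 1) / 2)) * (2 ^ (t * (t - 1) / 2) * s ^ h * Q ^ (r ^ 2)) := by
  classical
  rcases A.eq_empty_or_nonempty with hA0 | ⟨g0, hg0⟩
  · rw [hA0, Finset.card_empty, Nat.zero_mul]
    exact Nat.zero_le _
  have hne : Nonempty (Fin t → V) := ⟨(hA g0 hg0).choose⟩
  choose! y I' hy1 hy2 hy3 hy4 hy5 using hA
  set V' : Finset V := E.biUnion (fun e => e.toFinset) with hV'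
  have hV'c : V'.card ≤ 2 * m := by
    refine le_trans Finset.card_biUnion_le ?_
    have h1 : ∀ e ∈ E, e.toFinset.card ≤ 2 := by
      intro e _
      rw [Sym2.card_toFinset]
      split_ifs <;> omega
    refine le_trans (Finset.sum_le_card_nsmul E _ 2 h1) ?_
    rw [smul_eq_mul]
    omega
  set Pr : Finset (Fin t × Fin t) := Finset.univ.filter (fun q => q.1 < q.2) with hPr
  have hPrc : Pr.card = t * (t - 1) / 2 := ru2_pairs t
  have hKc : ((Fintype.piFinset (fun _ : Fin t => V')) ×ˢ Pr.powerset).card ≤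
      (2 * m) ^ t * 2 ^ (t * (t - 1) / 2) := by
    rw [Finset.card_product, Finset.card_powerset, hPrc, Fintype.card_piFinset]
    refine Nat.mul_le_mul_right _ ?_
    rw [Finset.prod_const, Finset.card_univ, Fintype.card_fin]
    exact Nat.pow_le_pow_left hV'c t
  have hmaps : ∀ f ∈ A, (y f, I' f) ∈
      (Fintype.piFinset (fun _ : Fin t => V')) ×ˢ Pr.powerset := by
    intro f hf
    refine Finset.mem_product.2 ⟨Fintype.mem_piFinset.2 ?_, ?_⟩
    · intro a
      rw [hV', Finset.mem_biUnion]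
      obtain ⟨b, hb⟩ : ∃ b : Fin t, b ≠ a := by
        have : Nontrivial (Fin t) := Fin.nontrivial_iff_two_le.2 ht
        exact exists_ne a
      rcases lt_or_gt_of_ne hb with h1 | h1
      · exact ⟨_, hy1 f hf b a h1, by rw [Sym2.mem_toFinset]; exact Sym2.mem_mk_right _ _⟩
      · exact ⟨_, hy1 f hf a b h1, by rw [Sym2.mem_toFinset]; exact Sym2.mem_mk_left _ _⟩
    · rw [Finset.mem_powerset]
      intro q hq
      exact Finset.mem_filter.2 ⟨Finset.mem_univ _, hy4 f hf q hq⟩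
  have hfib : ∀ p : (Fin t → V) × Finset (Fin t × Fin t),
      (A.filter (fun f => (y f, I' f) = p)).card * Q ^ h ≤
      2 ^ (t * (t - 1) / 2) * s ^ h * Q ^ (r ^ 2) := by
    intro p
    rcases Finset.eq_empty_or_nonempty (A.filter (fun f => (y f, I' f) = p)) with h0 | ⟨f0, hf0⟩
    · rw [h0, Finset.card_empty, Nat.zero_mul]
      exact Nat.zero_le _
    · obtain ⟨hf1, hf2⟩ := Finset.mem_filter.1 hf0
      have hfy : y f0 = p.1 := by rw [← hf2]
      have hfI : I' f0 = p.2 := by rw [← hf2]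
      have h1 := ru2_fixed E W r Q s h t R hR1 hR2 p.1 p.2
        (by rw [← hfI]; exact hy4 f0 hf1)
        (by rw [← hfy]; exact hy2 f0 hf1)
        (by rw [← hfI]; exact hy3 f0 hf1)
        (A.filter (fun f => (y f, I' f) = p)) (by
          intro f hf q hq
          obtain ⟨hg1, hg2⟩ := Finset.mem_filter.1 hf
          have hgy : y f = p.1 := by rw [← hg2]
          have hgI : I' f = p.2 := by rw [← hg2]
          rw [← hgy]
          exact hy5 f hg1 q (by rw [hgI]; exact hq))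
      refine le_trans h1 ?_
      have h2 : p.2.card ≤ t * (t - 1) / 2 := by
        rw [← hPrc, ← hfI]
        exact Finset.card_le_card (Finset.mem_powerset.1
          (Finset.mem_product.1 (hmaps f0 hf1)).2)
      exact Nat.mul_le_mul_right _ (Nat.mul_le_mul_right _
        (Nat.pow_le_pow_right (by norm_num) h2))
  calc A.card * Q ^ h
      = (∑ p ∈ (Fintype.piFinset (fun _ : Fin t => V')) ×ˢ Pr.powerset,
          (A.filter (fun f => (y f, I' f) = p)).card) * Q ^ h := by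
        rw [← Finset.card_eq_sum_card_fiberwise hmaps]
    _ = ∑ p ∈ (Fintype.piFinset (fun _ : Fin t => V')) ×ˢ Pr.powerset,
          (A.filter (fun f => (y f, I' f) = p)).card * Q ^ h := Finset.sum_mul _ _ _
    _ ≤ ∑ _p ∈ (Fintype.piFinset (fun _ : Fin t => V')) ×ˢ Pr.powerset,
          2 ^ (t * (t - 1) / 2) * s ^ h * Q ^ (r ^ 2) :=
        Finset.sum_le_sum (fun p _ => hfib p)
    _ = ((Fintype.piFinset (fun _ : Fin t => V')) ×ˢ Pr.powerset).card *
          (2 ^ (t * (t - 1) / 2) * s ^ h * Q ^ (r ^ 2)) := by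
        rw [Finset.sum_const, smul_eq_mul]
    _ ≤ _ := Nat.mul_le_mul_right _ hKc

open Classical in
theorem red_union' {V : Type} [DecidableEq V] (E : Finset (Sym2 V)) (W : Sym2 V → ℕ)
    (r Q s h t m : ℕ) (ht : 2 ≤ t) (hm : E.card ≤ m) (hQ : 0 < Q)
    (R : ℕ × ℕ → Finset (Sym2 V))
    (hR1 : ∀ e : Sym2 V, ∃ S : Finset (ℕ × ℕ), S.card ≤ s ∧ ∀ T, e ∈ R T → T ∈ S)
    (hR2 : ∀ T, ∀ e ∈ R T, e ∈ E ∧ (W e = T.1 ∨ W e = T.2))
    (hnum : 4 * (2 * m) ^ t * 4 ^ (t * (t - 1) / 2) * s ^ h ≤ Q ^ h) :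
    4 * (Finset.univ.filter (fun f : Fin r × Fin r → Fin Q =>
      ∃ y : Fin t → V, (∀ a b : Fin t, a < b → s(y a, y b) ∈ E) ∧
        (∀ a b a' b' : Fin t, a < b → a' < b' → W s(y a, y b) = W s(y a', y b') →
          a = a' ∧ b = b') ∧
        2 * h ≤ (Finset.univ.filter (fun q : Fin t × Fin t => q.1 < q.2 ∧
          ∃ T : Fin r × Fin r, (f T : ℕ) = 0 ∧
            s(y q.1, y q.2) ∈ R ((T.1 : ℕ), (T.2 : ℕ)))).card)).card
      ≤ Q ^ (r ^ 2) := by
  have h4 : 4 ^ (t * (t - 1) / 2) = 2 ^ (t * (t - 1) / 2) * 2 ^ (t * (t - 1) / 2) := by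
    rw [← mul_pow]; norm_num
  refine Nat.le_of_mul_le_mul_right (c := Q ^ h) ?_ (Nat.pow_pos hQ)
  rw [mul_assoc]
  refine le_trans (Nat.mul_le_mul_left 4
    (ru2_count E W r Q s h t m ht hm R hR1 hR2 _ (fun f hf => ?_))) ?_
  · obtain ⟨y, hy1, hy2, hy3⟩ := (Finset.mem_filter.1 hf).2
    refine ⟨y, _, hy1, hy2, hy3, ?_, ?_⟩
    · intro q hq
      exact (Finset.mem_filter.1 hq).2.1
    · intro q hq
      obtain ⟨_, T, hT, hT2⟩ := (Finset.mem_filter.1 hq).2
      exact ⟨T, hT2, hT⟩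
  calc 4 * (((2 * m) ^ t * 2 ^ (t * (t - 1) / 2)) *
            (2 ^ (t * (t - 1) / 2) * s ^ h * Q ^ (r ^ 2)))
      = (4 * (2 * m) ^ t * 4 ^ (t * (t - 1) / 2) * s ^ h) * Q ^ (r ^ 2) := by
          rw [h4]; ring
    _ ≤ Q ^ h * Q ^ (r ^ 2) := Nat.mul_le_mul_right _ hnum
    _ = Q ^ (r ^ 2) * Q ^ h := mul_comm _ _

end Pool.Agent.UCR
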