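import Pool.Agent.UCR.Defs

/-!
# UCR Spread2: windows of different sizes

PROOF of `bad_spread` (variant of `exists_spread` of StructB). The edges of round `h` of the clique
`p` have index `i(h, p) = 10 M + h M + p`. If `i(h, p)` and `i(h', p)`, `h < h'`, are in the same
window then so are the at least `M + 1` indices between them (`R` is increasing), so `i(h, p)` is
counted in `hC`. So every bad `p` gives an `h` with `i(h, p)` counted in `hC`; `p` is `i % M`, so
there are at most `C` bad `p`. (`ce` is injective and reaches every pair `a < b`.)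

PROOF of `dense_le`. Call a class `{i' : R i' / Lc' = j}` with at least `M` elements large; the
classes are disjoint, so there are at most `K` large ones (`m ≤ K M`, `0 < M`). The indices of a
large class have at most `Lc' / Lc + 2` values of `R i / Lc` (the `R i` are in an interval of length
`Lc'`). Those `i` of a large class which are not counted in `hC` lie in classes
`{i' : R i' / Lc = j}` with at most `μ` elements: at most `(Lc' / Lc + 2) μ` in each large class.
-/

set_option autoImplicit false

namespace Pool.Agent.UCR

open Classical in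
theorem bad_spread {V : Type} (E : Finset (Sym2 V)) (rk : Sym2 V → ℕ) (M t B : ℕ)
    (σ : Equiv.Perm (Fin M)) (ce : Fin B → Fin t × Fin t)
    (hce : Function.Injective ce) (hce2 : ∀ a b : Fin t, a < b → ∃ h, ce h = (a, b))
    (X : Fin M → ZMod 5 → V)
    (Y : Fin M → Fin t → V) (R : ℕ → ℕ) (hc : IsCopy E rk M t B σ ce X Y R)
    (Lc C : ℕ) (hLc : 0 < Lc)
    (hC : ((Finset.range ((10 + B) * M)).filter (fun i => M ≤
      ((Finset.range ((10 + B) * M)).filter (fun i' => R i' / Lc = R i / Lc)).card)).card ≤ C) :
    (Finset.univ.filter (fun p : Fin M => ¬ ∀ a b a' b' : Fin t, a < b → a' < b' →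
      rk s(Y p a, Y p b) / Lc = rk s(Y p a', Y p b') / Lc → a = a' ∧ b = b')).card ≤ C := by
  sorry

theorem dense_le (R : ℕ → ℕ) (m M K Lc Lc' μ C0 : ℕ) (hM : 0 < M) (hm : m ≤ K * M)
    (hLc : 0 < Lc) (hLc' : 0 < Lc')
    (hC : ((Finset.range m).filter (fun i => μ <
      ((Finset.range m).filter (fun i' => R i' / Lc = R i / Lc)).card)).card ≤ C0) :
    ((Finset.range m).filter (fun i => M ≤
      ((Finset.range m).filter (fun i' => R i' / Lc' = R i / Lc')).card)).card
      ≤ C0 + K * (Lc' / Lc + 2) * μ := by
  sorry

end Pool.Agent.UCR
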