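import Pool.Agent.UCR.Comb
import Pool.Agent.UCR.RedUnion2
import Pool.Agent.UCR.Spread2

/-!
# UCR Multi: one colouring for several window sizes
-/

set_option autoImplicit false

namespace Pool.Agent.UCR

open Classical in
/-- one window size: the red pairs -/
theorem one_type {V : Type} [Fintype V] [DecidableEq V] (E : Finset (Sym2 V))
    (rk : Sym2 V → ℕ) (hinj : Set.InjOn rk (E : Set (Sym2 V))) (m : ℕ) (hm : E.card ≤ m)
    (hrk : ∀ e ∈ E, rk e < m) (k t B h Γ Lc lam Q μ ℓ C0 r : ℕ)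
    (σ : Equiv.Perm (Fin (2 ^ k))) (hσ : Mixing k σ)
    (ce : Fin B → Fin t × Fin t)
    (ht : 5 ≤ t) (hr : r = m / Lc + 1)
    (hΓ : 0 < Γ) (hLc : 0 < Lc) (hΓL : 4 * Γ ≤ Lc) (hlam : 108 * (4 * Γ) < lam ^ 3)
    (hQ : 0 < Q) (hℓ : 0 < ℓ) (hC : 8 * C0 ≤ 2 ^ k)
    (hrl : 8 * (r * ℓ) ≤ 2 ^ k)
    (hred : 4 * (2 * m) ^ t * 4 ^ (t * (t - 1) / 2) * (40 * lam) ^ h ≤ Q ^ h)
    (hb : 4 * (Q : ℝ) * ((r : ℝ) + μ) ≤ 2 ^ k / (2 * (k + 1) ^ 2))
    (hnum : 4 * (Q : ℝ) * (32 * μ + 16 * 2 ^ k / ℓ) *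
      (Real.log (r * (2 ^ k + 1) ^ 2) + Real.log (4 * (k + 1) ^ 2)) ≤ 2 ^ k / (2 * (k + 1) ^ 2)) :
    ∃ red : Sym2 V → Prop,
      (∀ y : Fin t → V, (∀ a b : Fin t, a < b → s(y a, y b) ∈ E) →
        (∀ a b a' b' : Fin t, a < b → a' < b' →
          rk s(y a, y b) / Lc = rk s(y a', y b') / Lc → a = a' ∧ b = b') →
        (Finset.univ.filter (fun q : Fin t × Fin t => q.1 < q.2 ∧
          red s(y q.1, y q.2))).card < 2 * h) ∧
      ∀ (X : Fin (2 ^ k) → ZMod 5 → V) (Y : Fin (2 ^ k) → Fin t → V)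
        (R : ℕ → ℕ), IsCopy E rk (2 ^ k) t B σ ce X Y R →
        ((Finset.range ((10 + B) * 2 ^ k)).filter (fun i => μ <
          ((Finset.range ((10 + B) * 2 ^ k)).filter (fun i' => R i' / Lc = R i / Lc)).card)).card
            ≤ C0 →
        ((Finset.range ((10 + B) * 2 ^ k)).filter
          (fun i => i + 1 < (10 + B) * 2 ^ k ∧ Γ < R (i + 1) - R i)).card ≤ μ →
        ∃ p, ∃ a a' : ZMod 5, a ≠ a' ∧ red s(X p a, X p a') := by
  have hr0 : 0 < r := by rw [hr]; exact Nat.succ_pos _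
  have hrW : ∀ e ∈ E, rk e / Lc < r := fun e he => by
    rw [hr]
    exact Nat.lt_succ_of_le (Nat.div_le_div_right (hrk e he).le)
  set W : Sym2 V → ℕ := fun e => rk e / Lc with hWdef
  set F : Sym2 V → ℕ := fun e => rk e / (4 * Γ) with hFdef
  obtain ⟨Rd, hR1, hR2, hR3⟩ := cover E W F (4 * Γ) lam
    (fun g => fine_card E rk hinj (4 * Γ) (by omega) g)
    (fun g => coarse_card E rk (4 * Γ) Lc (by omega) hΓL g) hlam
    (Finset.univ.filter (fun X => IsUnit5 E W F X)) (fun X hX => (Finset.mem_filter.mp hX).2)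
  have hblue := blue_union k r Q μ ℓ ((r : ℝ) + μ) σ hr0 hQ hℓ hb hnum
  have hredu := red_union' E W r Q (40 * lam) h t m (by omega) hm hQ Rd hR2 hR3 hred
  obtain ⟨B1, hB1, hB1c⟩ : ∃ B1 : Finset (Fin r × Fin r → Fin Q), (∀ f, f ∈ B1 ↔
      ∃ u ≤ k, ∃ v ≤ k, ℓ < 2 ^ (u + 1) ∧ 2 ^ u ≤ μ ∧ ℓ < 2 ^ (v + 1) ∧ 2 ^ v ≤ μ ∧
      ∃ (d1 : Fin (2 ^ k / 2 ^ u) → Fin r × Fin (2 ^ k + 1) × Fin (2 ^ k + 1))
        (d2 : Fin (2 ^ k / 2 ^ v) → Fin r × Fin (2 ^ k + 1) × Fin (2 ^ k + 1)),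
        (∀ T, 2 ^ k * wt d1 d2 σ T ≤ 16 * 2 ^ (u + v) + 4 * 2 ^ k) ∧
        2 ^ k ≤ 2 * (k + 1) ^ 2 * ∑ T, wt d1 d2 σ T ∧
        (∑ T ∈ Finset.univ.filter (fun T => (f T : ℕ) = 0), (wt d1 d2 σ T : ℝ))
          ≤ (r : ℝ) + μ) ∧ 4 * B1.card ≤ Q ^ (r ^ 2) :=
    ex_of_filter' _ _ _ _ hblue
  obtain ⟨B2, hB2, hB2c⟩ := ex_of_filter _ _ _ hredu
  have hex : ∃ f : Fin r × Fin r → Fin Q, f ∉ B1 ∧ f ∉ B2 := by
    by_contra hcon
    push Not at hcon
    have hsub : (Finset.univ : Finset (Fin r × Fin r → Fin Q)) ⊆ B1 ∪ B2 := by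
      intro f _
      rw [Finset.mem_union]
      by_cases hf : f ∈ B1
      · exact Or.inl hf
      · exact Or.inr (hcon f hf)
    have hcard := (Finset.card_le_card hsub).trans (Finset.card_union_le _ _)
    rw [Finset.card_univ, Fintype.card_fun, Fintype.card_prod, Fintype.card_fin, Fintype.card_fin,
      ← pow_two] at hcard
    have hpos : 0 < Q ^ (r ^ 2) := pow_pos hQ _
    omega
  obtain ⟨f, hf1, hf2⟩ := hex
  rw [hB2] at hf2
  refine ⟨fun e => ∃ T : Fin r × Fin r, (f T : ℕ) = 0 ∧ e ∈ Rd ((T.1 : ℕ), (T.2 : ℕ)),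
    fun y hyE hyW => ?_, fun X Y R hc hC1 hG => ?_⟩
  · by_contra hlt
    apply hf2
    refine ⟨y, hyE, hyW, ?_⟩
    convert Nat.le_of_not_lt hlt
  · by_contra hcon
    push Not at hcon
    obtain ⟨A1, A2, hmA1, hmA2, hA1, hA2, hl1, hl2⟩ :=
      phases E rk (2 ^ k) t B σ ce X Y R hc Lc r μ C0 hLc hrW hC1
    obtain ⟨u, hu, v, hv, hu1, hu2, hv1, hv2, d1, d2, hA, hwt, hlarge⟩ :=
      exists_data k σ hσ r μ ℓ C0 A1 A2 hmA1 hmA2 hl1 hl2 hC hrl
    apply hf1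
    rw [hB1]
    refine ⟨u, hu, v, hv, hu1, hu2, hv1, hv2, d1, d2, hwt, ?_, ?_⟩
    · exact hlarge.trans (Nat.mul_le_mul_left _ (card_le_sum_wt σ d1 d2))
    · have hfew := few_bad E rk (2 ^ k) t B σ ce X Y R hc Lc Γ r μ hΓ hLc hrW hG
      have hsum := sum_wt_le σ d1 d2 A1 A2 hA
        (Finset.univ.filter (fun T => (f T : ℕ) = 0))
        (Finset.univ.filter (fun p => ¬ IsUnit5 E W F (X p))) (by
          intro p T hT hcnt
          rw [Finset.mem_filter] at hT ⊢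
          refine ⟨Finset.mem_univ _, fun hunit => ?_⟩
          obtain ⟨a, a', haa, hmem⟩ := hR1 (X p) (Finset.mem_filter.mpr ⟨Finset.mem_univ _, hunit⟩)
          obtain ⟨e1, e2⟩ := hA p _ _ hcnt
          have hl : lab W (X p) = ((T.1 : ℕ), (T.2 : ℕ)) := by
            unfold lab
            rw [← e1, ← e2, hA1, hA2]
          rw [hl] at hmem
          exact hcon p a a' haa T hT.2 hmem)
      have : (∑ T ∈ Finset.univ.filter (fun T => (f T : ℕ) = 0), wt d1 d2 σ T) ≤ r + μ :=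
        hsum.trans hfew
      exact_mod_cast this

/-- the number of pairs `a < b` -/
theorem card_pairs' (t : ℕ) :
    (Finset.univ.filter (fun q : Fin t × Fin t => q.1 < q.2)).card = t * (t - 1) / 2 := by
  have h2 : (Finset.univ.filter (fun q : Fin t × Fin t => q.2 < q.1)).card
      = (Finset.univ.filter (fun q : Fin t × Fin t => q.1 < q.2)).card := by
    refine Finset.card_bij (fun q _ => (q.2, q.1)) ?_ ?_ ?_
    · intro q hq
      simpa using hq
    · intro q _ q' _ h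
      rw [Prod.mk.injEq] at h
      exact Prod.ext h.2 h.1
    · intro q hq
      exact ⟨(q.2, q.1), by simpa using hq, rfl⟩
  have h3 : (Finset.univ : Finset (Fin t)).offDiag
      = Finset.univ.filter (fun q : Fin t × Fin t => q.1 < q.2) ∪
        Finset.univ.filter (fun q : Fin t × Fin t => q.2 < q.1) := by
    ext q
    simp only [Finset.mem_offDiag, Finset.mem_univ, true_and, Finset.mem_union, Finset.mem_filter]
    exact ne_iff_lt_or_gt
  have h4 : Disjoint (Finset.univ.filter (fun q : Fin t × Fin t => q.1 < q.2))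
      (Finset.univ.filter (fun q : Fin t × Fin t => q.2 < q.1)) := by
    rw [Finset.disjoint_left]
    intro q hq hq'
    exact lt_asymm (Finset.mem_filter.mp hq).2 (Finset.mem_filter.mp hq').2
  have h5 := Finset.offDiag_card (s := (Finset.univ : Finset (Fin t)))
  rw [h3, Finset.card_union_of_disjoint h4, h2, Finset.card_univ, Fintype.card_fin] at h5
  rw [Nat.mul_sub, mul_one]
  omega

open Classical in
/-- one colouring for all window sizes -/
theorem multi {V : Type} [Fintype V] [DecidableEq V] (E : Finset (Sym2 V))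
    (rk : Sym2 V → ℕ) (hinj : Set.InjOn rk (E : Set (Sym2 V))) (m : ℕ) (hm : E.card ≤ m)
    (hrk : ∀ e ∈ E, rk e < m) (k t B h C0 s : ℕ) (Γ Lc lam Q μ ℓ r : Fin s → ℕ)
    (σ : Equiv.Perm (Fin (2 ^ k))) (hσ : Mixing k σ)
    (ce : Fin B → Fin t × Fin t) (hce : Function.Injective ce)
    (hce2 : ∀ a b : Fin t, a < b → ∃ h, ce h = (a, b))
    (ht : 5 ≤ t) (hs : 0 < s) (hhs : s * (2 * h) ≤ t * (t - 1) / 2)
    (hr : ∀ j, r j = m / Lc j + 1)
    (hΓ : ∀ j, 0 < Γ j) (hLc : ∀ j, 0 < Lc j) (hΓL : ∀ j, 4 * Γ j ≤ Lc j)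
    (hlam : ∀ j, 108 * (4 * Γ j) < lam j ^ 3)
    (hQ : ∀ j, 0 < Q j) (hℓ : ∀ j, 0 < ℓ j) (hC : 8 * C0 ≤ 2 ^ k)
    (hrl : ∀ j, 8 * (r j * ℓ j) ≤ 2 ^ k)
    (hred : ∀ j, 4 * (2 * m) ^ t * 4 ^ (t * (t - 1) / 2) * (40 * lam j) ^ h ≤ Q j ^ h)
    (hb : ∀ j, 4 * (Q j : ℝ) * ((r j : ℝ) + μ j) ≤ 2 ^ k / (2 * (k + 1) ^ 2))
    (hnum : ∀ j, 4 * (Q j : ℝ) * (32 * μ j + 16 * 2 ^ k / ℓ j) *
      (Real.log (r j * (2 ^ k + 1) ^ 2) + Real.log (4 * (k + 1) ^ 2))
        ≤ 2 ^ k / (2 * (k + 1) ^ 2))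
    (hsum : ∀ j0 j, s * (C0 + (10 + B) * (Lc j / Lc j0 + 2) * μ j0) < 2 ^ k) :
    ∃ col : Sym2 V → Bool, ∀ (X : Fin (2 ^ k) → ZMod 5 → V) (Y : Fin (2 ^ k) → Fin t → V)
      (R : ℕ → ℕ), IsCopy E rk (2 ^ k) t B σ ce X Y R →
      (∃ b : Bool, (∀ p (a a' : ZMod 5), a ≠ a' → col s(X p a, X p a') = b) ∧
        ∀ p (a a' : Fin t), a ≠ a' → col s(Y p a, Y p a') = b) → ∀ j0 : Fin s,
      ((Finset.range ((10 + B) * 2 ^ k)).filter (fun i => μ j0 <
        ((Finset.range ((10 + B) * 2 ^ k)).filter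
          (fun i' => R i' / Lc j0 = R i / Lc j0)).card)).card ≤ C0 →
      ((Finset.range ((10 + B) * 2 ^ k)).filter
        (fun i => i + 1 < (10 + B) * 2 ^ k ∧ Γ j0 < R (i + 1) - R i)).card ≤ μ j0 → False := by
  have hone := fun j => one_type E rk hinj m hm hrk k t B h (Γ j) (Lc j) (lam j) (Q j) (μ j)
    (ℓ j) C0 (r j) σ hσ ce ht (hr j) (hΓ j) (hLc j) (hΓL j) (hlam j) (hQ j) (hℓ j) hC (hrl j)
    (hred j) (hb j) (hnum j)
  choose red hredY hredX using hone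
  refine ⟨fun e => decide (∃ j, red j e), fun X Y R hc hcol j0 hC1 hG => ?_⟩
  obtain ⟨b, hX, hY⟩ := hcol
  cases b with
  | false =>
    obtain ⟨p, a, a', haa, hr'⟩ := hredX j0 X Y R hc hC1 hG
    exact of_decide_eq_false (hX p a a' haa) ⟨j0, hr'⟩
  | true =>
    have hbad : ∀ j, (Finset.univ.filter (fun p : Fin (2 ^ k) => ¬ ∀ a b a' b' : Fin t, a < b →
        a' < b' → rk s(Y p a, Y p b) / Lc j = rk s(Y p a', Y p b') / Lc j →
          a = a' ∧ b = b')).card ≤ C0 + (10 + B) * (Lc j / Lc j0 + 2) * μ j0 := fun j =>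
      bad_spread E rk (2 ^ k) t B σ ce hce hce2 X Y R hc (Lc j) _ (hLc j)
        (dense_le R ((10 + B) * 2 ^ k) (2 ^ k) (10 + B) (Lc j0) (Lc j) (μ j0) C0
          (by positivity) le_rfl (hLc j0) (hLc j) hC1)
    have hlt : ((Finset.univ : Finset (Fin s)).biUnion (fun j =>
        Finset.univ.filter (fun p : Fin (2 ^ k) => ¬ ∀ a b a' b' : Fin t, a < b →
        a' < b' → rk s(Y p a, Y p b) / Lc j = rk s(Y p a', Y p b') / Lc j →
          a = a' ∧ b = b'))).card < 2 ^ k := by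
      refine lt_of_le_of_lt Finset.card_biUnion_le ?_
      have h1 : s * (∑ j : Fin s, (Finset.univ.filter (fun p : Fin (2 ^ k) =>
          ¬ ∀ a b a' b' : Fin t, a < b →
          a' < b' → rk s(Y p a, Y p b) / Lc j = rk s(Y p a', Y p b') / Lc j →
          a = a' ∧ b = b')).card) < s * 2 ^ k := by
        rw [Finset.mul_sum]
        have hne : (Finset.univ : Finset (Fin s)).Nonempty := ⟨⟨0, hs⟩, Finset.mem_univ _⟩
        calc ∑ j : Fin s, s * (Finset.univ.filter (fun p : Fin (2 ^ k) =>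
          ¬ ∀ a b a' b' : Fin t, a < b →
          a' < b' → rk s(Y p a, Y p b) / Lc j = rk s(Y p a', Y p b') / Lc j →
          a = a' ∧ b = b')).card
            < ∑ _j : Fin s, 2 ^ k := by
              apply Finset.sum_lt_sum_of_nonempty hne
              intro j _
              exact lt_of_le_of_lt (Nat.mul_le_mul_left s (hbad j)) (hsum j0 j)
          _ = s * 2 ^ k := by simp
      exact lt_of_mul_lt_mul_left h1 (Nat.zero_le s)
    obtain ⟨p, _, hp⟩ := Finset.exists_mem_notMem_of_card_lt_card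
      (lt_of_lt_of_eq hlt (by rw [Finset.card_univ, Fintype.card_fin] :
        2 ^ k = (Finset.univ : Finset (Fin (2 ^ k))).card))
    have hgood : ∀ j, ∀ a b a' b' : Fin t, a < b → a' < b' →
        rk s(Y p a, Y p b) / Lc j = rk s(Y p a', Y p b') / Lc j → a = a' ∧ b = b' := by
      intro j
      by_contra hcon
      exact hp (Finset.mem_biUnion.mpr ⟨j, Finset.mem_univ _,
        Finset.mem_filter.mpr ⟨Finset.mem_univ _, hcon⟩⟩)
    have hcount : (Finset.univ.filter (fun q : Fin t × Fin t => q.1 < q.2)).card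
        ≤ ∑ j : Fin s, (Finset.univ.filter (fun q : Fin t × Fin t => q.1 < q.2 ∧
          red j s(Y p q.1, Y p q.2))).card := by
      refine le_trans (Finset.card_le_card ?_) Finset.card_biUnion_le
      intro q hq
      have hq' := (Finset.mem_filter.mp hq).2
      obtain ⟨j, hj⟩ := of_decide_eq_true (hY p q.1 q.2 hq'.ne)
      exact Finset.mem_biUnion.mpr ⟨j, Finset.mem_univ _,
        Finset.mem_filter.mpr ⟨Finset.mem_univ _, hq', hj⟩⟩
    have hlt2 : ∑ j : Fin s, (Finset.univ.filter (fun q : Fin t × Fin t => q.1 < q.2 ∧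
          red j s(Y p q.1, Y p q.2))).card < ∑ _j : Fin s, 2 * h := by
      apply Finset.sum_lt_sum_of_nonempty ⟨⟨0, hs⟩, Finset.mem_univ _⟩
      intro j _
      exact hredY j (Y p) (fun a b hab => hc.YE p a b hab.ne) (hgood j)
    rw [card_pairs'] at hcount
    simp only [Finset.sum_const, Finset.card_univ, Fintype.card_fin, smul_eq_mul] at hlt2
    omega

end Pool.Agent.UCR
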