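import Pool.Agent.UCR.Defs

/-!
# UCR RedCount: an elementary first moment bound

PROOF. If `f` is in the set, choose for every `e ∈ I` a label `τ e ∈ S e` with `f (τ e) = 0`. Every
label is `τ e` for at most two `e`, so `τ` has at least `card I / 2 ≥ h` values; hence there are
`I' ⊆ I` with exactly `h` elements such that `τ` is injective on `I'`. So `f` is in the union, over
the sets `I' ⊆ I` with `h` elements (at most `2 ^ card I`) and over the functions
`τ' ∈ I'.pi S` (or `Fintype.piFinset`), injective, at most `s ^ h` for each `I'`, of the sets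
`{f : f (τ' e) = 0 for all e ∈ I'}`. The latter has exactly `Q ^ (card Lab - h)` elements
(prescribed on the `h` points of the image). Multiply by `Q ^ h`.
-/

set_option autoImplicit false

namespace Pool.Agent.UCR

open Classical in
private lemma zeros_card {Lab : Type} [Fintype Lab] (Q : ℕ) (W : Finset Lab) :
    (Finset.univ.filter (fun f : Lab → Fin Q => ∀ T ∈ W, (f T : ℕ) = 0)).card * Q ^ W.card
      ≤ Q ^ Fintype.card Lab := by
  have h1 : Q ^ W.card = (Finset.univ : Finset (W → Fin Q)).card := by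
    rw [Finset.card_univ, Fintype.card_fun, Fintype.card_fin, Fintype.card_coe]
  have h2 : Q ^ Fintype.card Lab = (Finset.univ : Finset (Lab → Fin Q)).card := by
    rw [Finset.card_univ, Fintype.card_fun, Fintype.card_fin]
  rw [h1, h2, ← Finset.card_product]
  refine Finset.card_le_card_of_injOn
    (fun p => fun T => if h : T ∈ W then p.2 ⟨T, h⟩ else p.1 T) (fun _ _ => Finset.mem_univ _) ?_
  rintro ⟨f, g⟩ hp ⟨f', g'⟩ hp' heq
  have hf : ∀ T ∈ W, (f T : ℕ) = 0 := by
    have := (Finset.mem_product.1 (Finset.mem_coe.1 hp)).1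
    exact (Finset.mem_filter.1 this).2
  have hf' : ∀ T ∈ W, (f' T : ℕ) = 0 := by
    have := (Finset.mem_product.1 (Finset.mem_coe.1 hp')).1
    exact (Finset.mem_filter.1 this).2
  have hT : ∀ T, (if h : T ∈ W then g ⟨T, h⟩ else f T) = if h : T ∈ W then g' ⟨T, h⟩ else f' T :=
    fun T => congrFun heq T
  have e1 : f = f' := by
    funext T
    by_cases h : T ∈ W
    · exact Fin.ext ((hf T h).trans (hf' T h).symm)
    · have := hT T
      rw [dif_neg h, dif_neg h] at this
      exact this
  have e2 : g = g' := by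
    funext ⟨T, h⟩
    have := hT T
    rw [dif_pos h, dif_pos h] at this
    exact this
  rw [e1, e2]

open Classical in
private lemma exists_sub {Lab I : Type} [Fintype I] (h : ℕ) (τ : I → Lab)
    (h2 : ∀ T : Lab, (Finset.univ.filter (fun e : I => τ e = T)).card ≤ 2)
    (hI : 2 * h ≤ Fintype.card I) :
    ∃ I' : Finset I, I'.card = h ∧ Set.InjOn τ (I' : Set I) := by
  have hc : (Finset.univ : Finset I).card ≤ 2 * ((Finset.univ : Finset I).image τ).card :=
    Finset.card_le_mul_card_image _ 2 (fun T _ => h2 T)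
  rw [Finset.card_univ] at hc
  have hh : h ≤ ((Finset.univ : Finset I).image τ).card := by omega
  obtain ⟨B, hB, hBc⟩ := Finset.exists_subset_card_eq hh
  have hex2 : ∀ T : {T // T ∈ B}, ∃ i : I, τ i = T.1 := by
    rintro ⟨T, hT⟩
    obtain ⟨i, _, hi⟩ := Finset.mem_image.1 (hB hT)
    exact ⟨i, hi⟩
  choose σ hσ using hex2
  refine ⟨(Finset.univ : Finset {T // T ∈ B}).image σ, ?_, ?_⟩
  · rw [Finset.card_image_of_injective, Finset.card_univ, Fintype.card_coe, hBc]
    intro a b hab
    have : τ (σ a) = τ (σ b) := by rw [hab]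
    rw [hσ, hσ] at this
    exact Subtype.ext this
  · intro a ha b hb hab
    obtain ⟨a', _, rfl⟩ := Finset.mem_image.1 (Finset.mem_coe.1 ha)
    obtain ⟨b', _, rfl⟩ := Finset.mem_image.1 (Finset.mem_coe.1 hb)
    rw [hσ, hσ] at hab
    rw [Subtype.ext hab]

open Classical in
theorem red_count {Lab I : Type} [Fintype Lab] [Fintype I] (Q s h : ℕ)
    (S : I → Finset Lab) (hS : ∀ e, (S e).card ≤ s)
    (h2 : ∀ T : Lab, (Finset.univ.filter (fun e : I => T ∈ S e)).card ≤ 2)
    (hI : 2 * h ≤ Fintype.card I) :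
    (Finset.univ.filter (fun f : Lab → Fin Q => ∀ e : I, ∃ T ∈ S e, (f T : ℕ) = 0)).card * Q ^ h
      ≤ 2 ^ Fintype.card I * s ^ h * Q ^ Fintype.card Lab := by
  set Z : (I' : Finset I) → ((a : I) → a ∈ I' → Lab) → Finset (Lab → Fin Q) := fun I' p =>
    Finset.univ.filter (fun f => ∀ T ∈ I'.attach.image (fun a => p a.1 a.2), (f T : ℕ) = 0)
    with hZ
  set P : (I' : Finset I) → Finset ((a : I) → a ∈ I' → Lab) := fun I' =>
    (I'.pi S).filter (fun p => (I'.attach.image (fun a => p a.1 a.2)).card = h) with hP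
  have hsub : Finset.univ.filter (fun f : Lab → Fin Q => ∀ e : I, ∃ T ∈ S e, (f T : ℕ) = 0) ⊆
      (Finset.powersetCard h (Finset.univ : Finset I)).biUnion
        (fun I' => (P I').biUnion (fun p => Z I' p)) := by
    intro f hf
    have hf' := (Finset.mem_filter.1 hf).2
    choose τ hτ hτ0 using hf'
    obtain ⟨I', hI', hinj⟩ := exists_sub h τ (fun T => le_trans
      (Finset.card_le_card (fun e he => by
        have := (Finset.mem_filter.1 he).2
        refine Finset.mem_filter.2 ⟨Finset.mem_univ _, ?_⟩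
        rw [← this]
        exact hτ e)) (h2 T)) hI
    refine Finset.mem_biUnion.2 ⟨I', Finset.mem_powersetCard.2 ⟨Finset.subset_univ _, hI'⟩, ?_⟩
    refine Finset.mem_biUnion.2 ⟨fun a _ => τ a, ?_, ?_⟩
    · refine Finset.mem_filter.2 ⟨Finset.mem_pi.2 (fun a _ => hτ a), ?_⟩
      rw [Finset.card_image_of_injective, Finset.card_attach, hI']
      intro a b hab
      exact Subtype.ext (hinj a.2 b.2 hab)
    · refine Finset.mem_filter.2 ⟨Finset.mem_univ _, ?_⟩
      intro T hT
      obtain ⟨a, _, rfl⟩ := Finset.mem_image.1 hT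
      exact hτ0 a.1
  have hZc : ∀ I' : Finset I, ∀ p ∈ P I', (Z I' p).card * Q ^ h ≤ Q ^ Fintype.card Lab := by
    intro I' p hp
    have := (Finset.mem_filter.1 hp).2
    have hz := zeros_card Q (I'.attach.image (fun a => p a.1 a.2))
    rw [this] at hz
    exact hz
  have hPc : ∀ I' ∈ Finset.powersetCard h (Finset.univ : Finset I), (P I').card ≤ s ^ h := by
    intro I' hI'
    have hc := (Finset.mem_powersetCard.1 hI').2
    calc (P I').card ≤ (I'.pi S).card := Finset.card_filter_le _ _
      _ = ∏ a ∈ I', (S a).card := Finset.card_pi _ _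
      _ ≤ ∏ _a ∈ I', s := Finset.prod_le_prod' (fun a _ => hS a)
      _ = s ^ h := by rw [Finset.prod_const, hc]
  calc (Finset.univ.filter (fun f : Lab → Fin Q => ∀ e : I, ∃ T ∈ S e, (f T : ℕ) = 0)).card * Q ^ h
      ≤ ((Finset.powersetCard h (Finset.univ : Finset I)).biUnion
        (fun I' => (P I').biUnion (fun p => Z I' p))).card * Q ^ h :=
        Nat.mul_le_mul_right _ (Finset.card_le_card hsub)
    _ ≤ (∑ I' ∈ Finset.powersetCard h (Finset.univ : Finset I),
        ((P I').biUnion (fun p => Z I' p)).card) * Q ^ h :=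
        Nat.mul_le_mul_right _ Finset.card_biUnion_le
    _ ≤ (∑ I' ∈ Finset.powersetCard h (Finset.univ : Finset I),
        ∑ p ∈ P I', (Z I' p).card) * Q ^ h :=
        Nat.mul_le_mul_right _ (Finset.sum_le_sum (fun I' _ => Finset.card_biUnion_le))
    _ = ∑ I' ∈ Finset.powersetCard h (Finset.univ : Finset I),
        ∑ p ∈ P I', (Z I' p).card * Q ^ h := by
        rw [Finset.sum_mul]
        exact Finset.sum_congr rfl (fun I' _ => Finset.sum_mul _ _ _)
    _ ≤ ∑ I' ∈ Finset.powersetCard h (Finset.univ : Finset I),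
        ∑ _p ∈ P I', Q ^ Fintype.card Lab :=
        Finset.sum_le_sum (fun I' _ => Finset.sum_le_sum (fun p hp => hZc I' p hp))
    _ = ∑ I' ∈ Finset.powersetCard h (Finset.univ : Finset I),
        (P I').card * Q ^ Fintype.card Lab := by
        refine Finset.sum_congr rfl (fun I' _ => ?_)
        rw [Finset.sum_const, smul_eq_mul]
    _ ≤ ∑ _I' ∈ Finset.powersetCard h (Finset.univ : Finset I),
        s ^ h * Q ^ Fintype.card Lab :=
        Finset.sum_le_sum (fun I' hI' => Nat.mul_le_mul_right _ (hPc I' hI'))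
    _ = (Fintype.card I).choose h * (s ^ h * Q ^ Fintype.card Lab) := by
        rw [Finset.sum_const, smul_eq_mul, Finset.card_powersetCard, Finset.card_univ]
    _ ≤ 2 ^ Fintype.card I * (s ^ h * Q ^ Fintype.card Lab) :=
        Nat.mul_le_mul_right _ (Nat.choose_le_two_pow _ _)
    _ = 2 ^ Fintype.card I * s ^ h * Q ^ Fintype.card Lab := by rw [mul_assoc]

end Pool.Agent.UCR
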