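import Pool.Agent.UCR.Defs

/-!
# UCR Stmt: the notions of the final statement, for graphs on `Fin n`, `Fin N`
-/

set_option autoImplicit false

namespace Pool.Agent.UCR

/-- The distance of two edges `e`, `e'` of `G` in the order `f`: the number of edges `x` of `G` with
`f e ≤ f x < f e'` or `f e' ≤ f x < f e` (the difference of their ranks). -/
noncomputable def dist {N : ℕ} (G : SimpleGraph (Fin N)) (f : Sym2 (Fin N) → ℕ)
    (e e' : Sym2 (Fin N)) : ℕ :=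
  {x ∈ G.edgeSet | (f e ≤ f x ∧ f x < f e') ∨ (f e' ≤ f x ∧ f x < f e)}.ncard

/-- `φ` is a copy of the graph `H`, ordered by `g`, in the graph `G`, ordered by `f`, and all its
edges have the same colour under `col`. -/
def IsMonoCopy {n N : ℕ} (H : SimpleGraph (Fin n)) (g : Sym2 (Fin n) → ℕ)
    (G : SimpleGraph (Fin N)) (f : Sym2 (Fin N) → ℕ) (col : Sym2 (Fin N) → Bool)
    (φ : Fin n → Fin N) : Prop :=
  Function.Injective φ ∧ (∀ e ∈ H.edgeSet, Sym2.map φ e ∈ G.edgeSet) ∧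
    (∀ e ∈ H.edgeSet, ∀ e' ∈ H.edgeSet, (g e < g e' ↔ f (Sym2.map φ e) < f (Sym2.map φ e'))) ∧
    ∃ b : Bool, ∀ e ∈ H.edgeSet, col (Sym2.map φ e) = b

/-- More than `c n` edges of the copy `φ` of `H` have more than `n ^ (1 - w)` edges of the copy
within distance `n ^ (1 + w)`. -/
def Clustered {n N : ℕ} (H : SimpleGraph (Fin n)) (G : SimpleGraph (Fin N))
    (f : Sym2 (Fin N) → ℕ) (φ : Fin n → Fin N) (w c : ℝ) : Prop :=
  c * n < ({e ∈ H.edgeSet | (n : ℝ) ^ (1 - w) < ({e' ∈ H.edgeSet |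
    (dist G f (Sym2.map φ e) (Sym2.map φ e') : ℝ) ≤ (n : ℝ) ^ (1 + w)}.ncard : ℝ)}.ncard : ℝ)

/-- More than `n ^ (1 - w)` pairs of consecutive edges of the copy `φ` of `H` have distance more
than `n ^ (1 + a)`. -/
def Gappy {n N : ℕ} (H : SimpleGraph (Fin n)) (g : Sym2 (Fin n) → ℕ)
    (G : SimpleGraph (Fin N)) (f : Sym2 (Fin N) → ℕ) (φ : Fin n → Fin N) (a w : ℝ) : Prop :=
  (n : ℝ) ^ (1 - w) < ({p : Sym2 (Fin n) × Sym2 (Fin n) | p.1 ∈ H.edgeSet ∧ p.2 ∈ H.edgeSet ∧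
    g p.1 < g p.2 ∧ (∀ e ∈ H.edgeSet, ¬ (g p.1 < g e ∧ g e < g p.2)) ∧
    (n : ℝ) ^ (1 + a) < (dist G f (Sym2.map φ p.1) (Sym2.map φ p.2) : ℝ)}.ncard : ℝ)

/-- the edges as a finset -/
noncomputable def edges {N : ℕ} (G : SimpleGraph (Fin N)) : Finset (Sym2 (Fin N)) :=
  G.edgeSet.toFinite.toFinset

/-- the rank of `x` among the edges of `G` in the order `f` -/
noncomputable def rank {N : ℕ} (G : SimpleGraph (Fin N)) (f : Sym2 (Fin N) → ℕ)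
    (x : Sym2 (Fin N)) : ℕ :=
  {y ∈ G.edgeSet | f y < f x}.ncard

/-- The designed graph, on `Fin n`, with `2 ^ k` units and `2 ^ k` cliques `K_t`, and its order. -/
structure IsDesign (n k t B : ℕ) (σ : Equiv.Perm (Fin (2 ^ k))) (ce : Fin B → Fin t × Fin t)
    (H : SimpleGraph (Fin n)) (g : Sym2 (Fin n) → ℕ) (u : Fin (2 ^ k) → ZMod 5 → Fin n)
    (v : Fin (2 ^ k) → Fin t → Fin n) : Prop where
  uinj : ∀ p, Function.Injective (u p)
  vinj : ∀ p, Function.Injective (v p)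
  deg : ∀ x, (H.neighborSet x).ncard ≤ t
  ginj : Set.InjOn g H.edgeSet
  ue : ∀ p (a b : ZMod 5), a ≠ b → s(u p a, u p b) ∈ H.edgeSet
  ve : ∀ p (a b : Fin t), a ≠ b → s(v p a, v p b) ∈ H.edgeSet
  g1 : ∀ p (c : ZMod 5), g s(u p c, u p (c + 1)) = 5 * (p : ℕ) + c.val
  g2 : ∀ p (c : ZMod 5), g s(u p c, u p (c + 2)) = 5 * 2 ^ k + 5 * (σ p : ℕ) + c.val
  g3 : ∀ (h : Fin B) p, g s(v p (ce h).1, v p (ce h).2) = 10 * 2 ^ k + (h : ℕ) * 2 ^ k + (p : ℕ)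
  glt : ∀ e ∈ H.edgeSet, g e < (10 + B) * 2 ^ k
  gsurj : ∀ i < (10 + B) * 2 ^ k, ∃ e ∈ H.edgeSet, g e = i

end Pool.Agent.UCR
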